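import Pool.Agent.TWI.StO

set_option autoImplicit false

namespace Pool.TWI

open Pool.Agent.ARB
open Pool.Agent.Helper2 (Slice bracket evalAt loopVal)

private theorem cg_vc (j : ℕ) : (vc (dl j) : Fk) ∈ Iz := Subring.subset_closure ⟨j, rfl⟩

private theorem cg_sum (s : Finset ℕ) : ∃ c ∈ Iz, vc (∑ r ∈ s, (2 : ℂ) • dl r) = 2 * c := by
  refine ⟨∑ r ∈ s, vc (dl r), Iz.sum_mem fun r _ => cg_vc r, ?_⟩
  rw [map_sum, Finset.mul_sum]
  refine Finset.sum_congr rfl fun r _ => ?_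
  rw [map_smul, two_mul, two_smul]

private theorem cg_Rm (a w j : ℕ) : ∃ c ∈ Iz, vc (Rm a w (dl j)) = vc (dl j) + 2 * c := by
  have h1 : Rm a w (dl j) = if a < j ∧ j < a + w then -dl j else dl j +
    (if j = a then ∑ r ∈ (Finset.Ioo a (a + w)).filter (fun r => r % 2 = a % 2), (2 : ℂ) • dl r
      else 0) +
    (if j = a + w then ∑ r ∈ (Finset.Ioo a (a + w)).filter (fun r => r % 2 ≠ a % 2),
      (2 : ℂ) • dl r else 0) := by
    unfold Rm lm dl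
    rw [Finsupp.linearCombination_single, one_smul]
  rw [h1]
  split_ifs with h2 h3 h4 h5
  · refine ⟨-vc (dl j), Iz.neg_mem (cg_vc j), ?_⟩
    rw [map_neg, mul_neg, two_mul]
    abel
  · obtain ⟨c, hc, e1⟩ := cg_sum ((Finset.Ioo a (a + w)).filter (fun r => r % 2 = a % 2))
    obtain ⟨c', hc', e2⟩ := cg_sum ((Finset.Ioo a (a + w)).filter (fun r => r % 2 ≠ a % 2))
    exact ⟨c + c', Iz.add_mem hc hc', by rw [map_add, map_add, e1, e2, mul_add, add_assoc]⟩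
  · obtain ⟨c, hc, e1⟩ := cg_sum ((Finset.Ioo a (a + w)).filter (fun r => r % 2 = a % 2))
    exact ⟨c, hc, by rw [map_add, map_add, e1, map_zero, add_zero]⟩
  · obtain ⟨c', hc', e2⟩ := cg_sum ((Finset.Ioo a (a + w)).filter (fun r => r % 2 ≠ a % 2))
    exact ⟨c', hc', by rw [map_add, map_add, e2, map_zero, add_zero]⟩
  · exact ⟨0, Iz.zero_mem, by rw [map_add, map_add, map_zero, add_zero, add_zero, mul_zero,
      add_zero]⟩

theorem thm_Cg : St_Cg := by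
  constructor
  · intro a w b hb
    unfold xR
    refine Subring.closure_induction (p := fun b _ => ∃ c ∈ Iz, mp (Rm a w) b = b + 2 * c)
      ?_ ?_ ?_ ?_ ?_ ?_ hb
    · rintro _ ⟨j, rfl⟩
      obtain ⟨c, hc, h⟩ := cg_Rm a w j
      exact ⟨c, hc, by rw [mp_vc, h]⟩
    · exact ⟨0, Iz.zero_mem, by rw [map_zero, mul_zero, add_zero]⟩
    · exact ⟨0, Iz.zero_mem, by rw [mp_one, mul_zero, add_zero]⟩
    · rintro x y _ _ ⟨c, hc, e1⟩ ⟨c', hc', e2⟩
      exact ⟨c + c', Iz.add_mem hc hc', by rw [map_add, e1, e2, mul_add]; abel⟩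
    · rintro x _ ⟨c, hc, e1⟩
      exact ⟨-c, Iz.neg_mem hc, by rw [map_neg, e1, mul_neg, neg_add]⟩
    · rintro x y hx hy ⟨c, hc, e1⟩ ⟨c', hc', e2⟩
      refine ⟨x * c' + c * y + 2 * (c * c'), Iz.add_mem (Iz.add_mem (Iz.mul_mem hx hc')
        (Iz.mul_mem hc hy)) ?_, ?_⟩
      · rw [two_mul]
        exact Iz.add_mem (Iz.mul_mem hc hc') (Iz.mul_mem hc hc')
      · rw [mp_mul, e1, e2]
        noncomm_ring
  · intro b hb
    refine Subring.closure_induction (p := fun b _ => ∃ m : ℤ, ep b = (m : ℂ))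
      ?_ ?_ ?_ ?_ ?_ ?_ hb
    · rintro _ ⟨j, rfl⟩
      exact ⟨0, by rw [ep_vc]; simp⟩
    · exact ⟨0, by rw [map_zero]; simp⟩
    · exact ⟨1, by rw [ep_one]; simp⟩
    · rintro x y _ _ ⟨c, e1⟩ ⟨c', e2⟩
      exact ⟨c + c', by rw [map_add, e1, e2]; push_cast; rfl⟩
    · rintro x _ ⟨c, e1⟩
      exact ⟨-c, by rw [map_neg, e1]; push_cast; rfl⟩
    · rintro x y _ _ ⟨c, e1⟩ ⟨c', e2⟩
      exact ⟨c * c', by rw [ep_mul, e1, e2]; push_cast; rfl⟩

end Pool.TWI
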