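import Pool.Agent.TWI.StO

/-!
# TWI, Ep: the scalar part of a square
-/

set_option autoImplicit false

namespace Pool.TWI

private theorem ep_ext' {V : Type} [AddCommGroup V] [Module ℂ V] {f g : Gp →ₗ[ℂ] V}
    (h : ∀ j, f (dl j) = g (dl j)) : f = g := by
  apply Finsupp.lhom_ext'
  intro j
  apply LinearMap.ext_ring
  exact h j

private theorem ep_gm (j l : ℕ) : gm j (dl l) = if l = j then 1 else 0 := by
  unfold gm dl
  rw [Finsupp.lapply_apply, Finsupp.single_apply]

private theorem ep_gB : gm 1 ∘ₗ piB = 0 := by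
  apply ep_ext'
  intro j
  have h1 : piB (dl j) = if j % 2 = 0 then dl j else 0 := by
    unfold piB lm dl
    rw [Finsupp.linearCombination_single, one_smul]
  rw [LinearMap.comp_apply, h1, LinearMap.zero_apply]
  split_ifs with h
  · rw [ep_gm, if_neg (by omega)]
  · rw [map_zero]

theorem thm_Ep : St_Ep := by
  intro b hb
  have hcb : ct (gm 1) b = 0 := by
    rw [← hb, ct_mp, ep_gB, ct_zero, map_zero]
  have hOm : Om 2 = vc (dl 1) * 1 := by
    unfold Om
    rfl
  have hg : gm 1 (dl 1) = 1 := by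
    rw [ep_gm, if_pos rfl]
  unfold Th
  rw [ct_prod, ct_rv, hcb, map_zero, map_zero, zero_mul, zero_add, ct_KK, hOm, ct_mul, ct_one,
    mul_zero, sub_zero, hg, one_smul, ep_KK_one, ep_iv, mul_smul_comm, mul_one, map_smul, ep_iv,
    ep_rv, smul_eq_mul, pow_two]

end Pool.TWI
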