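import Pool.Agent.TWI.StO

set_option autoImplicit false

namespace Pool.TWI

open Pool.Agent.ARB
open Pool.Agent.Helper2 (Slice bracket evalAt loopVal)

/-- the phase of a crossing -/
private noncomputable def ftw_z (z : ℂˣ) (p : Bool) : ℂ := if p then (z : ℂ) else ((z⁻¹ : ℂˣ) : ℂ)

private theorem ftw_norm (z : ℂˣ) (hz : (z : ℂ) ^ 2 = Complex.I) (p : Bool) :
    ‖ftw_z z p‖ = 1 := by
  have h1 : ‖(z : ℂ)‖ ^ 2 = 1 := by
    rw [← norm_pow, hz, Complex.norm_I]
  have h2 : 0 ≤ ‖(z : ℂ)‖ := norm_nonneg _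
  have h3 : ‖(z : ℂ)‖ = 1 := by nlinarith [h1, h2]
  unfold ftw_z
  cases p
  · rw [if_neg (by decide), Units.val_inv_eq_inv_val, norm_inv, h3, inv_one]
  · rw [if_pos rfl, h3]

private theorem ftw_op (z : ℂˣ) (p : Bool) (i : ℕ) (x : Fk) :
    opU z (pX i p) x = ftw_z z p • mp (Mm p i) x := by
  unfold Mm
  rw [mp_rank, mp_id, mp_id]
  cases p
  · change ((z⁻¹ : ℂˣ) : ℂ) • (x - vc (dl (i + 1)) * ct (ph i) x) = _
    rw [if_neg (by decide), ct_neg, mul_neg, ← sub_eq_add_neg]
    rfl
  · rfl

private theorem ftw_word (z : ℂˣ) (p : Bool) (l : List ℕ) : ∀ (f : Gp →ₗ[ℂ] Gp) (x : Fk),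
    runU z (l.map fun i => pX i p) (mp f x) =
      (ftw_z z p) ^ l.length • mp (l.foldl (fun f i => Mm p i ∘ₗ f) f) x := by
  induction l with
  | nil =>
    intro f x
    simp [runU]
  | cons i l ih =>
    intro f x
    rw [List.map_cons, List.foldl_cons, List.length_cons]
    change runU z (l.map fun i => pX i p) (opU z (pX i p) (mp f x)) = _
    rw [ftw_op, mp_mp, map_smul, ih, smul_smul, pow_succ']

private theorem ftw_append (z : ℂˣ) (u v : Word) (x : Fk) :
    runU z (u ++ v) x = runU z v (runU z u x) := by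
  induction u generalizing x with
  | nil => rfl
  | cons s u ih =>
    change runU z (u ++ v) (opU z s x) = runU z v (runU z u (opU z s x))
    exact ih _

private theorem ftw_one (hM : St_Mx) (z : ℂˣ) (p : Bool) (a w : ℕ) (hw : w % 2 = 1) :
    ∃ N : ℕ, ∀ x : Fk, runU z (List.replicate w (sweep a w p)).flatten x =
      (ftw_z z p) ^ N • mp (Rm a w) x := by
  refine ⟨((List.replicate w ((List.range (w - 1)).map fun j => a + j)).flatten).length,
    fun x => ?_⟩
  have h1 : (List.replicate w (sweep a w p)).flatten =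
      ((List.replicate w ((List.range (w - 1)).map fun j => a + j)).flatten).map
        fun i => pX i p := by
    rw [List.map_flatten, List.map_replicate, List.map_map]
    rfl
  have h2 := ftw_word z p ((List.replicate w ((List.range (w - 1)).map fun j => a + j)).flatten)
    LinearMap.id x
  rw [mp_id, hM p a w hw] at h2
  rw [h1, h2]

theorem thm_FTw (hM : St_Mx) : St_FTw := by
  intro z hz a w k hw
  obtain ⟨N, hN⟩ := ftw_one hM z (decide (0 < k)) a w hw
  have key : ∀ m : ℕ, ∀ x : Fk,
      runU z (List.replicate (w * m) (sweep a w (decide (0 < k)))).flatten x =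
        ((ftw_z z (decide (0 < k))) ^ N) ^ m • (mp (Rm a w))^[m] x := by
    intro m
    induction m with
    | zero =>
      intro x
      simp [runU]
    | succ m ih =>
      intro x
      rw [Nat.mul_succ, List.replicate_add, List.flatten_append, ftw_append, ih, map_smul, hN,
        smul_smul, ← pow_succ, Function.iterate_succ_apply']
  refine ⟨((ftw_z z (decide (0 < k))) ^ N) ^ k.natAbs, ?_, fun x => key k.natAbs x⟩
  rw [norm_pow, norm_pow, ftw_norm z hz, one_pow, one_pow]

end Pool.TWI
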