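import Pool.Agent.TWI.StO

/-!
# TWI, T-B: black letters preserve good elements
-/

set_option autoImplicit false

namespace Pool.TWI

section Gd

/-! ### linear maps on potentials -/

private theorem gd_lm (f : ℕ → Gp) (j : ℕ) : lm f (dl j) = f j := by
  unfold lm dl
  rw [Finsupp.linearCombination_single, one_smul]

private theorem gd_gm (j k : ℕ) : gm j (dl k) = if k = j then 1 else 0 := by
  unfold gm dl
  rw [Finsupp.lapply_apply, Finsupp.single_apply]

private theorem gd_ph (i k : ℕ) :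
    ph i (dl k) = (if k = i then 1 else 0) - (if k = i + 2 then 1 else 0) := by
  unfold ph
  rw [LinearMap.sub_apply, gd_gm, gd_gm]

private theorem gd_ext {X : Type} [AddCommGroup X] [Module ℂ X] {f g : Gp →ₗ[ℂ] X}
    (h : ∀ j, f (dl j) = g (dl j)) : f = g := by
  refine Finsupp.lhom_ext fun a b => ?_
  have h1 : Finsupp.single a b = b • dl a := by
    unfold dl
    rw [Finsupp.smul_single, smul_eq_mul, mul_one]
  rw [h1, map_smul, map_smul, h]

private theorem gd_ins (i j : ℕ) : insM i (dl j) =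
    if j < i then dl j else if j = i then dl i + dl (i + 2) else dl (j + 2) := by
  unfold insM
  rw [gd_lm]

private theorem gd_del (i j : ℕ) : delM i (dl j) =
    if j ≤ i then dl j else if j ≤ i + 2 then 0 else dl (j - 2) := by
  unfold delM
  rw [gd_lm]

private theorem gd_piB (j : ℕ) : piB (dl j) = if j % 2 = 0 then dl j else 0 := by
  unfold piB
  rw [gd_lm]

private theorem gd_Rm (a w j : ℕ) : Rm a w (dl j) =
    if a < j ∧ j < a + w then -dl j else dl j +
    (if j = a then ∑ r ∈ (Finset.Ioo a (a + w)).filter (fun r => r % 2 = a % 2), (2 : ℂ) • dl r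
      else 0) +
    (if j = a + w then ∑ r ∈ (Finset.Ioo a (a + w)).filter (fun r => r % 2 ≠ a % 2),
      (2 : ℂ) • dl r else 0) := by
  unfold Rm
  rw [gd_lm]

/-! ### colours -/

private theorem gd_pi_ins (i : ℕ) : piB ∘ₗ insM i = insM i ∘ₗ piB := by
  refine gd_ext fun j => ?_
  rw [LinearMap.comp_apply, LinearMap.comp_apply, gd_ins, gd_piB]
  rcases lt_trichotomy j i with h | h | h
  · rw [if_pos h, gd_piB]
    by_cases hj : j % 2 = 0
    · rw [if_pos hj, gd_ins, if_pos h]
    · rw [if_neg hj, map_zero]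
  · subst h
    rw [if_neg (lt_irrefl _), if_pos rfl, map_add, gd_piB, gd_piB, Nat.add_mod_right]
    by_cases hj : j % 2 = 0
    · rw [if_pos hj, if_pos hj, gd_ins, if_neg (lt_irrefl _), if_pos rfl]
    · rw [if_neg hj, if_neg hj, map_zero, add_zero]
  · rw [if_neg (by omega), if_neg (by omega), gd_piB, Nat.add_mod_right]
    by_cases hj : j % 2 = 0
    · rw [if_pos hj, if_pos hj, gd_ins, if_neg (by omega), if_neg (by omega)]
    · rw [if_neg hj, if_neg hj, map_zero]

private theorem gd_pi_del (i : ℕ) : piB ∘ₗ delM i = delM i ∘ₗ piB := by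
  refine gd_ext fun j => ?_
  rw [LinearMap.comp_apply, LinearMap.comp_apply, gd_del, gd_piB]
  by_cases h : j ≤ i
  · rw [if_pos h, gd_piB]
    by_cases hj : j % 2 = 0
    · rw [if_pos hj, gd_del, if_pos h]
    · rw [if_neg hj, map_zero]
  · rw [if_neg h]
    by_cases h' : j ≤ i + 2
    · rw [if_pos h', map_zero]
      by_cases hj : j % 2 = 0
      · rw [if_pos hj, gd_del, if_neg h, if_pos h']
      · rw [if_neg hj, map_zero]
    · rw [if_neg h', gd_piB]
      by_cases hj : j % 2 = 0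
      · rw [if_pos hj, gd_del, if_neg h, if_neg h', if_pos (by omega)]
      · rw [if_neg hj, map_zero, if_neg (by omega)]

private theorem gd_pi_sum (s : Finset ℕ) (c : ℕ) (h : ∀ r ∈ s, r % 2 = c % 2) :
    piB (∑ r ∈ s, (2 : ℂ) • dl r) = if c % 2 = 0 then ∑ r ∈ s, (2 : ℂ) • dl r else 0 := by
  rw [map_sum]
  by_cases hc : c % 2 = 0
  · rw [if_pos hc]
    refine Finset.sum_congr rfl fun r hr => ?_
    rw [map_smul, gd_piB, if_pos ((h r hr).trans hc)]
  · rw [if_neg hc]
    refine Finset.sum_eq_zero fun r hr => ?_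
    rw [map_smul, gd_piB, if_neg (fun h' => hc ((h r hr).symm.trans h')), smul_zero]

private theorem gd_pi_Rm (a w : ℕ) (hw : w % 2 = 1) : piB ∘ₗ Rm a w = Rm a w ∘ₗ piB := by
  refine gd_ext fun j => ?_
  rw [LinearMap.comp_apply, LinearMap.comp_apply, gd_Rm, gd_piB]
  by_cases h : a < j ∧ j < a + w
  · rw [if_pos h, map_neg, gd_piB]
    by_cases hj : j % 2 = 0
    · rw [if_pos hj, gd_Rm, if_pos h]
    · rw [if_neg hj, map_zero, neg_zero]
  · rw [if_neg h]
    by_cases h1 : j = a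
    · subst h1
      rw [if_pos rfl, if_neg (by omega), add_zero, map_add, gd_piB,
        gd_pi_sum _ j (fun r hr => (Finset.mem_filter.1 hr).2)]
      by_cases hj : j % 2 = 0
      · rw [if_pos hj, if_pos hj, gd_Rm, if_neg h, if_pos rfl, if_neg (by omega),
          add_zero]
      · rw [if_neg hj, if_neg hj, map_zero, add_zero]
    · rw [if_neg h1, add_zero]
      by_cases h2 : j = a + w
      · subst h2
        rw [if_pos rfl, map_add, gd_piB, gd_pi_sum _ (a + w) (fun r hr => by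
          have h3 := (Finset.mem_filter.1 hr).2
          omega)]
        by_cases hj : (a + w) % 2 = 0
        · rw [if_pos hj, if_pos hj, gd_Rm, if_neg h, if_neg h1, if_pos rfl, add_zero]
        · rw [if_neg hj, if_neg hj, map_zero, add_zero]
      · rw [if_neg h2, add_zero, gd_piB]
        by_cases hj : j % 2 = 0
        · rw [if_pos hj, gd_Rm, if_neg h, if_neg h1, if_neg h2, add_zero, add_zero]
        · rw [if_neg hj, map_zero]

private theorem gd_ph_pi (i : ℕ) (hi : i % 2 = 0) : ph i ∘ₗ piB = ph i := by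
  refine gd_ext fun j => ?_
  rw [LinearMap.comp_apply, gd_piB]
  by_cases hj : j % 2 = 0
  · rw [if_pos hj]
  · rw [if_neg hj, map_zero, gd_ph, if_neg (by omega), if_neg (by omega), sub_zero]

private theorem gd_comp_odd (i : ℕ) (hi : i % 2 = 1) : insM i ∘ₗ delM i ∘ₗ piB =
    (LinearMap.id + (-gm (i + 1)).smulRight (dl (i + 1))) ∘ₗ piB := by
  refine gd_ext fun j => ?_
  rw [LinearMap.comp_apply, LinearMap.comp_apply, LinearMap.comp_apply, gd_piB]
  by_cases hj : j % 2 = 0
  · rw [if_pos hj, LinearMap.add_apply, LinearMap.id_apply, LinearMap.smulRight_apply,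
      LinearMap.neg_apply, gd_gm, gd_del]
    by_cases h : j ≤ i
    · rw [if_pos h, gd_ins, if_pos (by omega), if_neg (by omega), neg_zero, zero_smul, add_zero]
    · rw [if_neg h]
      by_cases h' : j ≤ i + 2
      · have h2 : j = i + 1 := by omega
        rw [if_pos h', map_zero, if_pos h2, h2, neg_smul, one_smul, add_neg_cancel]
      · rw [if_neg h', gd_ins, if_neg (by omega), if_neg (by omega), if_neg (by omega), neg_zero,
          zero_smul, add_zero]
        congr 1
        omega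
  · rw [if_neg hj, map_zero, map_zero, map_zero]

private theorem gd_comp_even (i : ℕ) (hi : i % 2 = 0) : insM i ∘ₗ delM i ∘ₗ piB =
    (LinearMap.id + (ph i).smulRight (dl (i + 2))) ∘ₗ piB := by
  refine gd_ext fun j => ?_
  rw [LinearMap.comp_apply, LinearMap.comp_apply, LinearMap.comp_apply, gd_piB]
  by_cases hj : j % 2 = 0
  · rw [if_pos hj, LinearMap.add_apply, LinearMap.id_apply, LinearMap.smulRight_apply,
      gd_ph, gd_del]
    by_cases h : j ≤ i
    · rw [if_pos h, gd_ins]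
      by_cases h3 : j = i
      · rw [if_neg (by omega), if_pos h3, if_pos h3, if_neg (by omega), sub_zero, one_smul, h3]
      · rw [if_pos (by omega), if_neg h3, if_neg (by omega), sub_zero, zero_smul, add_zero]
    · rw [if_neg h]
      by_cases h' : j ≤ i + 2
      · have h2 : j = i + 2 := by omega
        rw [if_pos h', map_zero, if_neg (by omega), if_pos h2, h2, zero_sub, neg_smul, one_smul,
          add_neg_cancel]
      · rw [if_neg h', gd_ins, if_neg (by omega), if_neg (by omega), if_neg (by omega),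
          if_neg (by omega), sub_zero, zero_smul, add_zero]
        congr 1
        omega
  · rw [if_neg hj, map_zero, map_zero, map_zero]

/-! ### integral elements -/

private theorem gd_Iz (j : ℕ) : vc (dl j) ∈ Iz := Subring.subset_closure ⟨j, rfl⟩

private theorem gd_Iz_two (x : Gp) (hx : vc x ∈ Iz) : vc ((2 : ℂ) • x) ∈ Iz := by
  rw [two_smul, map_add]
  exact Iz.add_mem hx hx

private theorem gd_Iz_mp (f : Gp →ₗ[ℂ] Gp) (hf : ∀ j, vc (f (dl j)) ∈ Iz) (x : Fk)
    (hx : x ∈ Iz) : mp f x ∈ Iz := by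
  unfold Iz at hx
  induction hx using Subring.closure_induction with
  | mem x hx =>
    obtain ⟨j, rfl⟩ := hx
    rw [mp_vc]
    exact hf j
  | zero =>
    rw [map_zero]
    exact Iz.zero_mem
  | one =>
    rw [mp_one]
    exact Iz.one_mem
  | add x y _ _ hx hy =>
    rw [map_add]
    exact Iz.add_mem hx hy
  | neg x _ hx =>
    rw [map_neg]
    exact Iz.neg_mem hx
  | mul x y _ _ hx hy =>
    rw [mp_mul]
    exact Iz.mul_mem hx hy

private theorem gd_Iz_iv (x : Fk) (hx : x ∈ Iz) : iv x ∈ Iz := by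
  unfold Iz at hx
  induction hx using Subring.closure_induction with
  | mem x hx =>
    obtain ⟨j, rfl⟩ := hx
    rw [iv_vc]
    exact Iz.neg_mem (gd_Iz j)
  | zero =>
    rw [map_zero]
    exact Iz.zero_mem
  | one =>
    rw [iv_one]
    exact Iz.one_mem
  | add x y _ _ hx hy =>
    rw [map_add]
    exact Iz.add_mem hx hy
  | neg x _ hx =>
    rw [map_neg]
    exact Iz.neg_mem hx
  | mul x y _ _ hx hy =>
    rw [iv_mul]
    exact Iz.mul_mem hx hy

private theorem gd_Iz_ct (d : Module.Dual ℂ Gp) (hd : ∀ j, ∃ m : ℤ, d (dl j) = m) (x : Fk)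
    (hx : x ∈ Iz) : ct d x ∈ Iz := by
  unfold Iz at hx
  induction hx using Subring.closure_induction with
  | mem x hx =>
    obtain ⟨j, rfl⟩ := hx
    obtain ⟨m, hm⟩ := hd j
    have h2 := ct_mul d (dl j) 1
    rw [mul_one, ct_one, mul_zero, sub_zero, hm] at h2
    have h3 : ((m : ℂ) • (1 : Fk)) = (m : Fk) := by
      rw [Int.cast_smul_eq_zsmul, zsmul_one]
    rw [h2, h3]
    exact intCast_mem Iz m
  | zero =>
    rw [map_zero]
    exact Iz.zero_mem
  | one =>
    rw [ct_one]
    exact Iz.zero_mem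
  | add x y _ _ hx hy =>
    rw [map_add]
    exact Iz.add_mem hx hy
  | neg x _ hx =>
    rw [map_neg]
    exact Iz.neg_mem hx
  | mul x y hx' hy' hx hy =>
    rw [ct_prod]
    exact Iz.add_mem (Iz.mul_mem hx hy') (Iz.mul_mem (gd_Iz_iv x hx') hy)

private theorem gd_Iz_ins (i : ℕ) (x : Fk) (hx : x ∈ Iz) : mp (insM i) x ∈ Iz := by
  refine gd_Iz_mp _ (fun j => ?_) x hx
  rw [gd_ins]
  split_ifs
  · exact gd_Iz _
  · rw [map_add]
    exact Iz.add_mem (gd_Iz _) (gd_Iz _)
  · exact gd_Iz _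

private theorem gd_Iz_del (i : ℕ) (x : Fk) (hx : x ∈ Iz) : mp (delM i) x ∈ Iz := by
  refine gd_Iz_mp _ (fun j => ?_) x hx
  rw [gd_del]
  split_ifs
  · exact gd_Iz _
  · rw [map_zero]
    exact Iz.zero_mem
  · exact gd_Iz _

private theorem gd_Iz_sum (s : Finset ℕ) : vc (∑ r ∈ s, (2 : ℂ) • dl r) ∈ Iz := by
  rw [map_sum]
  exact Iz.sum_mem fun r _ => gd_Iz_two _ (gd_Iz r)

private theorem gd_Iz_Rm (a w : ℕ) (x : Fk) (hx : x ∈ Iz) : mp (Rm a w) x ∈ Iz := by
  refine gd_Iz_mp _ (fun j => ?_) x hx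
  rw [gd_Rm]
  by_cases h : a < j ∧ j < a + w
  · rw [if_pos h, map_neg]
    exact Iz.neg_mem (gd_Iz j)
  · rw [if_neg h, map_add, map_add]
    refine Iz.add_mem (Iz.add_mem (gd_Iz j) ?_) ?_
    · split_ifs
      · exact gd_Iz_sum _
      · rw [map_zero]
        exact Iz.zero_mem
    · split_ifs
      · exact gd_Iz_sum _
      · rw [map_zero]
        exact Iz.zero_mem

private theorem gd_Iz_ph (i : ℕ) (x : Fk) (hx : x ∈ Iz) : ct (ph i) x ∈ Iz := by
  refine gd_Iz_ct _ (fun j => ?_) x hx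
  refine ⟨(if j = i then 1 else 0) - (if j = i + 2 then 1 else 0), ?_⟩
  rw [gd_ph]
  push_cast
  rfl

private theorem gd_int (i : ℕ) (c : Fk) (hc : c ∈ Iz) : xU i c ∈ Iz ∧ xN i c ∈ Iz ∧ xE i c ∈ Iz := by
  unfold xU xN xE
  by_cases hi : i % 2 = 1
  · rw [if_pos hi, if_pos hi, if_pos hi]
    exact ⟨Iz.mul_mem (gd_Iz _) (gd_Iz_ins i c hc), gd_Iz_del i c hc, Iz.mul_mem (gd_Iz _) hc⟩
  · rw [if_neg hi, if_neg hi, if_neg hi]
    exact ⟨gd_Iz_ins i c hc, gd_Iz_del i _ (gd_Iz_ph i c hc), gd_Iz_ph i c hc⟩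

/-! ### parity and colour -/

private theorem gd_bl (f : Gp →ₗ[ℂ] Gp) (hf : piB ∘ₗ f = f ∘ₗ piB) (b : Fk) (hb : mp piB b = b) :
    mp piB (mp f b) = mp f b := by
  rw [mp_mp, hf, ← mp_mp, hb]

private theorem gd_bl_ct (i : ℕ) (hi : i % 2 = 0) (b : Fk) (hb : mp piB b = b) :
    mp piB (ct (ph i) b) = ct (ph i) b := by
  have h := ct_mp piB (ph i) b
  rw [gd_ph_pi i hi, hb] at h
  exact h.symm

private theorem gd_bl_vc (i : ℕ) (hi : i % 2 = 1) (b : Fk) (hb : mp piB b = b) :
    mp piB (vc (dl (i + 1)) * b) = vc (dl (i + 1)) * b := by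
  rw [mp_mul, mp_vc, hb, gd_piB, if_pos (by omega)]

private theorem gd_iv_vc (τ : ℤ) (v : Gp) (b : Fk) (hb : iv b = (τ : ℂ) • b) :
    iv (vc v * b) = ((-τ : ℤ) : ℂ) • (vc v * b) := by
  rw [iv_mul, iv_vc, hb, mul_smul_comm, neg_mul, Int.cast_neg, neg_smul, smul_neg]

private theorem gd_iv_ct (τ : ℤ) (d : Module.Dual ℂ Gp) (b : Fk) (hb : iv b = (τ : ℂ) • b) :
    iv (ct d b) = ((-τ : ℤ) : ℂ) • ct d b := by
  rw [iv_ct, hb, map_smul, Int.cast_neg, neg_smul]

private theorem gd_iv_mp (τ : ℤ) (f : Gp →ₗ[ℂ] Gp) (b : Fk) (hb : iv b = (τ : ℂ) • b) :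
    iv (mp f b) = (τ : ℂ) • mp f b := by
  rw [← mp_iv, hb, map_smul]

private theorem gd_neg {τ : ℤ} (h : τ = 1 ∨ τ = -1) : -τ = 1 ∨ -τ = -1 := by
  rcases h with h | h
  · right
    rw [h]
  · left
    rw [h, neg_neg]

private theorem gd_EE_odd (i : ℕ) (hi : i % 2 = 1) (b : Fk) (hb : mp piB b = b) :
    vc (dl (i + 1)) * mp (insM i) (mp (delM i) b) = vc (dl (i + 1)) * b := by
  have h1 : mp (insM i) (mp (delM i) b) = b + vc (dl (i + 1)) * ct (-gm (i + 1)) b := by
    have h2 : mp (insM i) (mp (delM i) (mp piB b)) =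
        mp (LinearMap.id + (-gm (i + 1)).smulRight (dl (i + 1))) (mp piB b) := by
      rw [mp_mp, mp_mp, mp_mp, LinearMap.comp_assoc, gd_comp_odd i hi]
    rw [hb] at h2
    rw [h2, mp_rank, mp_id, mp_id]
  rw [h1, mul_add, vc_sq', add_zero]

private theorem gd_EE_even (i : ℕ) (hi : i % 2 = 0) (b : Fk) (hb : mp piB b = b) :
    mp (insM i) (mp (delM i) (ct (ph i) b)) = ct (ph i) b := by
  have hc := gd_bl_ct i hi b hb
  have h2 : mp (insM i) (mp (delM i) (mp piB (ct (ph i) b))) =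
      mp (LinearMap.id + (ph i).smulRight (dl (i + 2))) (mp piB (ct (ph i) b)) := by
    rw [mp_mp, mp_mp, mp_mp, LinearMap.comp_assoc, gd_comp_even i hi]
  rw [hc] at h2
  rw [h2, mp_rank, mp_id, mp_id, ct_ct, mul_zero, add_zero]

end Gd

/-- black letters preserve good elements -/
theorem thm_Gd : St_Gd := by
  refine ⟨?_, ?_, gd_int⟩
  · intro i τ b hb
    obtain ⟨h1, h2, h3⟩ := gd_int i b hb.int
    by_cases hi : i % 2 = 1
    · rw [if_pos hi, if_pos hi]
      refine ⟨⟨gd_neg hb.tau, ?_, ?_, h1⟩, ⟨hb.tau, ?_, ?_, h2⟩, ⟨gd_neg hb.tau, ?_, ?_, h3⟩, ?_⟩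
      · unfold xU
        rw [if_pos hi]
        exact gd_iv_vc τ _ _ (gd_iv_mp τ _ b hb.par)
      · unfold xU
        rw [if_pos hi]
        exact gd_bl_vc i hi _ (gd_bl _ (gd_pi_ins i) b hb.blk)
      · unfold xN
        rw [if_pos hi]
        exact gd_iv_mp τ _ b hb.par
      · unfold xN
        rw [if_pos hi]
        exact gd_bl _ (gd_pi_del i) b hb.blk
      · unfold xE
        rw [if_pos hi]
        exact gd_iv_vc τ _ b hb.par
      · unfold xE
        rw [if_pos hi]
        exact gd_bl_vc i hi b hb.blk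
      · unfold xU xN xE
        rw [if_pos hi, if_pos hi, if_pos hi]
        exact gd_EE_odd i hi b hb.blk
    · have hi' : i % 2 = 0 := by omega
      rw [if_neg hi, if_neg hi]
      refine ⟨⟨hb.tau, ?_, ?_, h1⟩, ⟨gd_neg hb.tau, ?_, ?_, h2⟩, ⟨gd_neg hb.tau, ?_, ?_, h3⟩, ?_⟩
      · unfold xU
        rw [if_neg hi]
        exact gd_iv_mp τ _ b hb.par
      · unfold xU
        rw [if_neg hi]
        exact gd_bl _ (gd_pi_ins i) b hb.blk
      · unfold xN
        rw [if_neg hi]
        exact gd_iv_mp (-τ) _ _ (gd_iv_ct τ _ b hb.par)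
      · unfold xN
        rw [if_neg hi]
        exact gd_bl _ (gd_pi_del i) _ (gd_bl_ct i hi' b hb.blk)
      · unfold xE
        rw [if_neg hi]
        exact gd_iv_ct τ _ b hb.par
      · unfold xE
        rw [if_neg hi]
        exact gd_bl_ct i hi' b hb.blk
      · unfold xU xN xE
        rw [if_neg hi, if_neg hi, if_neg hi]
        exact gd_EE_even i hi' b hb.blk
  · intro a w τ b hw hb
    unfold xR
    exact ⟨hb.tau, gd_iv_mp τ _ b hb.par, gd_bl _ (gd_pi_Rm a w hw) b hb.blk,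
      gd_Iz_Rm a w b hb.int⟩

end Pool.TWI
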