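import Pool.Agent.TWI.StO

/-!
# TWI [JR]: the intersection form is preserved by the reflection
-/

set_option autoImplicit false

namespace Pool.TWI

theorem jr_sum (S : Finset ℕ) (l : ℕ) :
    (∑ r ∈ S, (2 : ℂ) • dl r) l = if l ∈ S then 2 else 0 := by
  rw [Finsupp.finset_sum_apply]
  simp [dl, Finsupp.single_apply]

theorem jr_lm_single (f : ℕ → Gp) (j : ℕ) (c : ℂ) : lm f (Finsupp.single j c) = c • f j := by
  unfold lm
  rw [Finsupp.linearCombination_single]

theorem jr_dl (j l : ℕ) : dl j l = if l = j then 1 else 0 := by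
  unfold dl
  rw [Finsupp.single_apply]
  by_cases h : l = j
  · simp [h]
  · rw [if_neg h, if_neg (fun hh => h hh.symm)]

/-- the coordinates of the reflection -/
theorem jr_apply (a w : ℕ) (hw : w % 2 = 1) (g : Gp) (l : ℕ) : (Rm a w g) l =
    if a < l ∧ l < a + w then 2 * g (if l % 2 = a % 2 then a else a + w) - g l else g l := by
  induction g using Finsupp.induction_linear with
  | zero => simp
  | add g h hg hh =>
    rw [map_add, Finsupp.add_apply, hg, hh]
    split_ifs <;> simp only [Finsupp.add_apply] <;> ring
  | single j c =>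
    have hs : ∀ k : ℕ, (Finsupp.single j c : Gp) k = if k = j then c else 0 := by
      intro k
      rw [Finsupp.single_apply]
      by_cases h : k = j
      · simp [h]
      · rw [if_neg h, if_neg (fun hh => h hh.symm)]
    have e1 : ((if a < j ∧ j < a + w then -dl j else dl j +
        (if j = a then ∑ r ∈ (Finset.Ioo a (a + w)).filter (fun r => r % 2 = a % 2),
          (2 : ℂ) • dl r else 0) +
        (if j = a + w then ∑ r ∈ (Finset.Ioo a (a + w)).filter (fun r => r % 2 ≠ a % 2),
          (2 : ℂ) • dl r else 0) : Gp)) l =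
        (if a < j ∧ j < a + w then -(if l = j then (1 : ℂ) else 0) else (if l = j then 1 else 0) +
        (if j = a then (if (a < l ∧ l < a + w) ∧ l % 2 = a % 2 then 2 else 0) else 0) +
        (if j = a + w then (if (a < l ∧ l < a + w) ∧ l % 2 ≠ a % 2 then 2 else 0) else 0)) := by
      have e2 : ∀ (p : ℕ → Prop) [DecidablePred p],
          (∑ r ∈ (Finset.Ioo a (a + w)).filter p, (2 : ℂ) • dl r) l =
            if (a < l ∧ l < a + w) ∧ p l then 2 else 0 := by
        intro p _
        rw [jr_sum]
        simp only [Finset.mem_filter, Finset.mem_Ioo]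
      by_cases h1 : a < j ∧ j < a + w
      · rw [if_pos h1, if_pos h1, Finsupp.neg_apply, jr_dl]
      · rw [if_neg h1, if_neg h1, Finsupp.add_apply, Finsupp.add_apply, jr_dl]
        congr 1
        · congr 1
          by_cases h2 : j = a
          · rw [if_pos h2, if_pos h2, e2]
          · rw [if_neg h2, if_neg h2, Finsupp.zero_apply]
        · by_cases h2 : j = a + w
          · rw [if_pos h2, if_pos h2, e2]
          · rw [if_neg h2, if_neg h2, Finsupp.zero_apply]
    unfold Rm
    rw [jr_lm_single, Finsupp.smul_apply, e1, smul_eq_mul]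
    simp only [hs]
    by_cases hl : a < l ∧ l < a + w
    · by_cases hp : l % 2 = a % 2
      · simp only [hl, hp, and_self, ne_eq, not_true_eq_false, and_false, if_true, if_false]
        by_cases h1 : a < j ∧ j < a + w
        · have h2 : ¬ a = j := by omega
          simp [h1, h2]
        · have h2 : ¬ l = j := by
            intro h
            exact h1 (h ▸ hl)
          by_cases h3 : a = j
          · subst h3
            have h4 : ¬ l = a := by omega
            simp [h4]
            ring
          · have h5 : ¬ j = a := fun h => h3 h.symm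
            simp [h1, h2, h3, h5]
      · simp only [hl, hp, and_self, ne_eq, not_false_eq_true, and_false, if_true, if_false]
        by_cases h1 : a < j ∧ j < a + w
        · have h2 : ¬ a + w = j := by omega
          simp [h1, h2]
        · have h2 : ¬ l = j := by
            intro h
            exact h1 (h ▸ hl)
          by_cases h3 : a + w = j
          · subst h3
            have h4 : ¬ l = a + w := by omega
            have h5 : ¬ a + w = a := by omega
            simp [h4]
            ring
          · have h5 : ¬ j = a + w := fun h => h3 h.symm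
            simp [h1, h2, h3, h5]
    · have h6 : ¬ ((a < l ∧ l < a + w) ∧ l % 2 = a % 2) := fun h => hl h.1
      have h7 : ¬ ((a < l ∧ l < a + w) ∧ l % 2 ≠ a % 2) := fun h => hl h.1
      simp only [if_neg h6, if_neg h7, if_neg hl, ite_self, add_zero]
      by_cases h1 : a < j ∧ j < a + w
      · have h2 : ¬ l = j := by
          intro h
          exact hl (h ▸ h1)
        simp [h2]
      · simp [h1]

/-- the coordinates of the projection -/
theorem jr_piB (g : Gp) (l : ℕ) : (piB g) l = if l % 2 = 0 then g l else 0 := by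
  induction g using Finsupp.induction_linear with
  | zero => simp
  | add g h hg hh =>
    rw [map_add, Finsupp.add_apply, hg, hh]
    split_ifs <;> simp
  | single j c =>
    unfold piB
    rw [jr_lm_single, Finsupp.smul_apply, Finsupp.single_apply, smul_eq_mul]
    by_cases h : j = l
    · subst h
      by_cases h2 : j % 2 = 0
      · rw [if_pos h2, if_pos h2, jr_dl]
        simp
      · rw [if_neg h2, if_neg h2]
        simp
    · have h3 : ¬ l = j := fun hh => h hh.symm
      by_cases h2 : j % 2 = 0
      · rw [if_pos h2, jr_dl, if_neg h3, if_neg h]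
        simp
      · rw [if_neg h2, if_neg h]
        simp

/-- the value of the form on the left unit potentials -/
theorem jr_JJ (j : ℕ) (x : Gp) : JJ (dl j) x = (if j = 0 then 0 else x (j - 1)) - x (j + 1) := by
  unfold JJ dl
  rw [Finsupp.linearCombination_single, one_smul, LinearMap.sub_apply]
  by_cases h : j = 0
  · simp [h, gm]
  · simp [h, gm]

/-- the form is antisymmetric -/
theorem jr_anti (x y : Gp) : JJ x y = -JJ y x := by
  have h : JJ = -(JJ.flip) := by
    refine Finsupp.lhom_ext' fun j => LinearMap.ext_ring ?_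
    refine Finsupp.lhom_ext' fun l => LinearMap.ext_ring ?_
    change JJ (dl j) (dl l) = -(JJ (dl l) (dl j))
    rw [jr_JJ, jr_JJ, jr_dl, jr_dl, jr_dl, jr_dl]
    rcases Nat.eq_zero_or_pos j with hj | hj
    · subst hj
      rcases Nat.eq_zero_or_pos l with hl | hl
      · subst hl
        simp
      · have h1 : ¬ l = 0 := by omega
        have h2 : (0 + 1 = l) ↔ (l - 1 = 0) := by omega
        simp [h1, h2]
    · have h0 : ¬ j = 0 := by omega
      rcases Nat.eq_zero_or_pos l with hl | hl
      · subst hl
        have h2 : (0 + 1 = j) ↔ (0 = j - 1) := by omega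
        have h3 : (j - 1 = 0) ↔ (0 + 1 = j) := by omega
        simp [h0, h3]
      · have h1 : ¬ l = 0 := by omega
        have h2 : (j + 1 = l) ↔ (l - 1 = j) := by omega
        have h3 : (j - 1 = l) ↔ (l + 1 = j) := by omega
        simp only [h0, h1, h2, h3, if_false]
        ring
  have h2 := congrArg (fun f => f x y) h
  simpa using h2

/-- the coordinates of the images of the unit potentials -/
private def jr_E (a w k j : ℕ) : ℂ :=
  if a < k ∧ k < a + w then 2 * (if (if k % 2 = a % 2 then a else a + w) = j then (1 : ℂ) else 0) -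
    (if k = j then 1 else 0) else (if k = j then 1 else 0)

private theorem jr_E_in (a w k j : ℕ) (hw : w % 2 = 1) (h1 : a ≤ k) (h2 : k ≤ a + w) :
    jr_E a w k j = 2 * (if (if k % 2 = a % 2 then a else a + w) = j then (1 : ℂ) else 0) -
      (if k = j then 1 else 0) := by
  unfold jr_E
  by_cases h : a < k ∧ k < a + w
  · rw [if_pos h]
  · rw [if_neg h]
    rcases Nat.eq_or_lt_of_le h1 with h3 | h3
    · subst h3
      simp only [if_true]
      ring
    · have h4 : k = a + w := by omega
      subst h4
      have h5 : ¬ (a + w) % 2 = a % 2 := by omega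
      simp only [if_neg h5]
      ring

private theorem jr_E_out (a w k j : ℕ) (h : k ≤ a ∨ a + w ≤ k) :
    jr_E a w k j = if k = j then 1 else 0 := by
  unfold jr_E
  rw [if_neg (by omega)]

private def jr_F (a w l j : ℕ) : ℂ := (if l = 0 then 0 else jr_E a w (l - 1) j) - jr_E a w (l + 1) j

private theorem jr_F_out (a w l j : ℕ) (h : l < a ∨ a + w < l) :
    jr_F a w l j = (if l = j + 1 then (1 : ℂ) else 0) - (if j = l + 1 then 1 else 0) := by
  unfold jr_F
  rw [jr_E_out a w (l + 1) j (by omega)]
  have e : (j = l + 1) ↔ (l + 1 = j) := by omega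
  simp only [e]
  congr 1
  by_cases h0 : l = 0
  · rw [if_pos h0, if_neg (by omega)]
  · rw [if_neg h0, jr_E_out a w (l - 1) j (by omega)]
    have e2 : (l = j + 1) ↔ (l - 1 = j) := by omega
    simp only [e2]

private theorem jr_F_in (a w l j : ℕ) (hw : w % 2 = 1) (h : a < l ∧ l < a + w) :
    jr_F a w l j = (if j = l + 1 then (1 : ℂ) else 0) - (if l = j + 1 then 1 else 0) := by
  unfold jr_F
  rw [if_neg (by omega), jr_E_in a w (l + 1) j hw (by omega) (by omega),
    jr_E_in a w (l - 1) j hw (by omega) (by omega)]
  have e : (j = l + 1) ↔ (l + 1 = j) := by omega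
  have e2 : (l = j + 1) ↔ (l - 1 = j) := by omega
  have e3 : (l - 1) % 2 = a % 2 ↔ (l + 1) % 2 = a % 2 := by omega
  simp only [e, e2, e3]
  ring

private theorem jr_F_a (a w j : ℕ) (hw : w % 2 = 1) :
    jr_F a w a j = (if a = j + 1 then (1 : ℂ) else 0) + (if j = a + 1 then 1 else 0) -
      2 * (if j = a + w then 1 else 0) := by
  unfold jr_F
  rw [jr_E_in a w (a + 1) j hw (by omega) (by omega), if_neg (show ¬ (a + 1) % 2 = a % 2 by omega)]
  have e : (j = a + 1) ↔ (a + 1 = j) := by omega
  have e2 : (j = a + w) ↔ (a + w = j) := by omega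
  simp only [e, e2]
  by_cases h0 : a = 0
  · rw [if_pos h0, if_neg (show ¬ a = j + 1 by omega)]
    ring
  · rw [if_neg h0, jr_E_out a w (a - 1) j (by omega)]
    have e3 : (a = j + 1) ↔ (a - 1 = j) := by omega
    simp only [e3]
    ring

private theorem jr_F_b (a w j : ℕ) (hw : w % 2 = 1) :
    jr_F a w (a + w) j = 2 * (if j = a then (1 : ℂ) else 0) - (if a + w = j + 1 then 1 else 0) -
      (if j = a + w + 1 then 1 else 0) := by
  unfold jr_F
  rw [if_neg (by omega), jr_E_in a w (a + w - 1) j hw (by omega) (by omega),
    if_pos (show (a + w - 1) % 2 = a % 2 by omega), jr_E_out a w (a + w + 1) j (by omega)]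
  have e : (j = a) ↔ (a = j) := by omega
  have e2 : (a + w = j + 1) ↔ (a + w - 1 = j) := by omega
  have e3 : (j = a + w + 1) ↔ (a + w + 1 = j) := by omega
  simp only [e, e2, e3]

private theorem jr_F_anti (a w l j : ℕ) (hw : w % 2 = 1) : -jr_F a w l j = jr_F a w j l := by
  have hl : (l < a ∨ a + w < l) ∨ (a < l ∧ l < a + w) ∨ l = a ∨ l = a + w := by omega
  have hj : (j < a ∨ a + w < j) ∨ (a < j ∧ j < a + w) ∨ j = a ∨ j = a + w := by omega
  rcases hl with hl | hl | rfl | rfl <;> rcases hj with hj | hj | hj | hj
  · rw [jr_F_out a w l j hl, jr_F_out a w j l hj]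
    ring
  · rw [jr_F_out a w l j hl, jr_F_in a w j l hw hj, if_neg (show ¬ l = j + 1 by omega),
      if_neg (show ¬ j = l + 1 by omega)]
    simp
  · subst hj
    rw [jr_F_out j w l j hl, jr_F_a j w l hw, if_neg (show ¬ l = j + w by omega)]
    rcases hl with hl | hl
    · rw [if_neg (show ¬ l = j + 1 by omega)]
      ring
    · rw [if_neg (show ¬ l = j + 1 by omega), if_neg (show ¬ j = l + 1 by omega)]
      ring
  · subst hj
    rw [jr_F_out a w l (a + w) hl, jr_F_b a w l hw, if_neg (show ¬ l = a by omega)]
    rcases hl with hl | hl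
    · rw [if_neg (show ¬ l = a + w + 1 by omega), if_neg (show ¬ a + w = l + 1 by omega)]
      ring
    · rw [if_neg (show ¬ a + w = l + 1 by omega)]
      ring
  · rw [jr_F_in a w l j hw hl, jr_F_out a w j l hj, if_neg (show ¬ l = j + 1 by omega),
      if_neg (show ¬ j = l + 1 by omega)]
    simp
  · rw [jr_F_in a w l j hw hl, jr_F_in a w j l hw hj]
    ring
  · subst hj
    rw [jr_F_in j w l j hw hl, jr_F_a j w l hw, if_neg (show ¬ j = l + 1 by omega),
      if_neg (show ¬ l = j + w by omega)]
    ring
  · subst hj
    rw [jr_F_in a w l (a + w) hw hl, jr_F_b a w l hw, if_neg (show ¬ l = a + w + 1 by omega),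
      if_neg (show ¬ l = a by omega)]
    ring
  · rw [jr_F_a l w j hw, jr_F_out l w j l hj, if_neg (show ¬ j = l + w by omega)]
    rcases hj with hj | hj
    · rw [if_neg (show ¬ j = l + 1 by omega)]
      ring
    · rw [if_neg (show ¬ j = l + 1 by omega), if_neg (show ¬ l = j + 1 by omega)]
      ring
  · rw [jr_F_a l w j hw, jr_F_in l w j l hw hj, if_neg (show ¬ l = j + 1 by omega),
      if_neg (show ¬ j = l + w by omega)]
    ring
  · subst hj
    rw [jr_F_a j w j hw]
    rw [if_neg (show ¬ j = j + 1 by omega), if_neg (show ¬ j = j + w by omega)]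
    ring
  · subst hj
    rw [jr_F_a l w (l + w) hw, jr_F_b l w l hw, if_neg (show ¬ l = l + w + 1 by omega)]
    rw [if_pos (show l + w = l + w from rfl), if_pos (show l = l from rfl)]
    ring
  · rw [jr_F_b a w j hw, jr_F_out a w j (a + w) hj, if_neg (show ¬ j = a by omega)]
    rcases hj with hj | hj
    · rw [if_neg (show ¬ j = a + w + 1 by omega), if_neg (show ¬ a + w = j + 1 by omega)]
      ring
    · rw [if_neg (show ¬ a + w = j + 1 by omega)]
      ring
  · rw [jr_F_b a w j hw, jr_F_in a w j (a + w) hw hj, if_neg (show ¬ j = a by omega),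
      if_neg (show ¬ j = a + w + 1 by omega)]
    ring
  · subst hj
    rw [jr_F_b j w j hw, jr_F_a j w (j + w) hw]
    rw [if_pos rfl, if_neg (show ¬ j = j + w + 1 by omega), if_pos rfl]
    ring
  · subst hj
    rw [jr_F_b a w (a + w) hw]
    rw [if_neg (show ¬ a + w = a by omega), if_neg (show ¬ a + w = a + w + 1 by omega)]
    ring

theorem thm_JR : St_JR := by
  intro a w hw
  have hRR : ∀ x : Gp, Rm a w (Rm a w x) = x := by
    intro x
    ext l
    rw [jr_apply a w hw, jr_apply a w hw, jr_apply a w hw]
    by_cases hl : a < l ∧ l < a + w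
    · rw [if_pos hl, if_pos hl]
      by_cases hp : l % 2 = a % 2
      · rw [if_pos hp, if_neg (by omega)]
        ring
      · rw [if_neg hp, if_neg (by omega)]
        ring
    · rw [if_neg hl, if_neg hl]
  have hadj : ∀ c x : Gp, JJ (Rm a w c) x = JJ c (Rm a w x) := by
    have h : JJ ∘ₗ Rm a w = (JJ.flip ∘ₗ Rm a w).flip := by
      refine Finsupp.lhom_ext' fun j => LinearMap.ext_ring ?_
      refine Finsupp.lhom_ext' fun l => LinearMap.ext_ring ?_
      change JJ (Rm a w (dl j)) (dl l) = JJ (dl j) (Rm a w (dl l))
      rw [jr_anti, jr_JJ, jr_JJ]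
      simp only [jr_apply a w hw, jr_dl]
      exact jr_F_anti a w l j hw
    intro c x
    have h2 := congrArg (fun f => f c x) h
    simpa using h2
  refine ⟨fun c x => ?_, LinearMap.ext hRR, LinearMap.ext fun x => ?_⟩
  · rw [hadj, hRR]
  · rw [LinearMap.comp_apply, LinearMap.comp_apply]
    ext l
    rw [jr_piB, jr_apply a w hw, jr_apply a w hw]
    simp only [jr_piB]
    by_cases hl : a < l ∧ l < a + w
    · rw [if_pos hl, if_pos hl]
      by_cases hp : l % 2 = a % 2
      · rw [if_pos hp]
        by_cases h0 : l % 2 = 0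
        · have h1 : a % 2 = 0 := by omega
          simp [h0, h1]
        · have h1 : ¬ a % 2 = 0 := by omega
          simp only [if_neg h0, if_neg h1]
          ring
      · rw [if_neg hp]
        by_cases h0 : l % 2 = 0
        · have h1 : (a + w) % 2 = 0 := by omega
          simp [h0, h1]
        · have h1 : ¬ (a + w) % 2 = 0 := by omega
          simp only [if_neg h0, if_neg h1]
          ring
    · rw [if_neg hl, if_neg hl]

end Pool.TWI
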