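import Pool.Agent.TWI.StO

/-!
# TWI, T-B: the product of the matrices of a full twist
-/

set_option autoImplicit false

namespace Pool.TWI

section

/-- one crossing on functions -/
private noncomputable def mx_S (p : Bool) (i : ℕ) (h : ℕ → ℂ) : ℕ → ℂ := fun l =>
  if l = i + 1 then h l + (if p then h i - h (i + 2) else -(h i - h (i + 2))) else h l

private theorem mx_Mm (p : Bool) (i : ℕ) (g : Gp) : ⇑(Mm p i g) = mx_S p i ⇑g := by
  funext l
  unfold Mm mx_S
  rw [LinearMap.add_apply, LinearMap.smulRight_apply, LinearMap.id_apply, Finsupp.add_apply,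
    Finsupp.smul_apply, dl, Finsupp.single_apply, smul_eq_mul]
  have h1 : ph i g = g i - g (i + 2) := rfl
  cases p with
  | true =>
    simp only [if_true, h1]
    by_cases hl : l = i + 1
    · rw [if_pos hl, if_pos hl.symm, mul_one]
    · rw [if_neg hl, if_neg (Ne.symm hl), mul_zero, add_zero]
  | false =>
    simp only [Bool.false_eq_true, if_false, LinearMap.neg_apply, h1]
    by_cases hl : l = i + 1
    · rw [if_pos hl, if_pos hl.symm, mul_one]
    · rw [if_neg hl, if_neg (Ne.symm hl), mul_zero, add_zero]

private theorem mx_fold (p : Bool) (L : List ℕ) (F : Gp →ₗ[ℂ] Gp) (g : Gp) :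
    ⇑(L.foldl (fun (f : Gp →ₗ[ℂ] Gp) i => Mm p i ∘ₗ f) F g) =
      L.foldl (fun h i => mx_S p i h) ⇑(F g) := by
  induction L generalizing F with
  | nil => rfl
  | cons i L ih =>
    rw [List.foldl_cons, List.foldl_cons, ih, LinearMap.comp_apply, mx_Mm]

/-- conjugation by signs -/
private noncomputable def mx_T (h : ℕ → ℂ) : ℕ → ℂ := fun l => (-1) ^ l * h l

private theorem mx_TT (h : ℕ → ℂ) : mx_T (mx_T h) = h := by
  funext l
  unfold mx_T
  rw [← mul_assoc, ← pow_add, Even.neg_one_pow ⟨l, rfl⟩, one_mul]

private theorem mx_ST (i : ℕ) (h : ℕ → ℂ) : mx_S false i (mx_T h) = mx_T (mx_S true i h) := by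
  funext l
  unfold mx_S mx_T
  by_cases hl : l = i + 1
  · subst hl
    simp only [if_true, Bool.false_eq_true, if_false]
    ring
  · simp only [if_neg hl]

private theorem mx_fT (L : List ℕ) (h : ℕ → ℂ) : L.foldl (fun h i => mx_S false i h) (mx_T h) =
    mx_T (L.foldl (fun h i => mx_S true i h) h) := by
  induction L generalizing h with
  | nil => rfl
  | cons i L ih => rw [List.foldl_cons, List.foldl_cons, mx_ST, ih]

/-- one sweep -/
private theorem mx_sweep (a : ℕ) (h : ℕ → ℂ) (k : ℕ) :
    ((List.range k).map fun j => a + j).foldl (fun h i => mx_S true i h) h =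
      fun l => if a < l ∧ l ≤ a + k then h a + h (a + 1) - h (l + 1) else h l := by
  induction k with
  | zero =>
    funext l
    have : ¬ (a < l ∧ l ≤ a + 0) := by omega
    rw [if_neg this]
    rfl
  | succ k ih =>
    rw [List.range_succ, List.map_append, List.foldl_append, ih]
    funext l
    simp only [List.map_cons, List.map_nil, List.foldl_cons, List.foldl_nil]
    unfold mx_S
    beta_reduce
    by_cases hl : l = a + k + 1
    · subst hl
      have h1 : ¬ (a < a + k + 1 ∧ a + k + 1 ≤ a + k) := by omega
      have h2 : ¬ (a < a + k + 2 ∧ a + k + 2 ≤ a + k) := by omega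
      have h3 : a < a + k + 1 ∧ a + k + 1 ≤ a + (k + 1) := by omega
      rw [if_pos rfl, if_neg h1, if_neg h2, if_pos h3]
      rcases Nat.eq_zero_or_pos k with hk | hk
      · subst hk
        have h4 : ¬ (a < a + 0 ∧ a + 0 ≤ a + 0) := by omega
        rw [if_neg h4]
        simp only [add_zero, if_true]
        ring
      · have h4 : a < a + k ∧ a + k ≤ a + k := by omega
        rw [if_pos h4]
        simp only [if_true]
        ring
    · rw [if_neg hl]
      by_cases h1 : a < l ∧ l ≤ a + k
      · have h2 : a < l ∧ l ≤ a + (k + 1) := by omega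
        rw [if_pos h1, if_pos h2]
      · have h2 : ¬ (a < l ∧ l ≤ a + (k + 1)) := by omega
        rw [if_neg h1, if_neg h2]

/-- the extended values -/
private noncomputable def mx_E (a w : ℕ) (h : ℕ → ℂ) (t : ℕ) : ℂ :=
  if t ≤ w then h (a + t) else h (a + (t - w)) - (-1) ^ (t - w) * (h a - h (a + w))

/-- several sweeps -/
private theorem mx_sweeps (a w : ℕ) (hw : 0 < w) (h : ℕ → ℂ) (s : ℕ) (hs : s ≤ w) :
    ((List.replicate s ((List.range (w - 1)).map fun j => a + j)).flatten).foldl
      (fun h i => mx_S true i h) h =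
      fun l => if a < l ∧ l < a + w then (-1) ^ s * mx_E a w h (l - a + s) + h a -
        (-1) ^ s * h (a + s) else h l := by
  induction s with
  | zero =>
    funext l
    simp only [List.replicate_zero, List.flatten_nil, List.foldl_nil, pow_zero, one_mul, add_zero]
    split_ifs with h1
    · unfold mx_E
      rw [if_pos (by omega : l - a ≤ w)]
      have : a + (l - a) = l := by omega
      rw [this]
      ring
    · rfl
  | succ s ih =>
    rw [List.replicate_succ', List.flatten_append, List.flatten_singleton, List.foldl_append,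
      ih (by omega), mx_sweep]
    funext l
    by_cases h1 : a < l ∧ l < a + w
    · have h2 : a < l ∧ l ≤ a + (w - 1) := by omega
      have h3 : ¬ (a < a ∧ a < a + w) := by omega
      have h4 : a < a + 1 ∧ a + 1 < a + w := by omega
      rw [if_pos h2, if_pos h1, if_neg h3, if_pos h4]
      have e1 : mx_E a w h (a + 1 - a + s) = h (a + (s + 1)) := by
        unfold mx_E
        rw [if_pos (by omega)]
        congr 1
        omega
      have e2 : mx_E a w h (l + 1 - a + s) = mx_E a w h (l - a + (s + 1)) := by
        congr 1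
        omega
      rw [e1]
      by_cases h5 : l + 1 < a + w
      · have h6 : a < l + 1 ∧ l + 1 < a + w := by omega
        rw [if_pos h6, e2]
        ring
      · have h6 : ¬ (a < l + 1 ∧ l + 1 < a + w) := by omega
        rw [if_neg h6]
        have h7 : l + 1 = a + w := by omega
        rw [h7]
        have e3 : mx_E a w h (l - a + (s + 1)) =
            h (a + s) - (-1) ^ s * (h a - h (a + w)) := by
          unfold mx_E
          rcases Nat.eq_zero_or_pos s with hs0 | hs0
          · subst hs0
            rw [if_pos (by omega)]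
            have : a + (l - a + (0 + 1)) = a + w := by omega
            rw [this]
            simp
          · rw [if_neg (by omega)]
            have : l - a + (s + 1) - w = s := by omega
            rw [this]
        rw [e3]
        have e4 : ((-1 : ℂ)) ^ s * (-1) ^ s = 1 := by
          rw [← pow_add, Even.neg_one_pow ⟨s, rfl⟩]
        rw [pow_succ]
        linear_combination (h (a + w) - h a) * e4
    · have h2 : ¬ (a < l ∧ l ≤ a + (w - 1)) := by omega
      rw [if_neg h1, if_neg h2, if_neg h1]

/-- the result of a full twist -/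
private noncomputable def mx_Q (a w : ℕ) (h : ℕ → ℂ) : ℕ → ℂ := fun l =>
  if a < l ∧ l < a + w then (if (l - a) % 2 = 0 then 2 * h a else 2 * h (a + w)) - h l else h l

private theorem mx_full (a w : ℕ) (hw : w % 2 = 1) (h : ℕ → ℂ) :
    ((List.replicate w ((List.range (w - 1)).map fun j => a + j)).flatten).foldl
      (fun h i => mx_S true i h) h = mx_Q a w h := by
  rw [mx_sweeps a w (by omega) h w le_rfl]
  funext l
  unfold mx_Q
  by_cases h1 : a < l ∧ l < a + w
  · rw [if_pos h1, if_pos h1]
    unfold mx_E
    rw [if_neg (by omega)]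
    have e1 : l - a + w - w = l - a := by omega
    have e2 : a + (l - a) = l := by omega
    rw [e1, e2, Odd.neg_one_pow (Nat.odd_iff.2 hw)]
    split_ifs with h2
    · rw [Even.neg_one_pow (Nat.even_iff.2 h2)]
      ring
    · rw [Odd.neg_one_pow (Nat.odd_iff.2 (by omega))]
      ring
  · rw [if_neg h1, if_neg h1]

private theorem mx_QT (a w : ℕ) (hw : w % 2 = 1) (h : ℕ → ℂ) :
    mx_T (mx_Q a w (mx_T h)) = mx_Q a w h := by
  funext l
  unfold mx_T mx_Q
  have hl : ((-1 : ℂ)) ^ l * (-1) ^ l = 1 := by
    rw [← pow_add, Even.neg_one_pow ⟨l, rfl⟩]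
  by_cases h1 : a < l ∧ l < a + w
  · rw [if_pos h1, if_pos h1]
    split_ifs with h2
    · have e1 : ((-1 : ℂ)) ^ l * (-1) ^ a = 1 := by
        rw [← pow_add, Even.neg_one_pow (Nat.even_iff.2 (by omega))]
      linear_combination 2 * h a * e1 - h l * hl
    · have e1 : ((-1 : ℂ)) ^ l * (-1) ^ (a + w) = 1 := by
        rw [← pow_add, Even.neg_one_pow (Nat.even_iff.2 (by omega))]
      linear_combination 2 * h (a + w) * e1 - h l * hl
  · rw [if_neg h1, if_neg h1]
    linear_combination h l * hl

private theorem mx_all (p : Bool) (a w : ℕ) (hw : w % 2 = 1) (h : ℕ → ℂ) :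
    ((List.replicate w ((List.range (w - 1)).map fun j => a + j)).flatten).foldl
      (fun h i => mx_S p i h) h = mx_Q a w h := by
  cases p with
  | true => exact mx_full a w hw h
  | false =>
    conv_lhs => rw [← mx_TT h]
    rw [mx_fT, mx_full a w hw, mx_QT a w hw]

private theorem mx_Rm (a w : ℕ) (hw : w % 2 = 1) (j : ℕ) :
    ⇑(Rm a w (dl j)) = mx_Q a w ⇑(dl j) := by
  funext l
  have h0 : Rm a w (dl j) = if a < j ∧ j < a + w then -dl j else dl j +
    (if j = a then ∑ r ∈ (Finset.Ioo a (a + w)).filter (fun r => r % 2 = a % 2), (2 : ℂ) • dl r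
      else 0) +
    (if j = a + w then ∑ r ∈ (Finset.Ioo a (a + w)).filter (fun r => r % 2 ≠ a % 2),
      (2 : ℂ) • dl r else 0) := by
    unfold Rm lm
    conv_lhs => rw [dl]
    rw [Finsupp.linearCombination_single, one_smul]
  have hd : ∀ m n : ℕ, dl m n = if m = n then (1 : ℂ) else 0 := fun m n => by
    unfold dl
    rw [Finsupp.single_apply]
  have hs : ∀ (q : ℕ → Prop) [DecidablePred q], (∑ r ∈ (Finset.Ioo a (a + w)).filter q,
      (2 : ℂ) • dl r) l = if (a < l ∧ l < a + w) ∧ q l then 2 else 0 := by
    intro q _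
    rw [Finsupp.finsetSum_apply]
    have h1 : ∀ r, ((2 : ℂ) • dl r) l = if r = l then 2 else 0 := by
      intro r
      rw [Finsupp.smul_apply, hd, smul_eq_mul]
      split_ifs
      · rw [mul_one]
      · rw [mul_zero]
    simp only [h1]
    rw [Finset.sum_ite_eq']
    simp only [Finset.mem_filter, Finset.mem_Ioo]
  rw [h0]
  unfold mx_Q
  by_cases hj : a < j ∧ j < a + w
  · rw [if_pos hj, Finsupp.neg_apply, hd, hd, hd, if_neg (by omega : ¬ j = a),
      if_neg (by omega : ¬ j = a + w)]
    by_cases hl : a < l ∧ l < a + w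
    · rw [if_pos hl]
      simp
    · rw [if_neg hl, if_neg (by rintro rfl; exact hl hj), neg_zero]
  · rw [if_neg hj, Finsupp.add_apply, Finsupp.add_apply, hd, hd, hd]
    have e1 : (if j = a then ∑ r ∈ (Finset.Ioo a (a + w)).filter (fun r => r % 2 = a % 2),
        (2 : ℂ) • dl r else 0) l = if j = a ∧ (a < l ∧ l < a + w) ∧ l % 2 = a % 2 then
        (2 : ℂ) else 0 := by
      by_cases h1 : j = a
      · rw [if_pos h1, hs]
        simp only [h1, true_and]
      · rw [if_neg h1, if_neg (fun h => h1 h.1)]
        rfl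
    have e2 : (if j = a + w then ∑ r ∈ (Finset.Ioo a (a + w)).filter (fun r => r % 2 ≠ a % 2),
        (2 : ℂ) • dl r else 0) l = if j = a + w ∧ (a < l ∧ l < a + w) ∧ l % 2 ≠ a % 2 then
        (2 : ℂ) else 0 := by
      by_cases h1 : j = a + w
      · rw [if_pos h1, hs]
        simp only [h1, true_and]
      · rw [if_neg h1, if_neg (fun h => h1 h.1)]
        rfl
    rw [e1, e2]
    by_cases hl : a < l ∧ l < a + w
    · rw [if_pos hl, if_neg (by rintro rfl; exact hj hl)]
      by_cases h2 : (l - a) % 2 = 0
      · rw [if_pos h2, if_neg (by omega : ¬ (j = a + w ∧ (a < l ∧ l < a + w) ∧ l % 2 ≠ a % 2))]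
        by_cases h3 : j = a
        · rw [if_pos (by omega), if_pos h3]
          ring
        · rw [if_neg (by omega), if_neg h3]
          ring
      · rw [if_neg h2, if_neg (by omega : ¬ (j = a ∧ (a < l ∧ l < a + w) ∧ l % 2 = a % 2))]
        by_cases h3 : j = a + w
        · rw [if_pos (by omega), if_pos h3]
          ring
        · rw [if_neg (by omega), if_neg h3]
          ring
    · have f1 : ¬ (j = a ∧ (a < l ∧ l < a + w) ∧ l % 2 = a % 2) := fun h => hl h.2.1
      have f2 : ¬ (j = a + w ∧ (a < l ∧ l < a + w) ∧ l % 2 ≠ a % 2) := fun h => hl h.2.1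
      rw [if_neg hl, if_neg f1, if_neg f2, add_zero, add_zero]

end

theorem thm_Mx : St_Mx := by
  intro p a w hw
  have key : ∀ j, ((List.replicate w ((List.range (w - 1)).map fun j => a + j)).flatten).foldl
      (fun (f : Gp →ₗ[ℂ] Gp) i => Mm p i ∘ₗ f) LinearMap.id (dl j) = Rm a w (dl j) := by
    intro j
    apply DFunLike.coe_injective
    rw [mx_fold, mx_all p a w hw, mx_Rm a w hw]
    rfl
  exact Finsupp.lhom_ext' fun j => LinearMap.ext_ring (key j)

end Pool.TWI
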