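import Pool.Agent.TWI.StO

set_option autoImplicit false

namespace Pool.TWI

open Pool.Agent.ARB
open Pool.Agent.Helper2 (Slice bracket evalAt loopVal states curves)

/-! ### words -/

theorem odd_Ok_add (D : Word) : ∀ n m : ℕ, Ok D n m → Ok D (n + 2) (m + 2) := by
  induction D with
  | nil =>
    intro n m h
    have h' : n = m := h
    change n + 2 = m + 2
    rw [h']
  | cons s D ih =>
    intro n m h
    refine ⟨?_, ?_⟩
    · have := h.1
      omega
    · have h1 := h.1
      have h2 := ih _ _ h.2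
      have h3 : n + 2 - s.k.inn + s.k.out = n - s.k.inn + s.k.out + 2 := by omega
      rw [h3]
      exact h2

theorem odd_Tw_add (n : ℕ) (D K : Word) (h : Tw n D K) : Tw (n + 2) D K := by
  induction h with
  | nil n => exact Tw.nil _
  | @pc n D K s h _ ih =>
    refine Tw.pc s (by omega) ?_
    have h3 : n + 2 - s.k.inn + s.k.out = n - s.k.inn + s.k.out + 2 := by omega
    rw [h3]
    exact ih
  | @tw n D K a w k h hw _ ih =>
    exact Tw.tw a w k (by omega) hw ih

theorem odd_Ok_append (u : Word) : ∀ (v : Word) (n k m : ℕ), Ok u n k → Ok v k m →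
    Ok (u ++ v) n m := by
  induction u with
  | nil =>
    intro v n k m h h'
    have e : n = k := h
    rw [e]
    exact h'
  | cons s u ih =>
    intro v n k m h h'
    exact ⟨h.1, ih v _ k m h.2 h'⟩

theorem odd_Ok_cross (l : List Piece) (n : ℕ)
    (h : ∀ s ∈ l, ∃ (i : ℕ) (p : Bool), s = pX i p ∧ i + 2 ≤ n) : Ok l n n := by
  induction l with
  | nil => exact rfl
  | cons s l ih =>
    obtain ⟨i, p, rfl, hi⟩ := h s List.mem_cons_self
    refine ⟨hi, ?_⟩
    have h3 : n - (pX i p).k.inn + (pX i p).k.out = n := by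
      change n - 2 + 2 = n
      omega
    rw [h3]
    exact ih fun s hs => h s (List.mem_cons_of_mem _ hs)

theorem odd_Ok_FT (a w : ℕ) (k : ℤ) (n : ℕ) (h : a + w ≤ n) : Ok (FT a w k) n n := by
  refine odd_Ok_cross _ n fun s hs => ?_
  unfold FT at hs
  rw [List.mem_flatten] at hs
  obtain ⟨l, hl, hs⟩ := hs
  have := List.eq_of_mem_replicate hl
  subst this
  unfold sweep at hs
  rw [List.mem_map] at hs
  obtain ⟨j, hj, rfl⟩ := hs
  rw [List.mem_range] at hj
  exact ⟨a + j, _, rfl, by omega⟩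

theorem Odd_Ok_Tw (n : ℕ) (D K : Word) (h : Tw n D K) : ∀ m : ℕ, Ok D n m → Ok K n m := by
  induction h with
  | nil n => intro m h; exact h
  | @pc n D K s h _ ih => intro m h'; exact ⟨h'.1, ih m h'.2⟩
  | @tw n D K a w k h hw _ ih =>
    intro m h'
    exact odd_Ok_append _ _ n n m (odd_Ok_FT a w k n h) (ih m h')

theorem odd_smth_Ok (D : Word) : ∀ (n m : ℕ) (v : Word), Ok D n m → v ∈ smth D →
    Ok v n m := by
  induction D with
  | nil =>
    intro n m v h hv
    unfold smth at hv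
    rw [List.mem_singleton] at hv
    rw [hv]
    exact h
  | cons s D ih =>
    intro n m v h hv
    obtain ⟨k, i⟩ := s
    cases k with
    | U =>
      unfold smth at hv
      obtain ⟨u, hu, rfl⟩ := List.mem_map.1 hv
      exact ⟨h.1, ih _ m u h.2 hu⟩
    | N =>
      unfold smth at hv
      obtain ⟨u, hu, rfl⟩ := List.mem_map.1 hv
      exact ⟨h.1, ih _ m u h.2 hu⟩
    | X p =>
      unfold smth at hv
      obtain ⟨u, hu, hv⟩ := List.mem_flatMap.1 hv
      have h1 : i + 2 ≤ n := h.1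
      have h2 : Ok D (n - 2 + 2) m := h.2
      rw [Nat.sub_add_cancel (by omega)] at h2
      have h3 := ih n m u h2 hu
      rcases List.mem_cons.1 hv with rfl | hv
      · exact h3
      · rw [List.mem_singleton] at hv
        rw [hv]
        refine ⟨h1, ?_⟩
        change i + 0 ≤ n - 2 + 0 ∧ Ok u (n - 2 + 0 - 0 + 2) m
        refine ⟨by omega, ?_⟩
        have : n - 2 + 0 - 0 + 2 = n := by omega
        rw [this]
        exact h3

/-! ### the bracket of a word without crossings -/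

theorem odd_states (v : Word) (h : ∀ (i : ℕ) (p : Bool), pX i p ∉ v) :
    states (unW v) = [(0, unW v)] := by
  induction v with
  | nil => rfl
  | cons s v ih =>
    have h1 := ih fun i p hp => h i p (List.mem_cons_of_mem _ hp)
    obtain ⟨k, i⟩ := s
    cases k with
    | U =>
      change (states (unW v)).map _ = _
      rw [h1]
      rfl
    | N =>
      change (states (unW v)).map _ = _
      rw [h1]
      rfl
    | X p => exact absurd List.mem_cons_self (h i p)

theorem odd_loop (z : ℂˣ) (hz : (z : ℂ) ^ 2 = Complex.I) : evalAt z loopVal = 0 := by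
  unfold evalAt loopVal
  rw [map_neg, map_add, LaurentPolynomial.eval₂_T, LaurentPolynomial.eval₂_T]
  have h1 : ((z ^ (2 : ℤ) : ℂˣ) : ℂ) = Complex.I := by
    rw [← hz]
    norm_cast
  have h2 : ((z ^ (-2 : ℤ) : ℂˣ) : ℂ) = -Complex.I := by
    rw [zpow_neg, Units.val_inv_eq_inv_val, h1, Complex.inv_I]
  rw [h1, h2]
  ring

theorem odd_bracket (z : ℂˣ) (hz : (z : ℂ) ^ 2 = Complex.I) (v : Word)
    (h : ∀ (i : ℕ) (p : Bool), pX i p ∉ v) :
    evalAt z (bracket (unW v)) = 0 ∨ evalAt z (bracket (unW v)) = 1 := by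
  unfold bracket
  rw [odd_states v h, List.map_singleton, List.sum_singleton, LaurentPolynomial.T_zero, one_mul,
    map_pow, odd_loop z hz]
  rcases Nat.eq_zero_or_pos (curves (unW v) - 1) with h1 | h1
  · right
    rw [h1, pow_zero]
  · left
    exact zero_pow (Nat.pos_iff_ne_zero.1 h1)

/-! ### the operators on sums of squares -/

theorem odd_stp_U (i : ℕ) (hi : i % 2 = 1) (τ : ℤ) (b : Fk) :
    stp (pU i) [(τ, b)] = [(-τ, xU i b)] := by
  unfold stp
  rw [List.map_singleton, if_pos hi]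

theorem odd_gd_stp (hG : St_Gd) (s : Piece) (L : List (ℤ × Fk)) (h : GdL L) :
    GdL (stp s L) := by
  obtain ⟨k, i⟩ := s
  cases k with
  | U =>
    intro q hq
    change q ∈ L.map _ at hq
    rw [List.mem_map] at hq
    obtain ⟨q0, h0, rfl⟩ := hq
    exact (hG.1 i q0.1 q0.2 (h q0 h0)).1
  | N =>
    intro q hq
    change q ∈ L.map _ at hq
    rw [List.mem_map] at hq
    obtain ⟨q0, h0, rfl⟩ := hq
    exact (hG.1 i q0.1 q0.2 (h q0 h0)).2.1
  | X p =>
    intro q hq
    change q ∈ L.flatMap _ at hq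
    rw [List.mem_flatMap] at hq
    obtain ⟨q0, h0, hq⟩ := hq
    rcases List.mem_cons.1 hq with rfl | hq
    · exact h q h0
    · rw [List.mem_singleton] at hq
      rw [hq]
      exact (hG.1 i q0.1 q0.2 (h q0 h0)).2.2.1

/-- a word without blocks -/
theorem odd_self (hStp : St_Stp) (hG : St_Gd) (z : ℂˣ) (hz : (z : ℂ) ^ 2 = Complex.I)
    (e : Bool) (D : Word) : ∀ (n m : ℕ) (L : List (ℤ × Fk)), Ok D n m → n % 2 = 0 →
      (∀ (p : Bool) (i : ℕ), pX i p ∈ D → (p = e ↔ i % 2 = 0)) → GdL L →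
      ∃ κ : ℂ, ‖κ‖ = 1 ∧ GdL (D.foldl (fun l s => stp s l) L) ∧
        runU z D (sm e n L) = κ • sm e m (D.foldl (fun l s => stp s l) L) := by
  induction D with
  | nil =>
    intro n m L h _ _ hL
    have h' : n = m := h
    subst h'
    exact ⟨1, norm_one, hL, by rw [one_smul]; rfl⟩
  | cons s D ih =>
    intro n m L hok hn hal hL
    have hn' : (n - s.k.inn + s.k.out) % 2 = 0 := by
      have h1 : s.k.inn % 2 = 0 ∧ s.k.out % 2 = 0 := by
        cases s.k <;> simp [Kind.inn, Kind.out]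
      have h2 := hok.1
      omega
    have hcr : ∀ p, s.k = .X p → (p = e ↔ s.i % 2 = 0) := by
      intro p hp
      apply hal p s.i
      have : s = pX s.i p := by
        cases s
        simp only at hp
        rw [hp]
      rw [← this]
      exact List.mem_cons_self
    obtain ⟨κ, hκ, h1⟩ := hStp z hz e n s L hn hok.1 hL hcr
    obtain ⟨κ', hκ', h2, h3⟩ := ih _ m (stp s L) hok.2 hn'
      (fun p i hp => hal p i (List.mem_cons_of_mem _ hp)) (odd_gd_stp hG s L hL)
    refine ⟨κ * κ', by rw [norm_mul, hκ, hκ', one_mul], h2, ?_⟩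
    change runU z D (opU z s (sm e n L)) = _
    rw [h1, map_smul, h3, smul_smul]
    rfl

/-! ### scalar parts -/

theorem odd_Th1 : Th 2 1 = vc (dl 1) := by
  unfold Th
  rw [rv_one, one_mul, KK_one]
  unfold Om
  simp

theorem odd_init (e : Bool) : sm e 2 [((1 : ℤ), (1 : Fk))] = vc (dl 1) := by
  unfold sm
  rw [List.map_singleton, List.sum_singleton, odd_Th1]
  cases e <;> simp

theorem odd_gd1 : GdL [((1 : ℤ), (1 : Fk))] := by
  intro q hq
  rw [List.mem_singleton] at hq
  rw [hq]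
  exact ⟨Or.inl rfl, by rw [iv_one]; simp, mp_one _, Iz.one_mem⟩

theorem odd_dl1 : ep (ct (gm 1) (vc (dl 1) : Fk)) = 1 := by
  have h2 := ct_mul (gm 1) (dl 1) 1
  rw [mul_one, ct_one, mul_zero, sub_zero] at h2
  have h3 : gm 1 (dl 1) = 1 := by
    unfold gm dl
    rw [Finsupp.lapply_apply, Finsupp.single_apply, if_pos rfl]
  rw [h2, h3, one_smul, ep_one]

/-- the scalar part of a sum of squares -/
theorem odd_ep (hE : St_Ep) (e : Bool) (L : List (ℤ × Fk)) (hL : GdL L) :
    ep (ct (gm 1) (sm e 2 L)) = (L.map fun q => ep q.2 ^ 2).sum := by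
  induction L with
  | nil =>
    change ep (ct (gm 1) (0 : Fk)) = 0
    rw [map_zero, map_zero]
  | cons q L ih =>
    have h0 : sm e 2 (q :: L) = (if e then (q.1 : ℂ) else 1) • Th 2 q.2 + sm e 2 L := by
      unfold sm
      rw [List.map_cons, List.sum_cons]
    have hq := hL q List.mem_cons_self
    rw [h0, map_add, map_add, map_smul, map_smul, hE q.2 hq.blk,
      ih fun q hq => hL q (List.mem_cons_of_mem _ hq), List.map_cons, List.sum_cons]
    congr 1
    rw [smul_eq_mul]
    cases e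
    · simp
    · have h1 : ep q.2 = (q.1 : ℂ) * ep q.2 := by
        have h2 := congrArg ep hq.par
        rw [ep_iv, map_smul, smul_eq_mul] at h2
        exact h2
      rw [if_pos rfl]
      rcases hq.tau with h3 | h3
      · rw [h3]; simp
      · rw [h3] at h1
        have h4 : ep q.2 = 0 := by
          push_cast at h1
          linear_combination h1 / 2
        rw [h4]; ring

theorem odd_sum_real (L : List (ℤ × Fk)) (h : ∀ q ∈ L, ∃ m : ℤ, ep q.2 = (m : ℂ)) :
    (L.map fun q => ep q.2 ^ 2).sum = (((L.map fun q => ‖ep q.2‖ ^ 2).sum : ℝ) : ℂ) := by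
  induction L with
  | nil => simp
  | cons q L ih =>
    rw [List.map_cons, List.sum_cons, List.map_cons, List.sum_cons,
      ih fun q hq => h q (List.mem_cons_of_mem _ hq)]
    obtain ⟨m, hm⟩ := h q List.mem_cons_self
    rw [hm, Complex.norm_intCast]
    push_cast
    congr 1
    norm_cast
    rw [sq_abs]

theorem odd_sum_nonneg (L : List (ℤ × Fk)) : 0 ≤ (L.map fun q => ‖ep q.2‖ ^ 2).sum := by
  apply List.sum_nonneg
  intro x hx
  rw [List.mem_map] at hx
  obtain ⟨q, _, rfl⟩ := hx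
  positivity

/-- the value of the bracket -/
theorem odd_value (hRun : St_Run) (hE : St_Ep) (hC : St_Cg) (z : ℂˣ)
    (hz : (z : ℂ) ^ 2 = Complex.I) (e : Bool) (D' : Word) (hok : Ok D' 2 0) (κ : ℂ)
    (hκ : ‖κ‖ = 1) (M : List (ℤ × Fk)) (hM : GdL M)
    (h : runU z (pU 1 :: D') (vc (dl 1)) = κ • sm e 2 M) :
    ‖evalAt z (bracket (unW (pU 0 :: D')))‖ = (M.map fun q => ‖ep q.2‖ ^ 2).sum := by
  have h1 := hRun z hz D' hok
  rw [h] at h1
  have h2 := congrArg (fun x => ep (ct (gm 1) x)) h1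
  simp only [map_smul] at h2
  rw [odd_dl1, odd_ep hE e M hM, smul_eq_mul, smul_eq_mul, mul_one,
    odd_sum_real M fun q hq => hC.2 q.2 (hM q hq).int] at h2
  rw [← h2, norm_mul, hκ, one_mul, Complex.norm_real, Real.norm_eq_abs,
    abs_of_nonneg (odd_sum_nonneg M)]

theorem odd_le (hC : St_Cg) (M M' : List (ℤ × Fk)) (h : CgL M M') (hM : GdL M)
    (h01 : ∀ q ∈ M, ‖ep q.2‖ ^ 2 = 0 ∨ ‖ep q.2‖ ^ 2 = 1) :
    ∃ a j : ℕ, (M.map fun q => ‖ep q.2‖ ^ 2).sum = a ∧
      (M'.map fun q => ‖ep q.2‖ ^ 2).sum = a + 4 * j := by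
  unfold CgL at h
  induction h with
  | nil => exact ⟨0, 0, by simp, by simp⟩
  | @cons q q' l l' hq hl ih =>
    obtain ⟨a, j, h1, h2⟩ := ih (fun q hq => hM q (List.mem_cons_of_mem _ hq))
      fun q hq => h01 q (List.mem_cons_of_mem _ hq)
    rw [List.map_cons, List.sum_cons, List.map_cons, List.sum_cons, h1, h2]
    obtain ⟨_, c, hc, h2⟩ := hq
    obtain ⟨m, hm⟩ := hC.2 q.2 (hM q List.mem_cons_self).int
    obtain ⟨k, hk⟩ := hC.2 c hc
    have h3 : ep q'.2 = ((m + 2 * k : ℤ) : ℂ) := by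
      rw [h2, map_add, ep_mul, hm, hk]
      have : ep (2 : Fk) = 2 := map_ofNat _ 2
      rw [this]
      push_cast
      rfl
    have h4 := h01 q List.mem_cons_self
    rw [hm, Complex.norm_intCast, sq_abs] at h4
    rw [hm, h3, Complex.norm_intCast, Complex.norm_intCast, sq_abs, sq_abs]
    -- the integer `k * (m + k)` is not negative
    have h5 : 0 ≤ k * (m + k) := by
      have h6 : m ^ 2 = 0 ∨ m ^ 2 = 1 := by
        rcases h4 with h4 | h4
        · left; exact_mod_cast h4
        · right; exact_mod_cast h4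
      have h7 : m = 0 ∨ m = 1 ∨ m = -1 := by
        rcases h6 with h6 | h6
        · left
          exact pow_eq_zero_iff (two_ne_zero) |>.1 h6
        · right
          exact sq_eq_sq_iff_eq_or_eq_neg.1 (by rw [h6, one_pow])
      rcases h7 with h7 | h7 | h7
      · rw [h7, zero_add]
        exact mul_self_nonneg k
      · rw [h7]
        rcases le_or_gt 0 k with h8 | h8
        · exact mul_nonneg h8 (by omega)
        · exact mul_nonneg_of_nonpos_of_nonpos (by omega) (by omega)
      · rw [h7]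
        rcases le_or_gt 1 k with h8 | h8
        · exact mul_nonneg (by omega) (by omega)
        · exact mul_nonneg_of_nonpos_of_nonpos (by omega) (by omega)
    refine ⟨(m ^ 2).toNat + a, (k * (m + k)).toNat + j, ?_, ?_⟩
    · have h8 : (((m ^ 2).toNat : ℤ) : ℝ) = (m : ℝ) ^ 2 := by
        rw [Int.toNat_of_nonneg (sq_nonneg m)]
        push_cast
        rfl
      rw [← h8]
      push_cast
      rfl
    · have h8 : (((m ^ 2).toNat : ℤ) : ℝ) = (m : ℝ) ^ 2 := by
        rw [Int.toNat_of_nonneg (sq_nonneg m)]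
        push_cast
        rfl
      have h9 : (((k * (m + k)).toNat : ℤ) : ℝ) = (k : ℝ) * (m + k) := by
        rw [Int.toNat_of_nonneg h5]
        push_cast
        rfl
      have h10 : (((m ^ 2).toNat : ℕ) : ℝ) = (m : ℝ) ^ 2 := by exact_mod_cast h8
      have h11 : (((k * (m + k)).toNat : ℕ) : ℝ) = (k : ℝ) * (m + k) := by exact_mod_cast h9
      push_cast
      rw [h10, h11]
      ring

/-- the determinants: `|⟨K⟩| - |⟨D⟩|` is four times a natural number -/
theorem Odd_four (hRun : St_Run) (hE : St_Ep) (hSum : St_Sum) (hStp : St_Stp) (hS : St_Sts)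
    (hC : St_Cg) (hG : St_Gd) (z : ℂˣ) (hz : (z : ℂ) ^ 2 = Complex.I) (D K : Word) (hD : Alt D)
    (hne : D ≠ []) (hTw : Tw 0 D K) : ∃ a j : ℕ, ‖evalAt z (bracket (unW D))‖ = a ∧
      ‖evalAt z (bracket (unW K))‖ = a + 4 * j := by
  obtain ⟨e, hal⟩ := hD.alt
  have hok := hD.ok
  -- the first piece
  cases D with
  | nil => exact absurd rfl hne
  | cons s D' =>
    have hs : s = pU 0 := by
      have h1 := hok.1
      obtain ⟨k, i⟩ := s
      cases k with
      | U =>
        have h2 : i + 0 ≤ 0 := h1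
        have h3 : i = 0 := by omega
        rw [h3]
      | N =>
        have h2 : i + 2 ≤ 0 := h1
        omega
      | X p =>
        have h2 : i + 2 ≤ 0 := h1
        omega
    subst hs
    have hokD : Ok D' 2 0 := hok.2
    obtain ⟨K', rfl, hT2⟩ : ∃ K', K = pU 0 :: K' ∧ Tw 2 D' K' := by
      cases hTw with
      | pc s h hT => exact ⟨_, rfl, hT⟩
      | tw a w k h hw hT => omega
    have hokK : Ok K' 2 0 := Odd_Ok_Tw 2 D' K' hT2 0 hokD
    have hT4 : Tw 2 (pU 1 :: D') (pU 1 :: K') := by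
      refine Tw.pc (pU 1) (by decide) ?_
      exact odd_Tw_add 2 D' K' hT2
    have hok1 : Ok (pU 1 :: D') 2 2 := ⟨by decide, odd_Ok_add D' 2 0 hokD⟩
    have hal1 : ∀ (p : Bool) (i : ℕ), pX i p ∈ pU 1 :: D' → (p = e ↔ i % 2 = 0) := by
      intro p i hp
      rcases List.mem_cons.1 hp with hp | hp
      · exact absurd hp (by simp [pX, pU])
      · exact hal p i (List.mem_cons_of_mem _ hp)
    have hcg : CgL [((1 : ℤ), (1 : Fk))] [((1 : ℤ), (1 : Fk))] := by
      refine List.Forall₂.cons ⟨rfl, 0, Iz.zero_mem, ?_⟩ List.Forall₂.nil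
      rw [mul_zero, add_zero]
    obtain ⟨M', κ', hκ', g1, g2, g3, g4⟩ := hSum z hz e 2 2 (pU 1 :: D') (pU 1 :: K') hT4 hok1
      (by decide) hal1 [(1, 1)] [(1, 1)] odd_gd1 odd_gd1 hcg
    obtain ⟨κ, hκ, _, f2⟩ := odd_self hStp hG z hz e (pU 1 :: D') 2 2 [(1, 1)] hok1 (by decide)
      hal1 odd_gd1
    rw [odd_init] at g4 f2
    have vD := odd_value hRun hE hC z hz e D' hokD κ hκ _ g1 f2
    have vK := odd_value hRun hE hC z hz e K' hokK κ' hκ' _ g2 g4
    rw [vD, vK]
    refine odd_le hC _ M' g3 g1 ?_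
    -- the states
    intro q hq
    obtain ⟨v, hv, hvok, hvx, q', hq', hfold⟩ := hS (pU 1 :: D') 2 2 [(1, 1)] hok1 odd_gd1 q hq
    rw [List.mem_singleton] at hq'
    subst hq'
    have hv1 : ∃ u ∈ smth D', v = pU 1 :: u := by
      unfold smth at hv
      obtain ⟨u, hu, rfl⟩ := List.mem_map.1 hv
      exact ⟨u, hu, rfl⟩
    obtain ⟨u, hu, rfl⟩ := hv1
    have hoku : Ok u 2 0 := odd_smth_Ok D' 2 0 u hokD hu
    obtain ⟨κ2, hκ2, c1, c2⟩ := odd_self hStp hG z hz e (pU 1 :: u) 2 2 [(1, 1)] hvok (by decide)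
      (fun p i hp => absurd hp (hvx i p)) odd_gd1
    rw [odd_init, hfold] at c2
    rw [hfold] at c1
    have vu := odd_value hRun hE hC z hz e u hoku κ2 hκ2 [q] c1 c2
    rw [List.map_singleton, List.sum_singleton] at vu
    rw [← vu]
    have hx : ∀ (i : ℕ) (p : Bool), pX i p ∉ (pU 0 :: u : Word) := by
      intro i p hp
      rcases List.mem_cons.1 hp with hp | hp
      · exact absurd hp (by simp [pX, pU])
      · exact hvx i p (List.mem_cons_of_mem _ hp)
    rcases odd_bracket z hz (pU 0 :: u) hx with h1 | h1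
    · left
      rw [h1, norm_zero]
    · right
      rw [h1, norm_one]

theorem thm_Odd (hRun : St_Run) (hE : St_Ep) (hSum : St_Sum) (hStp : St_Stp) (hS : St_Sts)
    (hC : St_Cg) (hG : St_Gd) : St_Odd := by
  intro z hz D K hD hne hTw
  obtain ⟨a, j, h1, h2⟩ := Odd_four hRun hE hSum hStp hS hC hG z hz D K hD hne hTw
  rw [h1, h2]
  have : (0 : ℝ) ≤ 4 * j := by positivity
  linarith

end Pool.TWI
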