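import Pool.Agent.TWI.StO

/-!
# TWI, T-B: facts on the top form
-/

set_option autoImplicit false

namespace Pool.TWI

section Om

private theorem om_lm (f : ℕ → Gp) (j : ℕ) : lm f (dl j) = f j := by
  unfold lm dl
  rw [Finsupp.linearCombination_single, one_smul]

private theorem om_gm (j k : ℕ) : gm j (dl k) = if k = j then 1 else 0 := by
  unfold gm dl
  rw [Finsupp.lapply_apply, Finsupp.single_apply]

private theorem om_ph (i k : ℕ) :
    ph i (dl k) = (if k = i then 1 else 0) - (if k = i + 2 then 1 else 0) := by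
  unfold ph
  rw [LinearMap.sub_apply, om_gm, om_gm]

private theorem om_ext {X : Type} [AddCommGroup X] [Module ℂ X] {f g : Gp →ₗ[ℂ] X}
    (h : ∀ j, f (dl j) = g (dl j)) : f = g := by
  refine Finsupp.lhom_ext fun a b => ?_
  have h1 : Finsupp.single a b = b • dl a := by
    unfold dl
    rw [Finsupp.smul_single, smul_eq_mul, mul_one]
  rw [h1, map_smul, map_smul, h]

private theorem om_ins (i j : ℕ) : insM i (dl j) =
    if j < i then dl j else if j = i then dl i + dl (i + 2) else dl (j + 2) := by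
  unfold insM
  rw [om_lm]

private theorem om_piW (j : ℕ) : piW (dl j) = if j % 2 = 0 then 0 else dl j := by
  unfold piW
  rw [om_lm]

private theorem om_Rm (a w j : ℕ) : Rm a w (dl j) =
    if a < j ∧ j < a + w then -dl j else dl j +
    (if j = a then ∑ r ∈ (Finset.Ioo a (a + w)).filter (fun r => r % 2 = a % 2), (2 : ℂ) • dl r
      else 0) +
    (if j = a + w then ∑ r ∈ (Finset.Ioo a (a + w)).filter (fun r => r % 2 ≠ a % 2),
      (2 : ℂ) • dl r else 0) := by
  unfold Rm
  rw [om_lm]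

/-- the product of the first `m` odd unit potentials -/
private noncomputable def om_P (m : ℕ) : Fk :=
  ((List.range m).map fun r => vc (dl (2 * r + 1))).prod

private theorem om_P0 : om_P 0 = 1 := rfl

private theorem om_PS (m : ℕ) : om_P (m + 1) = om_P m * vc (dl (2 * m + 1)) := by
  unfold om_P
  rw [List.range_succ, List.map_append, List.prod_append, List.map_singleton,
    List.prod_singleton]

private theorem om_iv (m : ℕ) : ∃ σ : ℤ, (σ = 1 ∨ σ = -1) ∧ iv (om_P m) = (σ : ℂ) • om_P m := by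
  induction m with
  | zero =>
    refine ⟨1, Or.inl rfl, ?_⟩
    rw [om_P0, iv_one, Int.cast_one, one_smul]
  | succ m ih =>
    obtain ⟨σ, hσ, h⟩ := ih
    refine ⟨-σ, ?_, ?_⟩
    · rcases hσ with h | h
      · right
        rw [h]
      · left
        rw [h, neg_neg]
    · rw [om_PS, iv_mul, iv_vc, h, Int.cast_neg, neg_smul, mul_neg, smul_mul_assoc]

/-- (3) -/
private theorem om_mul_zero (m r : ℕ) (hr : r < m) : vc (dl (2 * r + 1)) * om_P m = 0 := by
  induction m with
  | zero => omega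
  | succ m ih =>
    rw [om_PS, ← mul_assoc]
    by_cases h : r < m
    · rw [ih h, zero_mul]
    · have h1 : r = m := by omega
      rw [h1, vc_mul, mul_assoc, vc_sq, mul_zero]

/-- maps which multiply the odd unit potentials by signs -/
private theorem om_sign (f : Gp →ₗ[ℂ] Gp)
    (hf : ∀ r, f (dl (2 * r + 1)) = dl (2 * r + 1) ∨ f (dl (2 * r + 1)) = -dl (2 * r + 1))
    (m : ℕ) : ∃ σ : ℤ, (σ = 1 ∨ σ = -1) ∧ mp f (om_P m) = (σ : ℂ) • om_P m := by
  induction m with
  | zero =>
    refine ⟨1, Or.inl rfl, ?_⟩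
    rw [om_P0, mp_one, Int.cast_one, one_smul]
  | succ m ih =>
    obtain ⟨σ, hσ, h⟩ := ih
    rcases hf m with h1 | h1
    · refine ⟨σ, hσ, ?_⟩
      rw [om_PS, mp_mul, mp_vc, h, h1, smul_mul_assoc]
    · refine ⟨-σ, ?_, ?_⟩
      · rcases hσ with h | h
        · right
          rw [h]
        · left
          rw [h, neg_neg]
      · rw [om_PS, mp_mul, mp_vc, h, h1, map_neg, smul_mul_assoc, mul_neg, Int.cast_neg, neg_smul,
          smul_neg]

/-- maps which fix the first odd unit potentials -/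
private theorem om_fix (f : Gp →ₗ[ℂ] Gp) (m : ℕ)
    (hf : ∀ r < m, f (dl (2 * r + 1)) = dl (2 * r + 1)) : mp f (om_P m) = om_P m := by
  induction m with
  | zero => rw [om_P0, mp_one]
  | succ m ih =>
    rw [om_PS, mp_mul, mp_vc, ih (fun r hr => hf r (by omega)), hf m (by omega)]

private theorem om_ct_zero (d : Module.Dual ℂ Gp) (m : ℕ)
    (hd : ∀ r < m, d (dl (2 * r + 1)) = 0) : ct d (om_P m) = 0 := by
  induction m with
  | zero => rw [om_P0, ct_one]
  | succ m ih =>
    have h1 : ct d (vc (dl (2 * m + 1))) = 0 := by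
      have h2 := ct_mul d (dl (2 * m + 1)) 1
      rw [mul_one, ct_one, mul_zero, sub_zero, hd m (by omega), zero_smul] at h2
      exact h2
    rw [om_PS, ct_prod, ih (fun r hr => hd r (by omega)), zero_mul, h1, mul_zero, add_zero]

private theorem om_ct_vc (d : Module.Dual ℂ Gp) (v : Gp) : ct d (vc v) = d v • (1 : Fk) := by
  have h2 := ct_mul d v 1
  rw [mul_one, ct_one, mul_zero, sub_zero] at h2
  exact h2

/-- (1) -/
private theorem om_one (k m : ℕ) (hk : k < m) : ∃ σ : ℤ, (σ = 1 ∨ σ = -1) ∧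
    ct (ph (2 * k + 1)) (om_P (m + 1)) = (σ : ℂ) • mp (insM (2 * k + 1)) (om_P m) := by
  obtain ⟨j, rfl⟩ : ∃ j, m = k + 1 + j := ⟨m - (k + 1), by omega⟩
  clear hk
  induction j with
  | zero =>
    obtain ⟨σ, hσ, h⟩ := om_iv k
    refine ⟨σ, hσ, ?_⟩
    have e1 : mp (insM (2 * k + 1)) (om_P k) = om_P k := by
      refine om_fix _ k fun r hr => ?_
      rw [om_ins, if_pos (by omega)]
    have e2 : insM (2 * k + 1) (dl (2 * k + 1)) = dl (2 * k + 1) + dl (2 * (k + 1) + 1) := by
      rw [om_ins, if_neg (lt_irrefl _), if_pos rfl]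
      congr 1
    have e3 : ct (ph (2 * k + 1)) (om_P k) = 0 := by
      refine om_ct_zero _ k fun r hr => ?_
      rw [om_ph, if_neg (by omega), if_neg (by omega), sub_zero]
    have e4 : ct (ph (2 * k + 1)) (vc (dl (2 * k + 1)) * vc (dl (2 * (k + 1) + 1))) =
        vc (dl (2 * k + 1) + dl (2 * (k + 1) + 1)) := by
      rw [ct_mul, om_ct_vc, om_ph, om_ph, if_pos rfl, if_neg (by omega), if_neg (by omega),
        if_pos (by omega), sub_zero, one_smul, zero_sub, neg_smul, one_smul, mul_neg, mul_one,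
        sub_neg_eq_add, map_add, add_comm]
    rw [add_zero, om_PS, om_PS, mp_mul, mp_vc, e1, e2, mul_assoc, ct_prod, e3, zero_mul, zero_add,
      e4, h, smul_mul_assoc]
  | succ j ih =>
    obtain ⟨σ, hσ, h⟩ := ih
    refine ⟨σ, hσ, ?_⟩
    have e1 : ct (ph (2 * k + 1)) (vc (dl (2 * (k + 1 + (j + 1)) + 1))) = 0 := by
      rw [om_ct_vc, om_ph, if_neg (by omega), if_neg (by omega), sub_zero, zero_smul]
    have e2 : insM (2 * k + 1) (dl (2 * (k + 1 + j) + 1)) = dl (2 * (k + 1 + (j + 1)) + 1) := by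
      rw [om_ins, if_neg (by omega), if_neg (by omega)]
      congr 1
    rw [om_PS (k + 1 + (j + 1)), ct_prod, e1, mul_zero, add_zero,
      show k + 1 + (j + 1) = k + 1 + j + 1 by omega, h, om_PS (k + 1 + j), mp_mul, mp_vc,
      smul_mul_assoc]
    rw [show k + 1 + (j + 1) = k + 1 + j + 1 by omega] at e2
    rw [e2]

/-- (2) -/
private theorem om_two (k m : ℕ) (hk : k ≤ m) : ∃ σ : ℤ, (σ = 1 ∨ σ = -1) ∧
    om_P (m + 1) = (σ : ℂ) • (vc (dl (2 * k + 1)) * mp (insM (2 * k)) (om_P m)) := by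
  obtain ⟨j, rfl⟩ : ∃ j, m = k + j := ⟨m - k, by omega⟩
  clear hk
  induction j with
  | zero =>
    obtain ⟨σ, hσ, h⟩ := om_iv k
    refine ⟨σ, hσ, ?_⟩
    have e1 : mp (insM (2 * k)) (om_P k) = om_P k := by
      refine om_fix _ k fun r hr => ?_
      rw [om_ins, if_pos (by omega)]
    rw [add_zero, om_PS, e1, ← vc_mul', h, mul_smul_comm]
  | succ j ih =>
    obtain ⟨σ, hσ, h⟩ := ih
    refine ⟨σ, hσ, ?_⟩
    have e2 : insM (2 * k) (dl (2 * (k + j) + 1)) = dl (2 * (k + j + 1) + 1) := by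
      rw [om_ins, if_neg (by omega), if_neg (by omega)]
      congr 1
    have e3 : mp (insM (2 * k)) (om_P (k + j + 1)) =
        mp (insM (2 * k)) (om_P (k + j)) * vc (dl (2 * (k + j + 1) + 1)) := by
      rw [om_PS, mp_mul, mp_vc, e2]
    rw [show k + (j + 1) = k + j + 1 by omega, e3, om_PS (k + j + 1), h, smul_mul_assoc,
      mul_assoc]

private theorem om_five (m : ℕ) : mp piW (om_P m) = om_P m := by
  refine om_fix _ m fun r _ => ?_
  rw [om_piW, if_neg (by omega)]

/-- the signs of the reflection -/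
private noncomputable def om_D (a w : ℕ) : Gp →ₗ[ℂ] Gp :=
  lm fun j => if a < j ∧ j < a + w then -dl j else dl j

private theorem om_D_dl (a w j : ℕ) :
    om_D a w (dl j) = if a < j ∧ j < a + w then -dl j else dl j := by
  unfold om_D
  rw [om_lm]

/-- the odd gaps in the interior -/
private def om_S (a w : ℕ) : Finset ℕ := (Finset.Ioo a (a + w)).filter fun r => r % 2 = 1

private theorem om_D_sum (a w : ℕ) :
    om_D a w (-∑ r ∈ om_S a w, (2 : ℂ) • dl r) = ∑ r ∈ om_S a w, (2 : ℂ) • dl r := by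
  rw [map_neg, map_sum, ← Finset.sum_neg_distrib]
  refine Finset.sum_congr rfl fun r hr => ?_
  rw [map_smul, om_D_dl, if_pos (Finset.mem_Ioo.1 (Finset.mem_filter.1 hr).1), smul_neg, neg_neg]

/-- (4) -/
private theorem om_four (m a w : ℕ) (hw : w % 2 = 1) (h : a + w ≤ 2 * m) :
    ∃ σ : ℤ, (σ = 1 ∨ σ = -1) ∧ mp (Rm a w) (om_P m) = (σ : ℂ) • om_P m := by
  obtain ⟨σ, hσ, hs⟩ := om_sign (om_D a w) (fun r => by
    rw [om_D_dl]
    split_ifs
    · exact Or.inr rfl
    · exact Or.inl rfl) m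
  refine ⟨σ, hσ, ?_⟩
  -- the white end gap
  obtain ⟨f, hf1, hf2⟩ : ∃ f, (f = a ∨ f = a + w) ∧ f % 2 = 1 := by
    by_cases ha : a % 2 = 1
    · exact ⟨a, Or.inl rfl, ha⟩
    · exact ⟨a + w, Or.inr rfl, by omega⟩
  have e1 : Rm a w ∘ₗ piW = om_D a w ∘ₗ
      (LinearMap.id + (gm f).smulRight (-∑ r ∈ om_S a w, (2 : ℂ) • dl r)) ∘ₗ piW := by
    refine om_ext fun j => ?_
    rw [LinearMap.comp_apply, LinearMap.comp_apply, LinearMap.comp_apply, om_piW]
    by_cases hj : j % 2 = 0
    · rw [if_pos hj, map_zero, map_zero, map_zero]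
    · rw [if_neg hj, LinearMap.add_apply, LinearMap.id_apply, LinearMap.smulRight_apply,
        om_gm, map_add, om_D_dl, om_Rm]
      by_cases h1 : a < j ∧ j < a + w
      · rw [if_pos h1, if_pos h1, if_neg (by omega), zero_smul, map_zero, add_zero]
      · rw [if_neg h1, if_neg h1]
        by_cases h2 : j = f
        · rw [if_pos h2, one_smul, om_D_sum]
          rcases hf1 with h3 | h3
          · rw [if_pos (h2.trans h3), if_neg (by omega), add_zero]
            congr 2
            unfold om_S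
            refine Finset.filter_congr fun r _ => ?_
            omega
          · rw [if_neg (by omega), if_pos (h2.trans h3), add_zero]
            congr 2
            unfold om_S
            refine Finset.filter_congr fun r _ => ?_
            omega
        · rw [if_neg h2, zero_smul, map_zero, if_neg (by omega), if_neg (by omega), add_zero]
  have e2 : mp (Rm a w) (om_P m) = mp (om_D a w)
      (mp (LinearMap.id + (gm f).smulRight (-∑ r ∈ om_S a w, (2 : ℂ) • dl r)) (om_P m)) := by
    have e3 : mp (Rm a w) (mp piW (om_P m)) = mp (om_D a w)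
        (mp (LinearMap.id + (gm f).smulRight (-∑ r ∈ om_S a w, (2 : ℂ) • dl r))
          (mp piW (om_P m))) := by
      rw [mp_mp, mp_mp, mp_mp, e1, LinearMap.comp_assoc]
    rwa [om_five] at e3
  have e4 : vc (-∑ r ∈ om_S a w, (2 : ℂ) • dl r) * om_P m = 0 := by
    rw [map_neg, map_sum, neg_mul, Finset.sum_mul, neg_eq_zero]
    refine Finset.sum_eq_zero fun r hr => ?_
    have h5 := Finset.mem_Ioo.1 (Finset.mem_filter.1 hr).1
    have h6 : r % 2 = 1 := (Finset.mem_filter.1 hr).2
    have h7 := om_mul_zero m (r / 2) (by omega)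
    rw [show 2 * (r / 2) + 1 = r by omega] at h7
    rw [map_smul, smul_mul_assoc, h7, smul_zero]
  have e5 : gm f (-∑ r ∈ om_S a w, (2 : ℂ) • dl r) = 0 := by
    rw [map_neg, map_sum, neg_eq_zero]
    refine Finset.sum_eq_zero fun r hr => ?_
    have h5 := Finset.mem_Ioo.1 (Finset.mem_filter.1 hr).1
    rw [map_smul, om_gm, if_neg (by omega), smul_zero]
  have e6 : vc (-∑ r ∈ om_S a w, (2 : ℂ) • dl r) * ct (gm f) (om_P m) = 0 := by
    have h5 := ct_mul (gm f) (-∑ r ∈ om_S a w, (2 : ℂ) • dl r) (om_P m)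
    rw [e4, map_zero, e5, zero_smul, zero_sub, eq_comm, neg_eq_zero] at h5
    exact h5
  rw [e2, mp_rank, mp_id, mp_id, e6, add_zero, hs]

private theorem om_eq (n : ℕ) : Om n = om_P (n / 2) := rfl

end Om

/-- facts on the top form -/
theorem thm_Om : St_Om := by
  refine ⟨?_, ?_, ?_, ?_, ?_⟩
  · intro n i hn hi hin
    rw [om_eq, om_eq, show (n + 2) / 2 = n / 2 + 1 by omega]
    have h := om_one (i / 2) (n / 2) (by omega)
    rwa [show 2 * (i / 2) + 1 = i by omega] at h
  · intro n i hn hi hin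
    rw [om_eq, om_eq, show (n + 2) / 2 = n / 2 + 1 by omega]
    have h := om_two (i / 2) (n / 2) (by omega)
    rwa [show 2 * (i / 2) = i by omega] at h
  · intro n j hj hjn
    have h := om_mul_zero (n / 2) (j / 2) (by omega)
    rwa [show 2 * (j / 2) + 1 = j by omega] at h
  · intro n a w hn hw h
    rw [om_eq]
    exact om_four (n / 2) a w hw (by omega)
  · intro n
    rw [om_eq]
    exact om_five _

end Pool.TWI
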