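import Pool.Agent.TWI.StO
import Pool.Agent.ARB.BrRun
import Pool.Agent.ARB.Vert
import Pool.Agent.Helper2.FillVec

/-!
# TWI, module Run: the operators compute the bracket at `z`
-/

set_option autoImplicit false

namespace Pool.TWI

open Pool.Agent.ARB LaurentPolynomial
open Pool.Agent.Helper2 (Slice bracket evalAt loopVal Model Ops NoCross CupsOk states curves)

theorem Run_comm {R V : Type} [CommRing R] [AddCommGroup V] [Module R V] (M : Model R V)
    (hc : ∀ (n i k : ℕ) (x : V), i + k + 4 ≤ n → M.Supp n x →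
      M.cap (i + k) (M.cap i x) = M.cap i (M.cap (i + 2 + k) x))
    (X : ℕ → Bool → V → V) (v : List Slice) (hv : NoCross v) : ∀ (n m : ℕ) (x : V),
    Pool.Agent.Helper2.Ok v n m → M.Supp (n + 2) x →
      M.cap m ((M.ops X).run v x) = (M.ops X).run v (M.cap n x) := by
  induction v with
  | nil =>
    intro n m x h _
    simp only [Pool.Agent.Helper2.Ok] at h
    subst h
    rfl
  | cons s v ih =>
    intro n m x h hx
    cases s with
    | cup i u =>
      have h1 : i ≤ n := h.1
      have e : M.cap (n + 2) (M.cup i x) = M.cup i (M.cap n x) := by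
        obtain ⟨k, rfl⟩ : ∃ k, n = i + k := ⟨n - i, by omega⟩
        exact M.rel4 (i + k + 2) i k x hx (by omega)
      have h2 := ih hv (n + 2) m (M.cup i x) h.2 (M.supp_cup _ _ _ (by omega) hx)
      calc M.cap m ((M.ops X).run (.cup i u :: v) x) =
          M.cap m ((M.ops X).run v (M.cup i x)) := rfl
        _ = (M.ops X).run v (M.cap (n + 2) (M.cup i x)) := h2
        _ = (M.ops X).run v (M.cup i (M.cap n x)) := by rw [e]
        _ = _ := rfl
    | cap i =>
      have h1 : i + 2 ≤ n := h.1
      obtain ⟨k, rfl⟩ : ∃ k, n = i + 2 + k := ⟨n - (i + 2), by omega⟩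
      have e : M.cap (i + k) (M.cap i x) = M.cap i (M.cap (i + 2 + k) x) :=
        hc (i + 2 + k + 2) i k x (by omega) hx
      have hs : i + 2 + k - 2 = i + k := by omega
      have hok : Pool.Agent.Helper2.Ok v (i + k) m := by
        have := h.2
        rwa [hs] at this
      have hx2 : M.Supp (i + k + 2 + 2) x := by
        have e3 : i + 2 + k + 2 = i + k + 2 + 2 := by omega
        rwa [e3] at hx
      have h2 := ih hv (i + k) m (M.cap i x) hok (M.supp_cap (i + k + 2) i x (by omega) hx2)
      calc M.cap m ((M.ops X).run (.cap i :: v) x) =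
          M.cap m ((M.ops X).run v (M.cap i x)) := rfl
        _ = (M.ops X).run v (M.cap (i + k) (M.cap i x)) := h2
        _ = (M.ops X).run v (M.cap i (M.cap (i + 2 + k) x)) := by rw [e]
        _ = _ := rfl
    | cross i p => exact absurd hv (by simp [NoCross])

theorem Run_loopVal_inj {a b : ℕ} (h : (loopVal : LP) ^ a = loopVal ^ b) : a = b := by
  have h1 := congrArg (evalAt 1) h
  have e : evalAt 1 loopVal = -2 := by
    simp only [evalAt, loopVal, map_neg, map_add, LaurentPolynomial.eval₂_T]
    norm_num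
  rw [map_pow, map_pow, e] at h1
  have h2 := congrArg norm h1
  rw [norm_pow, norm_pow] at h2
  norm_num at h2
  exact h2

/-- the state of a word from two strands to none, as a tangle with two ends -/
theorem Run_state (v : List Slice) (hv : NoCross v) (h : Pool.Agent.Helper2.Ok v 2 0) :
    ∃ e : ℕ, e + 1 = curves (.cup 0 true :: v) ∧
      ∀ {R V : Type} [CommRing R] [AddCommGroup V] [Module R V] (M : Model R V)
        (X : ℕ → Bool → V → V) (c : R),
        (M.ops X).run v (c • M.build [1, 0]) = (c * M.δ ^ e) • M.build [0] := by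
  have h42 : ∀ (w : List Slice) (n m : ℕ), Pool.Agent.Helper2.Ok w n m →
      Pool.Agent.Helper2.Ok w (n + 2) (m + 2) := by
    intro w
    induction w with
    | nil =>
      intro n m h
      simp only [Pool.Agent.Helper2.Ok] at h ⊢
      omega
    | cons s w ih =>
      intro n m h
      cases s with
      | cup i u => exact ⟨by have := h.1; omega, ih _ _ h.2⟩
      | cap i =>
        refine ⟨by have := h.1; omega, ?_⟩
        have h1 := ih _ _ h.2
        have e : n - 2 + 2 = n + 2 - 2 := by have := h.1; omega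
        rwa [e] at h1
      | cross i p => exact ⟨by have := h.1; omega, ih _ _ h.2⟩
  obtain ⟨C', e, hC', H⟩ := Pool.Agent.Helper2.run_smul_build v hv 4 2 [1, 0] (h42 v 2 0 h)
    (CupsOk.cons (CupsOk.cons CupsOk.nil (by omega)) (by omega))
  have hC0 : C' = [0] := by
    cases hC' with
    | cons h1 h2 =>
      cases h1
      congr
      omega
  subst hC0
  refine ⟨e, ?_, H⟩
  obtain ⟨V, _, _, M, hM, hinj⟩ := thm_Vert
  have h1 := H M (fun i p => crossOp M i p) 1
  rw [one_smul, one_mul] at h1
  have h2 := congrArg (M.cap 0) h1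
  rw [Run_comm M hM.capcap _ v hv 2 0 _ h (M.supp_build (CupsOk.cons (CupsOk.cons CupsOk.nil
    (by omega)) (by omega)))] at h2
  have h3 : M.cap 2 (M.build [1, 0]) = M.build [0] :=
    M.rel2 2 1 _ (M.supp_build (CupsOk.cons CupsOk.nil (by omega))) (by omega)
  have h4 : M.cap 0 (M.build [0]) = M.δ • M.init := M.rel1 0 0 _ M.supp_init (by omega)
  rw [h3, map_smul, h4, BrRun_ops, smul_smul, ← pow_succ] at h2
  have h5 := BrRun_noCross M (.cup 0 true :: v) hv ⟨by omega, h⟩
  have h6 : runW M (forget (.cup 0 true :: v)) M.init = runW M (forget v) (M.build [0]) := rfl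
  rw [h6, h2, hM.del] at h5
  exact Run_loopVal_inj (hinj _ _ h5)

/-- the model -/
noncomputable def Run_M (hR : St_Rel) : Model ℂ Fk where
  Supp := fun _ _ => True
  δ := 0
  init := 1
  cup := cupU
  cap := capU
  supp_init := trivial
  supp_cup := fun _ _ _ _ _ => trivial
  supp_cap := fun _ _ _ _ _ => trivial
  rel1 := fun _ i x _ _ => by rw [hR.1 i x, zero_smul]
  rel2 := fun _ i x _ _ => hR.2.1 i x
  rel3 := fun _ i x _ _ => hR.2.2.1 i x
  rel4 := fun _ i k x _ _ => hR.2.2.2.1 i k x
  rel5 := fun _ i k x _ _ => hR.2.2.2.2.1 i k x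

theorem Run_ops (hR : St_Rel) (z : ℂˣ) (hz : (z : ℂ) ^ 2 = Complex.I) (w : Word) : ∀ ψ : Fk,
    runU z w ψ = ((Run_M hR).ops ((Run_M hR).X z)).run (unW w) ψ := by
  have hz1 : (z : ℂ) * ((z⁻¹ : ℂˣ) : ℂ) = 1 := by simp
  induction w with
  | nil => intro ψ; rfl
  | cons s w ih =>
    intro ψ
    obtain ⟨k, i⟩ := s
    cases k with
    | U => exact ih _
    | N => exact ih _
    | X p =>
      have e1 : opU z (pX i p) ψ = (Run_M hR).X z i p ψ := by
        have hR6 := hR.2.2.2.2.2 i ψ
        have e2 : (Run_M hR).cup i ((Run_M hR).cap i ψ) = Complex.I • EU i ψ := hR6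
        have hI : Complex.I * Complex.I = -1 := Complex.I_mul_I
        cases p
        · show ((z⁻¹ : ℂˣ) : ℂ) • (ψ - EU i ψ) = _
          unfold Model.X
          rw [e2, smul_sub, smul_smul, sub_eq_add_neg, ← neg_smul]
          congr 2
          · simp [Pool.Agent.Helper2.sg]
          · have h3 : ((z ^ (-(Pool.Agent.Helper2.sg false)) : ℂˣ) : ℂ) = z := by
              simp [Pool.Agent.Helper2.sg]
            rw [h3]
            have h4 : (z : ℂ) * Complex.I * z = -1 := by
              rw [← hI, ← hz]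
              ring
            calc -((z⁻¹ : ℂˣ) : ℂ) = ((z⁻¹ : ℂˣ) : ℂ) * ((z : ℂ) * Complex.I * z) := by
                  rw [h4]; ring
              _ = ((z : ℂ) * ((z⁻¹ : ℂˣ) : ℂ)) * (z * Complex.I) := by ring
              _ = _ := by rw [hz1, one_mul]
        · show (z : ℂ) • (ψ + EU i ψ) = _
          unfold Model.X
          rw [e2, smul_add, smul_smul]
          congr 2
          · simp [Pool.Agent.Helper2.sg]
          · have h3 : ((z ^ (-(Pool.Agent.Helper2.sg true)) : ℂˣ) : ℂ) = ((z⁻¹ : ℂˣ) : ℂ) := by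
              simp [Pool.Agent.Helper2.sg]
            rw [h3, ← hz, pow_two]
            calc (z : ℂ) = ((z : ℂ) * ((z⁻¹ : ℂˣ) : ℂ)) * z := by rw [hz1, one_mul]
              _ = _ := by ring
      show runU z w (opU z (pX i p) ψ) = _
      rw [e1, ih]
      rfl

theorem Run_okW (w : Word) : ∀ n m : ℕ, Ok w n m → Pool.Agent.Helper2.Ok (unW w) n m := by
  induction w with
  | nil => intro n m h; exact h
  | cons s w ih =>
    intro n m h
    obtain ⟨k, i⟩ := s
    cases k with
    | U => exact ⟨h.1, ih _ _ h.2⟩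
    | N => exact ⟨h.1, ih _ _ h.2⟩
    | X p =>
      refine ⟨h.1, ?_⟩
      have h1 : Ok w (n - 2 + 2) m := h.2
      have h2 : i + 2 ≤ n := h.1
      have e : n - 2 + 2 = n := by omega
      rw [e] at h1
      exact ih _ _ h1

theorem thm_Run (hR : St_Rel) : St_Run := by
  intro z hz D' hD'
  have hok := Run_okW D' 2 0 hD'
  have h0 : cupU 0 (1 : Fk) = vc (dl 1) := by
    show Complex.I ^ 0 • (vc (dl (0 + 1)) * mp (insM 0) 1) = _
    rw [pow_zero, one_smul, mp_one, mul_one]
  have h1 : runU z (pU 1 :: D') (vc (dl 1)) =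
      ((Run_M hR).ops ((Run_M hR).X z)).run (unW D') ((Run_M hR).build [1, 0]) := by
    rw [← Run_ops hR z hz, ← h0]
    rfl
  have hb : (Run_M hR).build [0] = vc (dl 1) := h0
  rw [h1, Model.run_states]
  have hl : evalAt z loopVal = 0 := by
    have hz4 : ((z ^ (-2 : ℤ) : ℂˣ) : ℂ) = -Complex.I := by
      have h2 : ((z ^ (-2 : ℤ) : ℂˣ) : ℂ) * (z : ℂ) ^ 2 = 1 := by
        rw [← Units.val_pow_eq_pow_val, ← Units.val_mul]
        simp
      rw [hz] at h2
      calc ((z ^ (-2 : ℤ) : ℂˣ) : ℂ) = ((z ^ (-2 : ℤ) : ℂˣ) : ℂ) * Complex.I * (-Complex.I) := by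
            rw [mul_assoc]
            simp
        _ = _ := by rw [h2, one_mul]
    have hz5 : ((z ^ (2 : ℤ) : ℂˣ) : ℂ) = Complex.I := by
      rw [← hz]
      norm_cast
    simp only [evalAt, loopVal, map_neg, map_add, LaurentPolynomial.eval₂_T]
    rw [hz4, hz5]
    ring
  have hterm : ∀ s ∈ states (unW D'), ((z ^ s.1 : ℂˣ) : ℂ) •
      ((Run_M hR).ops ((Run_M hR).X z)).run s.2 ((Run_M hR).build [1, 0]) =
      evalAt z (T s.1 * loopVal ^ (curves (.cup 0 true :: s.2) - 1)) • vc (dl 1) := by
    intro s hs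
    obtain ⟨h2, h3⟩ := Pool.Agent.Helper2.states_ok (unW D') 2 0 hok s hs
    obtain ⟨e, he, H⟩ := Run_state s.2 h2 h3
    have h4 := H (Run_M hR) ((Run_M hR).X z) 1
    rw [one_smul, one_mul] at h4
    rw [h4, smul_smul, hb, ← he, Nat.add_sub_cancel, map_mul, map_pow, hl]
    congr 2
    simp [evalAt, LaurentPolynomial.eval₂_T]
  rw [List.map_congr_left hterm]
  have hbr : bracket (unW (pU 0 :: D')) =
      ((states (unW D')).map fun s => T s.1 * loopVal ^ (curves (.cup 0 true :: s.2) - 1)).sum := by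
    show bracket (.cup 0 true :: unW D') = _
    unfold bracket
    rw [states, List.map_map]
    · rfl
    · intro j p; exact Slice.noConfusion
  rw [hbr]
  induction states (unW D') with
  | nil => simp
  | cons s L ih => rw [List.map_cons, List.sum_cons, List.map_cons, List.sum_cons, map_add, add_smul,
      ih]

end Pool.TWI
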