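import Pool.Agent.TWI.StO

set_option autoImplicit false

namespace Pool.TWI

open Pool.Agent.ARB
open Pool.Agent.Helper2 (Slice bracket evalAt loopVal)

private theorem stp_sm_cons (e : Bool) (n : ℕ) (q : ℤ × Fk) (L : List (ℤ × Fk)) :
    sm e n (q :: L) = (if e then (q.1 : ℂ) else 1) • Th n q.2 + sm e n L := by
  unfold sm
  rw [List.map_cons, List.sum_cons]

private theorem stp_sm_nil (e : Bool) (n : ℕ) : sm e n [] = 0 := rfl

/-- a letter which acts on every element separately -/
private theorem stp_map (f : Fk →ₗ[ℂ] Fk) (e : Bool) (n n' : ℕ) (κ : ℂ) (g : ℤ × Fk → ℤ × Fk)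
    (L : List (ℤ × Fk)) (h : ∀ q ∈ L, f ((if e then (q.1 : ℂ) else 1) • Th n q.2) =
      κ • ((if e then ((g q).1 : ℂ) else 1) • Th n' (g q).2)) :
    f (sm e n L) = κ • sm e n' (L.map g) := by
  induction L with
  | nil => rw [List.map_nil, stp_sm_nil, stp_sm_nil, map_zero, smul_zero]
  | cons q L ih =>
    rw [stp_sm_cons, List.map_cons, stp_sm_cons, map_add, h q List.mem_cons_self,
      ih (fun q hq => h q (List.mem_cons_of_mem _ hq)), smul_add]

private theorem stp_z (z : ℂˣ) (hz : (z : ℂ) ^ 2 = Complex.I) : ‖(z : ℂ)‖ = 1 := by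
  have h1 : ‖(z : ℂ)‖ ^ 2 = 1 := by
    rw [← norm_pow, hz, Complex.norm_I]
  have h2 : 0 ≤ ‖(z : ℂ)‖ := norm_nonneg _
  nlinarith [h1, h2]

private theorem stp_zi (z : ℂˣ) (hz : (z : ℂ) ^ 2 = Complex.I) :
    ‖((z⁻¹ : ℂˣ) : ℂ)‖ = 1 := by
  rw [Units.val_inv_eq_inv_val, norm_inv, stp_z z hz, inv_one]

private theorem stp_I (k : ℕ) : ‖Complex.I ^ k‖ = 1 := by
  rw [norm_pow, Complex.norm_I, one_pow]

private theorem stp_sig (σ : ℤ) (h : σ = 1 ∨ σ = -1) : ‖(σ : ℂ)‖ = 1 := by
  rcases h with rfl | rfl <;> simp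

/-- the phase does not depend on the list -/
theorem Stp_unif (hTE : St_TE) (hU1 : St_TU1) (hU0 : St_TU0) (hN1 : St_TN1) (hN0 : St_TN0)
    (z : ℂˣ) (hz : (z : ℂ) ^ 2 = Complex.I) (e : Bool) (n : ℕ) (s : Piece) (hn : n % 2 = 0)
    (hs : s.i + s.k.inn ≤ n) (hcr : ∀ p, s.k = .X p → (p = e ↔ s.i % 2 = 0)) :
    ∃ κ : ℂ, ‖κ‖ = 1 ∧ ∀ L : List (ℤ × Fk), GdL L →
      opU z s (sm e n L) = κ • sm e (n - s.k.inn + s.k.out) (stp s L) := by
  obtain ⟨k, i⟩ := s
  cases k with
  | U =>
    have hi : i ≤ n := by simpa [Kind.inn] using hs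
    have hU : ∃ σ : ℤ, (σ = 1 ∨ σ = -1) ∧
        ∀ (τ : ℤ) (b : Fk), (τ = 1 ∨ τ = -1) → iv b = (τ : ℂ) • b → mp piB b = b →
          vc (dl (i + 1)) * mp (insM i) (Th n b) = (σ : ℂ) • Th (n + 2) (xU i b) := by
      rcases Nat.mod_two_eq_zero_or_one i with h0 | h1
      · exact hU0 n i hn h0 hi
      · exact hU1 n i hn h1 hi
    obtain ⟨σ, hσ, h⟩ := hU
    have hn2 : n - (Kind.U).inn + (Kind.U).out = n + 2 := rfl
    set δ : ℂ := if e = true ∧ i % 2 = 1 then -1 else 1 with hδ
    have hδ1 : ‖δ‖ = 1 := by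
      rw [hδ]; split_ifs <;> simp
    have hδ2 : δ * δ = 1 := by
      rw [hδ]; split_ifs <;> simp
    refine ⟨Complex.I ^ i * (σ : ℂ) * δ, ?_, ?_⟩
    · rw [norm_mul, norm_mul, stp_I, stp_sig σ hσ, hδ1]; norm_num
    · intro L hL
      change cupU i (sm e n L) = (Complex.I ^ i * (σ : ℂ) * δ) • sm e (n + 2)
        (L.map fun q => (if i % 2 = 1 then -q.1 else q.1, xU i q.2))
      apply stp_map
      intro q hq
      have hg := hL q hq
      have h1 : cupU i (Th n q.2) = (Complex.I ^ i * (σ : ℂ)) • Th (n + 2) (xU i q.2) := by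
        change Complex.I ^ i • (vc (dl (i + 1)) * mp (insM i) (Th n q.2)) = _
        rw [h q.1 q.2 hg.tau hg.par hg.blk, smul_smul]
      rw [map_smul, h1, smul_smul, smul_smul]
      congr 1
      rw [hδ]
      cases e
      · simp
      · by_cases h3 : i % 2 = 1
        · simp [h3]
          ring
        · simp only [h3, and_false, if_false, if_true]
          push_cast
          ring
  | N =>
    have hi : i + 2 ≤ n := by simpa [Kind.inn] using hs
    have hN : ∃ σ : ℤ, (σ = 1 ∨ σ = -1) ∧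
        ∀ (τ : ℤ) (b : Fk), (τ = 1 ∨ τ = -1) → iv b = (τ : ℂ) • b → mp piB b = b →
          mp (delM i) (ct (ph i) (Th n b)) = (σ : ℂ) • Th (n - 2) (xN i b) := by
      rcases Nat.mod_two_eq_zero_or_one i with h0 | h1
      · exact hN0 n i hn h0 hi
      · exact hN1 n i hn h1 hi
    obtain ⟨σ, hσ, h⟩ := hN
    set δ : ℂ := if e = true ∧ ¬ i % 2 = 1 then -1 else 1 with hδ
    have hδ1 : ‖δ‖ = 1 := by
      rw [hδ]; split_ifs <;> simp
    refine ⟨Complex.I ^ (3 * i + 1) * (σ : ℂ) * δ, ?_, ?_⟩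
    · rw [norm_mul, norm_mul, stp_I, stp_sig σ hσ, hδ1]; norm_num
    · intro L hL
      change capU i (sm e n L) = (Complex.I ^ (3 * i + 1) * (σ : ℂ) * δ) • sm e (n - 2)
        (L.map fun q => (if i % 2 = 1 then q.1 else -q.1, xN i q.2))
      apply stp_map
      intro q hq
      have hg := hL q hq
      have h1 : capU i (Th n q.2) =
          (Complex.I ^ (3 * i + 1) * (σ : ℂ)) • Th (n - 2) (xN i q.2) := by
        change Complex.I ^ (3 * i + 1) • (mp (delM i) (ct (ph i) (Th n q.2))) = _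
        rw [h q.1 q.2 hg.tau hg.par hg.blk, smul_smul]
      rw [map_smul, h1, smul_smul, smul_smul]
      congr 1
      rw [hδ]
      cases e
      · simp
      · by_cases h3 : i % 2 = 1
        · simp only [h3, not_true, and_false, if_false, if_true]
          push_cast
          ring
        · simp [h3]
          ring
  | X p =>
    have hi : i + 2 ≤ n := by simpa [Kind.inn] using hs
    have hpe : p = e ↔ i % 2 = 0 := hcr p rfl
    have hE' : ∀ L : List (ℤ × Fk), GdL L → ∀ q ∈ L, EU i (Th n q.2) =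
        (if i % 2 = 1 then (1 : ℂ) else -1) • Th n (xE i q.2) :=
      fun L hL q hq => hTE n i q.2 hn hi (hL q hq).blk
    -- the common form
    have key : ∀ (κ ε : ℂ) (f : Fk →ₗ[ℂ] Fk), (f = κ • (LinearMap.id + ε • EU i)) →
        (ε * (if i % 2 = 1 then (1 : ℂ) else -1) = if e then -1 else 1) →
        ∀ L : List (ℤ × Fk), GdL L →
        f (sm e n L) = κ • sm e n (L.flatMap fun q => [q, (-q.1, xE i q.2)]) := by
      intro κ ε f hf hε L hL
      have hE := hE' L hL
      clear hs hcr hE' hL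
      induction L with
      | nil =>
        rw [List.flatMap_nil, stp_sm_nil, map_zero, smul_zero]
      | cons q L ih =>
        rw [List.flatMap_cons, stp_sm_cons, map_add,
          ih (fun q hq => hE q (List.mem_cons_of_mem _ hq))]
        change _ = κ • sm e n (q :: (-q.1, xE i q.2) :: (L.flatMap fun q => [q, (-q.1, xE i q.2)]))
        rw [stp_sm_cons, stp_sm_cons, smul_add, smul_add, ← add_assoc]
        congr 1
        rw [hf, map_smul, LinearMap.smul_apply, LinearMap.add_apply, LinearMap.smul_apply,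
          LinearMap.id_apply, hE q List.mem_cons_self, smul_add, smul_add]
        congr 1
        · rw [smul_comm κ]
        · change _ = κ • (if e then ((-q.1 : ℤ) : ℂ) else 1) • Th n (xE i q.2)
          rw [smul_smul ε, hε, smul_comm, smul_smul (if e = true then (q.1 : ℂ) else 1)]
          congr 2
          cases e
          · simp
          · simp
    have hgoal : n - (Kind.X p).inn + (Kind.X p).out = n := by
      simp only [Kind.inn, Kind.out]
      omega
    cases p with
    | true =>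
      refine ⟨(z : ℂ), stp_z z hz, fun L hL => ?_⟩
      change (((z : ℂ) • (LinearMap.id + EU i) : Fk →ₗ[ℂ] Fk)) (sm e n L) = _
      rw [hgoal]
      refine key (z : ℂ) 1 _ (by rw [one_smul]) ?_ L hL
      cases e
      · have : ¬ i % 2 = 0 := by
          intro h
          exact absurd (hpe.2 h) (by decide)
        have h1 : i % 2 = 1 := by omega
        simp [h1]
      · have : i % 2 = 0 := hpe.1 rfl
        simp [this]
    | false =>
      refine ⟨((z⁻¹ : ℂˣ) : ℂ), stp_zi z hz, fun L hL => ?_⟩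
      change (((((z⁻¹ : ℂˣ) : ℂ)) • (LinearMap.id - EU i) : Fk →ₗ[ℂ] Fk)) (sm e n L) = _
      rw [hgoal]
      refine key (((z⁻¹ : ℂˣ) : ℂ)) (-1) _ (LinearMap.ext fun x => by
        rw [LinearMap.smul_apply, LinearMap.smul_apply, LinearMap.sub_apply,
          LinearMap.add_apply, LinearMap.smul_apply, neg_smul, one_smul, ← sub_eq_add_neg]) ?_
        L hL
      cases e
      · have : i % 2 = 0 := hpe.1 rfl
        simp [this]
      · have : ¬ i % 2 = 0 := by
          intro h
          exact absurd (hpe.2 h) (by decide)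
        have h1 : i % 2 = 1 := by omega
        simp [h1]

theorem thm_Stp (hTE : St_TE) (hU1 : St_TU1) (hU0 : St_TU0) (hN1 : St_TN1) (hN0 : St_TN0) :
    St_Stp := by
  intro z hz e n s L hn hs hL hcr
  obtain ⟨κ, hκ, h⟩ := Stp_unif hTE hU1 hU0 hN1 hN0 z hz e n s hn hs hcr
  exact ⟨κ, hκ, h L hL⟩

end Pool.TWI
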