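import Pool.Agent.TWI.StO

/-!
# TWI, T-B: the elements of the list are the values of the states
-/

set_option autoImplicit false

namespace Pool.TWI

open Pool.Agent.ARB

section Sts

private theorem sts_gd_stp (hG : St_Gd) (s : Piece) (L : List (ℤ × Fk)) (hL : GdL L) :
    GdL (stp s L) := by
  obtain ⟨k, i⟩ := s
  intro q hq
  cases k with
  | U =>
    obtain ⟨q', hq', rfl⟩ := List.mem_map.1 hq
    exact (hG.1 i q'.1 q'.2 (hL q' hq')).1
  | N =>
    obtain ⟨q', hq', rfl⟩ := List.mem_map.1 hq
    exact (hG.1 i q'.1 q'.2 (hL q' hq')).2.1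
  | X p =>
    obtain ⟨q', hq', h⟩ := List.mem_flatMap.1 hq
    rcases List.mem_cons.1 h with rfl | h
    · exact hL _ hq'
    · rw [List.mem_singleton] at h
      subst h
      exact (hG.1 i q'.1 q'.2 (hL q' hq')).2.2.1

private theorem sts_U (i : ℕ) (q : ℤ × Fk) :
    stp (pU i) [q] = [(if i % 2 = 1 then -q.1 else q.1, xU i q.2)] := rfl

private theorem sts_N (i : ℕ) (q : ℤ × Fk) :
    stp (pN i) [q] = [(if i % 2 = 1 then q.1 else -q.1, xN i q.2)] := rfl

private theorem sts_NU (hG : St_Gd) (i : ℕ) (q : ℤ × Fk) (hq : Gd q.1 q.2) :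
    stp (pU i) (stp (pN i) [q]) = [(-q.1, xE i q.2)] := by
  rw [sts_N, sts_U]
  have h := (hG.1 i q.1 q.2 hq).2.2.2
  simp only
  rw [h]
  by_cases hi : i % 2 = 1
  · rw [if_pos hi, if_pos hi]
  · rw [if_neg hi, if_neg hi]

end Sts

/-- the elements of the list are the values of the states -/
theorem thm_Sts (hG : St_Gd) : St_Sts := by
  intro D
  induction D with
  | nil =>
    intro n m L hok hL q hq
    exact ⟨[], List.mem_singleton.2 rfl, hok, fun i p h => by simp at h, q, hq, rfl⟩
  | cons s D ih =>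
    intro n m L hok hL q hq
    rw [List.foldl_cons] at hq
    obtain ⟨hs, hok'⟩ := hok
    obtain ⟨v, hv, hv1, hv2, q'', hq'', hv3⟩ := ih _ m _ hok' (sts_gd_stp hG s L hL) q hq
    obtain ⟨k, i⟩ := s
    cases k with
    | U =>
      obtain ⟨q', hq', rfl⟩ := List.mem_map.1 hq''
      refine ⟨pU i :: v, List.mem_map.2 ⟨v, hv, rfl⟩, ⟨hs, hv1⟩, ?_, q', hq', ?_⟩
      · intro i' p h
        rcases List.mem_cons.1 h with h | h
        · exact absurd (congrArg Piece.k h) (by simp)
        · exact hv2 i' p h
      · rw [List.foldl_cons, sts_U]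
        exact hv3
    | N =>
      obtain ⟨q', hq', rfl⟩ := List.mem_map.1 hq''
      refine ⟨pN i :: v, List.mem_map.2 ⟨v, hv, rfl⟩, ⟨hs, hv1⟩, ?_, q', hq', ?_⟩
      · intro i' p h
        rcases List.mem_cons.1 h with h | h
        · exact absurd (congrArg Piece.k h) (by simp)
        · exact hv2 i' p h
      · rw [List.foldl_cons, sts_N]
        exact hv3
    | X p₀ =>
      have hs' : i + 2 ≤ n := hs
      have hv1' : Ok v n m := by
        have h1 : n - 2 + 2 = n := by omega
        have h2 : Ok v (n - 2 + 2) m := hv1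
        rwa [h1] at h2
      obtain ⟨q', hq', h⟩ := List.mem_flatMap.1 hq''
      rcases List.mem_cons.1 h with h | h
      · subst h
        exact ⟨v, List.mem_flatMap.2 ⟨v, hv, List.mem_cons_self⟩, hv1', hv2, q'', hq', hv3⟩
      · rw [List.mem_singleton] at h
        subst h
        refine ⟨pN i :: pU i :: v, List.mem_flatMap.2 ⟨v, hv, List.mem_cons_of_mem _
          (List.mem_singleton.2 rfl)⟩, ⟨hs, ?_, ?_⟩, ?_, q', hq', ?_⟩
        · show i + 0 ≤ n - 2 + 0
          omega
        · show Ok v (n - 2 + 0 - 0 + 2) m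
          rw [show n - 2 + 0 - 0 + 2 = n by omega]
          exact hv1'
        · intro i' p h
          rcases List.mem_cons.1 h with h | h
          · exact absurd (congrArg Piece.k h) (by simp)
          · rcases List.mem_cons.1 h with h | h
            · exact absurd (congrArg Piece.k h) (by simp)
            · exact hv2 i' p h
        · rw [List.foldl_cons, List.foldl_cons, sts_NU hG i q' (hL q' hq')]
          exact hv3

end Pool.TWI
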