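import Pool.Agent.TWI.StO

set_option autoImplicit false

namespace Pool.TWI

open Pool.Agent.ARB
open Pool.Agent.Helper2 (Slice bracket evalAt loopVal)

theorem sum_xU (i : ℕ) (b c : Fk) : xU i (b + 2 * c) = xU i b + 2 * xU i c := by
  unfold xU
  rw [two_mul, two_mul]
  split_ifs
  · rw [map_add, map_add, mul_add, mul_add]
  · rw [map_add, map_add]

theorem sum_xN (i : ℕ) (b c : Fk) : xN i (b + 2 * c) = xN i b + 2 * xN i c := by
  unfold xN
  rw [two_mul, two_mul]
  split_ifs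
  · rw [map_add, map_add]
  · rw [map_add, map_add, map_add, map_add]

theorem sum_xE (i : ℕ) (b c : Fk) : xE i (b + 2 * c) = xE i b + 2 * xE i c := by
  unfold xE
  rw [two_mul, two_mul]
  split_ifs
  · rw [mul_add, mul_add]
  · rw [map_add, map_add]

theorem sum_xR (a w : ℕ) (b c : Fk) : xR a w (b + 2 * c) = xR a w b + 2 * xR a w c := by
  unfold xR
  rw [two_mul, two_mul, map_add, map_add]

/-- pairs of elements which are congruent modulo two -/
def Cgp (q q' : ℤ × Fk) : Prop := q.1 = q'.1 ∧ ∃ c ∈ Iz, q'.2 = q.2 + 2 * c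

theorem sum_cg_U (hG : St_Gd) (i : ℕ) (q q' : ℤ × Fk) (h : Cgp q q') :
    Cgp ((fun q : ℤ × Fk => (if i % 2 = 1 then -q.1 else q.1, xU i q.2)) q)
      ((fun q : ℤ × Fk => (if i % 2 = 1 then -q.1 else q.1, xU i q.2)) q') := by
  obtain ⟨h1, c, hc, h2⟩ := h
  refine ⟨?_, xU i c, (hG.2.2 i c hc).1, ?_⟩
  · simp only [h1]
  · simp only [h2]
    exact sum_xU i _ _

theorem sum_cg_N (hG : St_Gd) (i : ℕ) (q q' : ℤ × Fk) (h : Cgp q q') :
    Cgp ((fun q : ℤ × Fk => (if i % 2 = 1 then q.1 else -q.1, xN i q.2)) q)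
      ((fun q : ℤ × Fk => (if i % 2 = 1 then q.1 else -q.1, xN i q.2)) q') := by
  obtain ⟨h1, c, hc, h2⟩ := h
  refine ⟨?_, xN i c, (hG.2.2 i c hc).2.1, ?_⟩
  · simp only [h1]
  · simp only [h2]
    exact sum_xN i _ _

theorem sum_cg_E (hG : St_Gd) (i : ℕ) (q q' : ℤ × Fk) (h : Cgp q q') :
    Cgp (-q.1, xE i q.2) (-q'.1, xE i q'.2) := by
  obtain ⟨h1, c, hc, h2⟩ := h
  refine ⟨?_, xE i c, (hG.2.2 i c hc).2.2, ?_⟩
  · simp only [h1]
  · simp only [h2]
    exact sum_xE i _ _

theorem sum_cg_stp (hG : St_Gd) (s : Piece) (L L' : List (ℤ × Fk)) (h : CgL L L') :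
    CgL (stp s L) (stp s L') := by
  obtain ⟨k, i⟩ := s
  cases k with
  | U =>
    change List.Forall₂ Cgp (L.map _) (L'.map _)
    rw [List.forall₂_map_left_iff, List.forall₂_map_right_iff]
    exact List.Forall₂.imp (fun q q' hq => sum_cg_U hG i q q' hq) h
  | N =>
    change List.Forall₂ Cgp (L.map _) (L'.map _)
    rw [List.forall₂_map_left_iff, List.forall₂_map_right_iff]
    exact List.Forall₂.imp (fun q q' hq => sum_cg_N hG i q q' hq) h
  | X p =>
    change List.Forall₂ Cgp (L.flatMap _) (L'.flatMap _)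
    change List.Forall₂ Cgp L L' at h
    induction h with
    | nil => exact List.Forall₂.nil
    | cons hq hl ih =>
      rw [List.flatMap_cons, List.flatMap_cons]
      exact List.Forall₂.cons hq (List.Forall₂.cons (sum_cg_E hG i _ _ hq) ih)

theorem sum_gd_stp (hG : St_Gd) (s : Piece) (L : List (ℤ × Fk)) (h : GdL L) :
    GdL (stp s L) := by
  obtain ⟨k, i⟩ := s
  cases k with
  | U =>
    intro q hq
    change q ∈ L.map _ at hq
    rw [List.mem_map] at hq
    obtain ⟨q0, h0, rfl⟩ := hq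
    exact (hG.1 i q0.1 q0.2 (h q0 h0)).1
  | N =>
    intro q hq
    change q ∈ L.map _ at hq
    rw [List.mem_map] at hq
    obtain ⟨q0, h0, rfl⟩ := hq
    exact (hG.1 i q0.1 q0.2 (h q0 h0)).2.1
  | X p =>
    intro q hq
    change q ∈ L.flatMap _ at hq
    rw [List.mem_flatMap] at hq
    obtain ⟨q0, h0, hq⟩ := hq
    rcases List.mem_cons.1 hq with rfl | hq
    · exact h q h0
    · rw [List.mem_singleton] at hq
      rw [hq]
      exact (hG.1 i q0.1 q0.2 (h q0 h0)).2.2.1

theorem Sum_gd_foldl (hG : St_Gd) (D : Word) : ∀ L : List (ℤ × Fk), GdL L →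
    GdL (D.foldl (fun l s => stp s l) L) := by
  induction D with
  | nil => intro L h; exact h
  | cons s D ih =>
    intro L h
    exact ih _ (sum_gd_stp hG s L h)

theorem sum_runU_append (z : ℂˣ) (u v : Word) (x : Fk) :
    runU z (u ++ v) x = runU z v (runU z u x) := by
  induction u generalizing x with
  | nil => rfl
  | cons s u ih =>
    change runU z (u ++ v) (opU z s x) = runU z v (runU z u (opU z s x))
    exact ih _

theorem sum_sm_cons (e : Bool) (n : ℕ) (q : ℤ × Fk) (L : List (ℤ × Fk)) :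
    sm e n (q :: L) = (if e then (q.1 : ℂ) else 1) • Th n q.2 + sm e n L := by
  unfold sm
  rw [List.map_cons, List.sum_cons]

theorem sum_block (e : Bool) (n a w : ℕ) (σ : ℤ)
    (hσ : ∀ b : Fk, mp (Rm a w) (Th n b) = (σ : ℂ) • Th n (xR a w b)) (L : List (ℤ × Fk)) :
    mp (Rm a w) (sm e n L) = (σ : ℂ) • sm e n (L.map fun q => (q.1, xR a w q.2)) := by
  induction L with
  | nil =>
    change mp (Rm a w) 0 = (σ : ℂ) • (0 : Fk)
    rw [map_zero, smul_zero]
  | cons q L ih =>
    rw [sum_sm_cons, List.map_cons, sum_sm_cons, map_add, map_smul, ih, hσ, smul_add,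
      smul_comm]

theorem sum_blocks (e : Bool) (n a w : ℕ) (σ : ℤ)
    (hσ : ∀ b : Fk, mp (Rm a w) (Th n b) = (σ : ℂ) • Th n (xR a w b)) (k : ℕ) :
    ∀ L : List (ℤ × Fk), (mp (Rm a w))^[k] (sm e n L) =
      ((σ : ℂ) ^ k) • sm e n (L.map fun q => (q.1, (xR a w)^[k] q.2)) := by
  induction k with
  | zero =>
    intro L
    simp
  | succ k ih =>
    intro L
    have hlin : ∀ (k : ℕ) (c : ℂ) (x : Fk), (mp (Rm a w))^[k] (c • x) = c • (mp (Rm a w))^[k] x := by
      intro k
      induction k with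
      | zero => intro c x; rfl
      | succ k ih =>
        intro c x
        rw [Function.iterate_succ_apply, Function.iterate_succ_apply, map_smul, ih]
    rw [Function.iterate_succ_apply, sum_block e n a w σ hσ L, hlin, ih, List.map_map, smul_smul,
      ← pow_succ']
    rfl

theorem sum_xR_gd (hG : St_Gd) (a w : ℕ) (hw : w % 2 = 1) (k : ℕ) :
    ∀ (τ : ℤ) (b : Fk), Gd τ b → Gd τ ((xR a w)^[k] b) := by
  induction k with
  | zero => intro τ b h; exact h
  | succ k ih =>
    intro τ b h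
    rw [Function.iterate_succ_apply]
    exact ih τ _ (hG.2.1 a w τ b hw h)

theorem sum_xR_cg (hG : St_Gd) (hC : St_Cg) (a w : ℕ) (hw : w % 2 = 1) (k : ℕ) :
    ∀ (τ : ℤ) (b : Fk), Gd τ b → ∃ c ∈ Iz, (xR a w)^[k] b = b + 2 * c := by
  induction k with
  | zero =>
    intro τ b _
    exact ⟨0, Iz.zero_mem, by rw [mul_zero, add_zero]; rfl⟩
  | succ k ih =>
    intro τ b h
    obtain ⟨c, hc, h1⟩ := ih τ (xR a w b) (hG.2.1 a w τ b hw h)
    obtain ⟨c', hc', h2⟩ := hC.1 a w b h.int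
    refine ⟨c' + c, Iz.add_mem hc' hc, ?_⟩
    rw [Function.iterate_succ_apply, h1, h2, mul_add, add_assoc]

theorem sum_cg_xR (hG : St_Gd) (hC : St_Cg) (a w k : ℕ) (hw : w % 2 = 1)
    (L L' : List (ℤ × Fk)) (h : CgL L L') (hL' : GdL L') :
    CgL L (L'.map fun q => (q.1, (xR a w)^[k] q.2)) := by
  change List.Forall₂ Cgp L L' at h
  change List.Forall₂ Cgp L _
  induction h with
  | nil => exact List.Forall₂.nil
  | @cons q q' l l' hq hl ih =>
    rw [List.map_cons]
    refine List.Forall₂.cons ?_ (ih fun q hq => hL' q (List.mem_cons_of_mem _ hq))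
    obtain ⟨h1, c, hc, h2⟩ := hq
    obtain ⟨c', hc', h3⟩ := sum_xR_cg hG hC a w hw k q'.1 q'.2 (hL' q' List.mem_cons_self)
    refine ⟨h1, c + c', Iz.add_mem hc hc', ?_⟩
    change (xR a w)^[k] q'.2 = q.2 + 2 * (c + c')
    rw [h3, h2, mul_add, add_assoc]

theorem thm_Sum (hStp : St_Stp) (hF : St_FTw) (hTR : St_TR) (hG : St_Gd) (hC : St_Cg) :
    St_Sum := by
  intro z hz e n m D K hTw
  induction hTw with
  | nil n =>
    intro hok _ _ L L' hL hL' hc
    have hnm : n = m := hok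
    subst hnm
    exact ⟨L', 1, norm_one, hL, hL', hc, by rw [one_smul]; rfl⟩
  | @pc n D K s h hT ih =>
    intro hok hn hal L L' hL hL' hc
    have hok' : Ok D (n - s.k.inn + s.k.out) m := hok.2
    have hn' : (n - s.k.inn + s.k.out) % 2 = 0 := by
      have h1 : s.k.inn % 2 = 0 ∧ s.k.out % 2 = 0 := by
        cases s.k <;> simp [Kind.inn, Kind.out]
      omega
    have hcr : ∀ p, s.k = .X p → (p = e ↔ s.i % 2 = 0) := by
      intro p hp
      apply hal p s.i
      have : s = pX s.i p := by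
        cases s
        simp only at hp
        rw [hp]
      rw [← this]
      exact List.mem_cons_self
    obtain ⟨κ, hκ, h1⟩ := hStp z hz e n s L' hn h hL' hcr
    obtain ⟨M', κ', hκ', g1, g2, g3, g4⟩ := ih hok' hn'
      (fun p i hp => hal p i (List.mem_cons_of_mem _ hp)) (stp s L) (stp s L')
      (sum_gd_stp hG s L hL) (sum_gd_stp hG s L' hL') (sum_cg_stp hG s L L' hc)
    refine ⟨M', κ * κ', ?_, g1, g2, g3, ?_⟩
    · rw [norm_mul, hκ, hκ', one_mul]
    · change runU z K (opU z s (sm e n L')) = _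
      rw [h1, map_smul, g4, smul_smul]
  | @tw n D K a w k h hw hT ih =>
    intro hok hn hal L L' hL hL' hc
    obtain ⟨κ, hκ, h1⟩ := hF z hz a w k hw
    obtain ⟨σ, hσ, h2⟩ := hTR n a w hn hw h
    have hgd : GdL (L'.map fun q => (q.1, (xR a w)^[k.natAbs] q.2)) := by
      intro q hq
      rw [List.mem_map] at hq
      obtain ⟨q0, h0, rfl⟩ := hq
      exact sum_xR_gd hG a w hw k.natAbs q0.1 q0.2 (hL' q0 h0)
    obtain ⟨M', κ', hκ', g1, g2, g3, g4⟩ := ih hok hn hal L
      (L'.map fun q => (q.1, (xR a w)^[k.natAbs] q.2)) hL hgd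
      (sum_cg_xR hG hC a w k.natAbs hw L L' hc hL')
    refine ⟨M', κ * (σ : ℂ) ^ k.natAbs * κ', ?_, g1, g2, g3, ?_⟩
    · have h3 : ‖(σ : ℂ)‖ = 1 := by
        rcases hσ with rfl | rfl <;> simp
      rw [norm_mul, norm_mul, norm_pow, hκ, hκ', h3, one_pow, one_mul, one_mul]
    · rw [sum_runU_append, h1, sum_blocks e n a w σ h2, map_smul, map_smul, g4, smul_smul,
        smul_smul]

end Pool.TWI
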