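import Pool.Agent.TWI.StO

set_option autoImplicit false

namespace Pool.TWI

open Pool.Agent.ARB
open Pool.Agent.Helper2 (Slice bracket evalAt loopVal)

private theorem te_gm (j k : ℕ) : gm j (dl k) = if k = j then 1 else 0 := by
  unfold gm dl
  rw [Finsupp.lapply_apply, Finsupp.single_apply]

private theorem te_hom {V : Type} [AddCommGroup V] [Module ℂ V] (f g : Gp →ₗ[ℂ] V)
    (h : ∀ j, f (dl j) = g (dl j)) : f = g := by
  refine Finsupp.lhom_ext' fun j => LinearMap.ext_ring ?_
  exact h j

private theorem te_lm (f : ℕ → Gp) (j : ℕ) : lm f (dl j) = f j := by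
  unfold lm dl
  rw [Finsupp.linearCombination_single, one_smul]

private theorem te_piB (j : ℕ) : piB (dl j) = if j % 2 = 0 then dl j else 0 := te_lm _ j

private theorem te_piW (j : ℕ) : piW (dl j) = if j % 2 = 0 then 0 else dl j := te_lm _ j

private theorem te_ph (i j : ℕ) :
    ph i (dl j) = (if j = i then 1 else 0) - (if j = i + 2 then 1 else 0) := by
  unfold ph
  rw [LinearMap.sub_apply, te_gm, te_gm]

private theorem te_JJ (j : ℕ) :
    JJ (dl j) = (if j = 0 then 0 else gm (j - 1)) - gm (j + 1) := by
  unfold JJ dl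
  rw [Finsupp.linearCombination_single, one_smul]

private theorem te_black (i : ℕ) (hi : i % 2 = 1) (b : Fk) (hb : mp piB b = b) :
    ct (ph i) b = 0 := by
  rw [← hb, ct_mp]
  have h : ph i ∘ₗ piB = 0 := by
    refine te_hom _ _ fun j => ?_
    rw [LinearMap.comp_apply, te_piB, LinearMap.zero_apply]
    split_ifs with h1
    · rw [te_ph, if_neg (by omega), if_neg (by omega), sub_zero]
    · exact map_zero _
  rw [h, ct_zero, map_zero]

private theorem te_white (i : ℕ) (hi : i % 2 = 0) (y : Fk) (hy : mp piW y = y) :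
    ct (ph i) y = 0 := by
  rw [← hy, ct_mp]
  have h : ph i ∘ₗ piW = 0 := by
    refine te_hom _ _ fun j => ?_
    rw [LinearMap.comp_apply, te_piW, LinearMap.zero_apply]
    split_ifs with h1
    · exact map_zero _
    · rw [te_ph, if_neg (by omega), if_neg (by omega), sub_zero]
  rw [h, ct_zero, map_zero]

private theorem te_KK_white (b : Fk) (y : Fk) (hy : mp piW y = y) :
    mp piW (KK JJ b y) = KK JJ b y := by
  have h1 : KK JJ b y = mp piW (KK ((LinearMap.lcomp ℂ ℂ piW) ∘ₗ JJ) b y) := by
    conv_lhs => rw [← hy]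
    exact KK_mp JJ piW _ (fun c => rfl) b y
  have h2 : piW ∘ₗ piW = piW := by
    refine te_hom _ _ fun j => ?_
    rw [LinearMap.comp_apply, te_piW]
    split_ifs with h3
    · exact map_zero _
    · rw [te_piW, if_neg h3]
  rw [h1, mp_mp, h2]

theorem thm_TE (hO : St_Om) : St_TE := by
  intro n i b hn hi hb
  have hw : mp piW (KK JJ b (Om n)) = KK JJ b (Om n) := te_KK_white b (Om n) (hO.2.2.2.2 n)
  change vc (dl (i + 1)) * ct (ph i) (rv b * KK JJ b (Om n)) = _
  unfold Th xE
  rw [ct_prod, ct_rv]
  rcases Nat.mod_two_eq_zero_or_one i with h0 | h1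
  · rw [te_white i h0 _ hw, mul_zero, add_zero, if_neg (by omega), if_neg (by omega),
      ← mul_assoc, vc_mul']
    have hz : vc (dl (i + 1)) * Om n = 0 := hO.2.2.1 n (i + 1) (by omega) (by omega)
    have h2 := KK_mul JJ (dl (i + 1)) (-ph i) (fun c => by
      have : -ph i = (LinearMap.applyₗ (dl (i + 1))) ∘ₗ JJ := by
        refine te_hom _ _ fun j => ?_
        rw [LinearMap.neg_apply, te_ph, LinearMap.comp_apply, LinearMap.applyₗ_apply_apply, te_JJ,
          LinearMap.sub_apply, te_gm]
        by_cases h3 : j = 0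
        · subst h3
          rw [if_pos rfl, LinearMap.zero_apply]
          by_cases h4 : i = 0
          · subst h4
            simp
          · rw [if_neg (by omega), if_neg (by omega), if_neg (by omega)]
            simp
        · rw [if_neg h3, te_gm]
          by_cases h4 : j = i
          · rw [if_pos h4, if_neg (by omega), if_neg (by omega), if_pos (by omega)]
            simp
          · by_cases h5 : j = i + 2
            · rw [if_neg h4, if_pos h5, if_pos (by omega), if_neg (by omega)]
              simp
            · rw [if_neg h4, if_neg h5, if_neg (by omega), if_neg (by omega)]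
              simp
      rw [this]
      rfl) (iv b) (Om n)
    rw [hz, map_zero, iv_iv] at h2
    have h3 : iv (ct (-ph i) (iv b)) = ct (ph i) b := by
      rw [ct_neg, map_neg, iv_ct, iv_iv, neg_neg]
    rw [h3] at h2
    have h4 : vc (dl (i + 1)) * KK JJ b (Om n) = -KK JJ (ct (ph i) b) (Om n) :=
      eq_neg_of_add_eq_zero_left h2.symm
    rw [mul_assoc, h4, mul_neg, neg_smul, one_smul]
  · rw [te_black i h1 b hb, map_zero, map_zero, zero_mul, zero_add, if_pos h1, if_pos h1,
      ← mul_assoc, vc_mul', one_smul, rv_mul, rv_vc, KK_vc]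
    have h2 : JJ (dl (i + 1)) = ph i := by
      rw [te_JJ, if_neg (by omega), Nat.add_sub_cancel]
      rfl
    rw [h2]

end Pool.TWI
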