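import Pool.Agent.TWI.StO

/-!
# TWI, TN0: caps at even positions and squares
-/

set_option autoImplicit false

namespace Pool.TWI

private theorem tn0_ext {V : Type} [AddCommGroup V] [Module ℂ V] {f g : Gp →ₗ[ℂ] V}
    (h : ∀ j, f (dl j) = g (dl j)) : f = g := by
  apply Finsupp.lhom_ext'
  intro j
  apply LinearMap.ext_ring
  exact h j

private theorem tn0_lm (f : ℕ → Gp) (j : ℕ) : lm f (dl j) = f j := by
  unfold lm dl
  rw [Finsupp.linearCombination_single, one_smul]

private theorem tn0_gm (j l : ℕ) : gm j (dl l) = if l = j then 1 else 0 := by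
  unfold gm dl
  rw [Finsupp.lapply_apply, Finsupp.single_apply]

private theorem tn0_ph (i l : ℕ) :
    ph i (dl l) = (if l = i then 1 else 0) - if l = i + 2 then 1 else 0 := by
  unfold ph
  rw [LinearMap.sub_apply, tn0_gm, tn0_gm]

private theorem tn0_J (j l : ℕ) :
    JJ (dl j) (dl l) = (if j = l + 1 then 1 else 0) - if l = j + 1 then 1 else 0 := by
  have h1 : JJ (dl j) = (if j = 0 then 0 else gm (j - 1)) - gm (j + 1) := by
    unfold JJ dl
    rw [Finsupp.linearCombination_single, one_smul]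
  rw [h1, LinearMap.sub_apply, tn0_gm]
  congr 1
  by_cases hj : j = 0
  · rw [if_pos hj, LinearMap.zero_apply, if_neg (by omega)]
  · rw [if_neg hj, tn0_gm]
    by_cases hl : l = j - 1
    · rw [if_pos hl, if_pos (by omega)]
    · rw [if_neg hl, if_neg (by omega)]

private theorem tn0_ins (i j : ℕ) : insM i (dl j) =
    if j < i then dl j else if j = i then dl i + dl (i + 2) else dl (j + 2) := tn0_lm _ j

private theorem tn0_del (i j : ℕ) : delM i (dl j) =
    if j ≤ i then dl j else if j ≤ i + 2 then 0 else dl (j - 2) := tn0_lm _ j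

private theorem tn0_W (j : ℕ) : piW (dl j) = if j % 2 = 0 then 0 else dl j := tn0_lm _ j

private theorem tn0_WW : piW ∘ₗ piW = piW := by
  apply tn0_ext
  intro j
  rw [LinearMap.comp_apply, tn0_W]
  split_ifs with h
  · rw [map_zero]
  · rw [tn0_W, if_neg h]

private theorem tn0_phW {i : ℕ} (hi : i % 2 = 0) : ph i ∘ₗ piW = 0 := by
  apply tn0_ext
  intro j
  rw [LinearMap.comp_apply, tn0_W, LinearMap.zero_apply]
  split_ifs with h
  · rw [map_zero]
  · rw [tn0_ph, if_neg (by omega), if_neg (by omega), sub_zero]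

private theorem tn0_di (i : ℕ) : delM i ∘ₗ insM i = LinearMap.id := by
  apply tn0_ext
  intro j
  rw [LinearMap.comp_apply, LinearMap.id_apply, tn0_ins]
  split_ifs with h1 h2
  · rw [tn0_del, if_pos h1.le]
  · rw [map_add, tn0_del, tn0_del, if_pos le_rfl, if_neg (by omega), if_pos le_rfl, add_zero, h2]
  · rw [tn0_del, if_neg (by omega), if_neg (by omega), Nat.add_sub_cancel]

/-- the form after a cup, on white vectors -/
private theorem tn0_JI {i : ℕ} (hi : i % 2 = 0) :
    piW.dualMap ∘ₗ ((insM i).dualMap ∘ₗ JJ) =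
      piW.dualMap ∘ₗ (JJ ∘ₗ delM i + (ph i).smulRight (gm (i + 1))) := by
  apply tn0_ext
  intro j
  apply tn0_ext
  intro l
  show JJ (dl j) (insM i (piW (dl l))) =
    (JJ (delM i (dl j)) + ph i (dl j) • gm (i + 1)) (piW (dl l))
  rw [tn0_W]
  by_cases hl : l % 2 = 0
  · rw [if_pos hl, map_zero, map_zero, map_zero]
  rw [if_neg hl, tn0_ins, LinearMap.add_apply, LinearMap.smul_apply, tn0_gm, tn0_ph, tn0_del]
  have hli : l ≠ i := by omega
  by_cases h1 : l < i
  · rw [if_pos h1, if_neg (show ¬ l = i + 1 by omega), smul_zero, add_zero]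
    by_cases h2 : j ≤ i
    · rw [if_pos h2]
    · rw [if_neg h2]
      by_cases h3 : j ≤ i + 2
      · rw [if_pos h3, map_zero, LinearMap.zero_apply, tn0_J, if_neg (by omega),
          if_neg (by omega), sub_zero]
      · rw [if_neg h3, tn0_J, tn0_J, if_neg (by omega), if_neg (by omega), if_neg (by omega),
          if_neg (by omega)]
  · rw [if_neg h1, if_neg hli]
    by_cases h2 : j ≤ i
    · rw [if_pos h2, tn0_J, tn0_J, if_neg (show ¬ j = l + 2 + 1 by omega),
        if_neg (show ¬ l + 2 = j + 1 by omega), if_neg (show ¬ j = l + 1 by omega),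
        if_neg (show ¬ j = i + 2 by omega), sub_zero, sub_zero, zero_sub, smul_eq_mul]
      by_cases h3 : l = i + 1
      · rw [if_pos h3, mul_one]
        by_cases h4 : j = i
        · rw [if_pos h4, if_pos (by omega), neg_add_cancel]
        · rw [if_neg h4, if_neg (by omega), neg_zero, add_zero]
      · rw [if_neg h3, mul_zero, if_neg (by omega), neg_zero, add_zero]
    · rw [if_neg h2, if_neg (show ¬ j = i by omega), zero_sub, smul_eq_mul]
      by_cases h3 : j ≤ i + 2
      · rw [if_pos h3, map_zero, LinearMap.zero_apply, zero_add, tn0_J,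
          if_neg (show ¬ j = l + 2 + 1 by omega), zero_sub]
        by_cases h4 : j = i + 2
        · rw [if_pos h4]
          by_cases h5 : l = i + 1
          · rw [if_pos h5, if_pos (by omega), mul_one]
          · rw [if_neg h5, if_neg (by omega), mul_zero, neg_zero]
        · rw [if_neg h4, neg_zero, zero_mul, if_neg (by omega), neg_zero]
      · rw [if_neg h3, if_neg (show ¬ j = i + 2 by omega), neg_zero, zero_mul, add_zero, tn0_J,
          tn0_J]
        congr 1
        · by_cases h4 : j = l + 2 + 1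
          · rw [if_pos h4, if_pos (by omega)]
          · rw [if_neg h4, if_neg (by omega)]
        · by_cases h4 : l + 2 = j + 1
          · rw [if_pos h4, if_pos (by omega)]
          · rw [if_neg h4, if_neg (by omega)]

/-- two forms which agree on white vectors -/
private theorem tn0_white (J J' : Gp →ₗ[ℂ] Module.Dual ℂ Gp)
    (h : piW.dualMap ∘ₗ J = piW.dualMap ∘ₗ J') (b y : Fk) (hy : mp piW y = y) :
    KK J b y = KK J' b y := by
  have h1 := KK_mp J piW (piW.dualMap ∘ₗ J) (fun c => rfl) b y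
  have h2 := KK_mp J' piW (piW.dualMap ∘ₗ J') (fun c => rfl) b y
  rw [hy] at h1 h2
  rw [h1, h2, h]

theorem thm_TN0 (hO : St_Om) : St_TN0 := by
  intro n i hn hi hin
  obtain ⟨m, rfl⟩ : ∃ m, n = m + 2 := ⟨n - 2, by omega⟩
  obtain ⟨-, hO2, -, -, hO5⟩ := hO
  obtain ⟨σ, hσ, hOm⟩ := hO2 m i (by omega) hi (by omega)
  have hσc : (σ : ℂ) = 1 ∨ (σ : ℂ) = -1 := by
    rcases hσ with h | h
    · left; rw [h]; norm_num
    · right; rw [h]; norm_num
  refine ⟨-σ, by omega, ?_⟩
  intro τ b hτ hiv hb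
  have hττ : (τ : ℂ) * τ = 1 := by
    rcases hτ with h | h
    · rw [h]; norm_num
    · rw [h]; norm_num
  rw [Nat.add_sub_cancel]
  obtain ⟨c, hc⟩ : ∃ c : Fk, c = xN i b := ⟨_, rfl⟩
  have hc1 : c = mp (delM i) (ct (ph i) b) := by
    rw [hc]
    unfold xN
    rw [if_neg (by omega)]
  have hivc : iv c = -((τ : ℂ) • c) := by
    rw [hc1, ← mp_iv, iv_ct, hiv, map_smul, map_neg, map_smul]
  obtain ⟨y, hy⟩ : ∃ y : Fk, y = KK JJ b (Om (m + 2)) := ⟨_, rfl⟩
  -- `y` is white
  have hyW : mp piW y = y := by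
    have h1 := KK_mp JJ piW (piW.dualMap ∘ₗ JJ) (fun c => rfl) b (Om (m + 2))
    rw [hO5] at h1
    rw [hy, h1, mp_mp, tn0_WW]
  have hcty : ct (ph i) y = 0 := by
    rw [← hyW, ct_mp, tn0_phW hi, ct_zero, map_zero]
  have hct : ct (ph i) (Th (m + 2) b) = iv (rv (ct (ph i) b)) * y := by
    unfold Th
    rw [← hy, ct_prod, hcty, mul_zero, add_zero, ct_rv]
  rw [hct, mp_mul, mp_iv, mp_rv, ← hc1]
  -- the second factor
  have hpsi : ∀ u : Gp, (-ph i) u = JJ u (dl (i + 1)) := by
    intro u
    have h1 : (-ph i) = JJ.flip (dl (i + 1)) := by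
      apply tn0_ext
      intro j
      rw [LinearMap.flip_apply, LinearMap.neg_apply, tn0_ph, tn0_J, neg_sub]
      congr 1
      by_cases h : j = i
      · rw [if_pos h, if_pos (by omega)]
      · rw [if_neg h, if_neg (by omega)]
    rw [h1, LinearMap.flip_apply]
  have hdv : delM i (dl (i + 1)) = 0 := by
    rw [tn0_del, if_neg (by omega), if_pos (by omega)]
  have hcta : ct (ph i) (iv (ct (ph i) b)) = 0 := by
    have h1 := iv_ct (ph i) (ct (ph i) b)
    rw [ct_ct, map_zero] at h1
    exact (neg_eq_zero.mp h1.symm)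
  have hdy : mp (delM i) y = ((σ : ℂ) * τ) • KK JJ c (Om m) := by
    have h1 : iv (ct (-ph i) b) = -iv (ct (ph i) b) := by rw [ct_neg, map_neg]
    rw [hy, hOm, map_smul, map_smul, KK_mul JJ (dl (i + 1)) (-ph i) hpsi, map_add, mp_mul, mp_vc,
      hdv, map_zero, zero_mul, zero_add, h1, KK_neg, map_neg,
      KK_mp JJ (insM i) ((insM i).dualMap ∘ₗ JJ) (fun c => rfl), mp_mp, tn0_di, mp_id,
      tn0_white _ _ (tn0_JI hi) _ _ (hO5 m), KK_rank, hcta, map_zero, LinearMap.zero_apply,
      map_zero, add_zero, ← KK_comp, mp_iv, ← hc1, hivc, KK_neg, KK_smul, neg_neg, smul_smul]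
  have hrc : iv (rv c) = -((τ : ℂ) • rv c) := by
    rw [← rv_iv, hivc, map_neg, map_smul]
  rw [hdy, hrc]
  unfold Th
  rw [← hc, neg_mul, smul_mul_assoc, mul_smul_comm, smul_smul, ← neg_smul]
  congr 1
  push_cast
  linear_combination (-(σ : ℂ)) * hττ

end Pool.TWI
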