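import Pool.Agent.TWI.StO

/-!
# TWI, TN1: caps at odd positions and squares
-/

set_option autoImplicit false

namespace Pool.TWI

private theorem tn1_ext {V : Type} [AddCommGroup V] [Module ℂ V] {f g : Gp →ₗ[ℂ] V}
    (h : ∀ j, f (dl j) = g (dl j)) : f = g := by
  apply Finsupp.lhom_ext'
  intro j
  apply LinearMap.ext_ring
  exact h j

private theorem tn1_lm (f : ℕ → Gp) (j : ℕ) : lm f (dl j) = f j := by
  unfold lm dl
  rw [Finsupp.linearCombination_single, one_smul]

private theorem tn1_gm (j l : ℕ) : gm j (dl l) = if l = j then 1 else 0 := by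
  unfold gm dl
  rw [Finsupp.lapply_apply, Finsupp.single_apply]

private theorem tn1_ph (i l : ℕ) :
    ph i (dl l) = (if l = i then 1 else 0) - if l = i + 2 then 1 else 0 := by
  unfold ph
  rw [LinearMap.sub_apply, tn1_gm, tn1_gm]

private theorem tn1_J (j l : ℕ) :
    JJ (dl j) (dl l) = (if j = l + 1 then 1 else 0) - if l = j + 1 then 1 else 0 := by
  have h1 : JJ (dl j) = (if j = 0 then 0 else gm (j - 1)) - gm (j + 1) := by
    unfold JJ dl
    rw [Finsupp.linearCombination_single, one_smul]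
  rw [h1, LinearMap.sub_apply, tn1_gm]
  congr 1
  by_cases hj : j = 0
  · rw [if_pos hj, LinearMap.zero_apply, if_neg (by omega)]
  · rw [if_neg hj, tn1_gm]
    by_cases hl : l = j - 1
    · rw [if_pos hl, if_pos (by omega)]
    · rw [if_neg hl, if_neg (by omega)]

private theorem tn1_ins (i j : ℕ) : insM i (dl j) =
    if j < i then dl j else if j = i then dl i + dl (i + 2) else dl (j + 2) := tn1_lm _ j

private theorem tn1_del (i j : ℕ) : delM i (dl j) =
    if j ≤ i then dl j else if j ≤ i + 2 then 0 else dl (j - 2) := tn1_lm _ j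

private theorem tn1_B (j : ℕ) : piB (dl j) = if j % 2 = 0 then dl j else 0 := tn1_lm _ j

private theorem tn1_di (i : ℕ) : delM i ∘ₗ insM i = LinearMap.id := by
  apply tn1_ext
  intro j
  rw [LinearMap.comp_apply, LinearMap.id_apply, tn1_ins]
  split_ifs with h1 h2
  · rw [tn1_del, if_pos h1.le]
  · rw [map_add, tn1_del, tn1_del, if_pos le_rfl, if_neg (by omega), if_pos le_rfl, add_zero, h2]
  · rw [tn1_del, if_neg (by omega), if_neg (by omega), Nat.add_sub_cancel]

private theorem tn1_phB {i : ℕ} (hi : i % 2 = 1) : ph i ∘ₗ piB = 0 := by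
  apply tn1_ext
  intro j
  rw [LinearMap.comp_apply, tn1_B, LinearMap.zero_apply]
  split_ifs with h
  · rw [tn1_ph, if_neg (by omega), if_neg (by omega), sub_zero]
  · rw [map_zero]

private theorem tn1_if {p q : Prop} [Decidable p] [Decidable q] (h : p ↔ q) :
    (if p then (1 : ℂ) else 0) = if q then 1 else 0 := by
  by_cases hp : p
  · rw [if_pos hp, if_pos (h.mp hp)]
  · rw [if_neg hp, if_neg fun hq => hp (h.mpr hq)]

/-- the form after a cup, for black vectors -/
private theorem tn1_JI {i : ℕ} (hi : i % 2 = 1) :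
    ((insM i).dualMap ∘ₗ JJ) ∘ₗ piB = (JJ ∘ₗ delM i) ∘ₗ piB := by
  apply tn1_ext
  intro j
  apply tn1_ext
  intro l
  show JJ (piB (dl j)) (insM i (dl l)) = JJ (delM i (piB (dl j))) (dl l)
  rw [tn1_B]
  by_cases hj : j % 2 = 0
  swap
  · rw [if_neg hj, map_zero, map_zero, map_zero, LinearMap.zero_apply, LinearMap.zero_apply]
  rw [if_pos hj, tn1_ins, tn1_del]
  by_cases h1 : l < i
  · rw [if_pos h1]
    by_cases h2 : j ≤ i
    · rw [if_pos h2]
    · rw [if_neg h2]
      by_cases h3 : j ≤ i + 2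
      · rw [if_pos h3, map_zero, LinearMap.zero_apply, tn1_J, if_neg (by omega),
          if_neg (by omega), sub_zero]
      · rw [if_neg h3, tn1_J, tn1_J, if_neg (by omega), if_neg (by omega), if_neg (by omega),
          if_neg (by omega)]
  rw [if_neg h1]
  by_cases h4 : l = i
  · rw [if_pos h4, map_add, tn1_J, tn1_J]
    have e1 : (if j = i + 1 then (1 : ℂ) else 0) = if i + 2 = j + 1 then 1 else 0 :=
      tn1_if (by omega)
    rw [e1]
    by_cases h2 : j ≤ i
    · rw [if_pos h2, tn1_J, if_neg (show ¬ j = i + 2 + 1 by omega),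
        if_neg (show ¬ j = l + 1 by omega), h4]
      ring
    · rw [if_neg h2, if_neg (show ¬ i = j + 1 by omega)]
      by_cases h3 : j ≤ i + 2
      · rw [if_pos h3, map_zero, LinearMap.zero_apply, if_neg (show ¬ j = i + 2 + 1 by omega)]
        ring
      · rw [if_neg h3, tn1_J, if_neg (show ¬ l = j - 2 + 1 by omega)]
        have e2 : (if j = i + 2 + 1 then (1 : ℂ) else 0) = if j - 2 = l + 1 then 1 else 0 :=
          tn1_if (by omega)
        rw [e2]
        ring
  · rw [if_neg h4]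
    by_cases h2 : j ≤ i
    · rw [if_pos h2, tn1_J, tn1_J, if_neg (by omega), if_neg (by omega), if_neg (by omega),
        if_neg (by omega)]
    · rw [if_neg h2]
      by_cases h3 : j ≤ i + 2
      · rw [if_pos h3, map_zero, LinearMap.zero_apply, tn1_J, if_neg (by omega),
          if_neg (by omega), sub_zero]
      · rw [if_neg h3, tn1_J, tn1_J]
        congr 1
        · exact tn1_if (by omega)
        · exact tn1_if (by omega)

theorem thm_TN1 (hO : St_Om) : St_TN1 := by
  intro n i hn hi hin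
  obtain ⟨m, rfl⟩ : ∃ m, n = m + 2 := ⟨n - 2, by omega⟩
  obtain ⟨hO1, -, -, -, -⟩ := hO
  obtain ⟨σ, hσ, hOm⟩ := hO1 m i (by omega) hi (by omega)
  refine ⟨σ, hσ, ?_⟩
  intro τ b hτ hiv hb
  have hττ : (τ : ℂ) * τ = 1 := by
    rcases hτ with h | h
    · rw [h]; norm_num
    · rw [h]; norm_num
  rw [Nat.add_sub_cancel]
  obtain ⟨c, hc⟩ : ∃ c : Fk, c = xN i b := ⟨_, rfl⟩
  have hc1 : c = mp (delM i) b := by
    rw [hc]
    unfold xN
    rw [if_pos hi]
  have hivc : iv c = (τ : ℂ) • c := by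
    rw [hc1, ← mp_iv, hiv, map_smul]
  have hcb : ct (ph i) b = 0 := by
    rw [← hb, ct_mp, tn1_phB hi, ct_zero, map_zero]
  have hK : KK ((insM i).dualMap ∘ₗ JJ) b (Om m) = KK JJ c (Om m) := by
    have h1 := KK_comp ((insM i).dualMap ∘ₗ JJ) piB b (Om m)
    have h2 := KK_comp (JJ ∘ₗ delM i) piB b (Om m)
    rw [hb] at h1 h2
    rw [h1, tn1_JI hi, ← h2, ← KK_comp, ← hc1]
  unfold Th
  rw [ct_prod, ct_rv, hcb, map_zero, map_zero, zero_mul, zero_add, ct_KK, hOm, hiv, KK_smul,
    map_smul, KK_mp JJ (insM i) ((insM i).dualMap ∘ₗ JJ) (fun c => rfl), mul_smul_comm,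
    mul_smul_comm, map_smul, map_smul, mp_mul, mp_mp, tn1_di, mp_id, hK, mp_iv, mp_rv, ← hc1,
    ← rv_iv, hivc, map_smul, smul_mul_assoc, smul_smul, smul_smul, ← hc]
  congr 1
  linear_combination (σ : ℂ) * hττ

end Pool.TWI
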