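import Pool.Agent.TWI.StO

/-!
# TWI [TR]: reflections and the square map
-/

set_option autoImplicit false

namespace Pool.TWI

theorem thm_TR (hJR : St_JR) (hOm : St_Om) : St_TR := by
  intro n a w hn hw haw
  obtain ⟨σ, hσ, hΩ⟩ := hOm.2.2.2.1 n a w hn hw haw
  refine ⟨σ, hσ, fun b => ?_⟩
  have h1 : mp (Rm a w) (KK JJ b (Om n)) = (σ : ℂ) • KK JJ (mp (Rm a w) b) (Om n) := by
    have h2 : KK JJ (mp (Rm a w) b) (mp (Rm a w) (Om n)) = mp (Rm a w) (KK JJ b (Om n)) := by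
      rw [KK_comp]
      refine KK_mp (JJ ∘ₗ Rm a w) (Rm a w) JJ (fun c => ?_) b (Om n)
      refine LinearMap.ext fun x => ?_
      exact ((hJR a w hw).1 c x).symm
    rw [← h2, hΩ, map_smul]
  unfold Th xR
  rw [mp_mul, mp_rv, h1, mul_smul_comm]

end Pool.TWI
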