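import Pool.Agent.TWI.StO

/-!
# TWI, TU0: cups at even positions and squares
-/

set_option autoImplicit false

namespace Pool.TWI

private theorem tu0_ext {V : Type} [AddCommGroup V] [Module ℂ V] {f g : Gp →ₗ[ℂ] V}
    (h : ∀ j, f (dl j) = g (dl j)) : f = g := by
  apply Finsupp.lhom_ext'
  intro j
  apply LinearMap.ext_ring
  exact h j

private theorem tu0_lm (f : ℕ → Gp) (j : ℕ) : lm f (dl j) = f j := by
  unfold lm dl
  rw [Finsupp.linearCombination_single, one_smul]

private theorem tu0_gm (j l : ℕ) : gm j (dl l) = if l = j then 1 else 0 := by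
  unfold gm dl
  rw [Finsupp.lapply_apply, Finsupp.single_apply]

private theorem tu0_ph (i l : ℕ) :
    ph i (dl l) = (if l = i then 1 else 0) - if l = i + 2 then 1 else 0 := by
  unfold ph
  rw [LinearMap.sub_apply, tu0_gm, tu0_gm]

private theorem tu0_J (j l : ℕ) :
    JJ (dl j) (dl l) = (if j = l + 1 then 1 else 0) - if l = j + 1 then 1 else 0 := by
  have h1 : JJ (dl j) = (if j = 0 then 0 else gm (j - 1)) - gm (j + 1) := by
    unfold JJ dl
    rw [Finsupp.linearCombination_single, one_smul]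
  rw [h1, LinearMap.sub_apply, tu0_gm]
  congr 1
  by_cases hj : j = 0
  · rw [if_pos hj, LinearMap.zero_apply, if_neg (by omega)]
  · rw [if_neg hj, tu0_gm]
    by_cases hl : l = j - 1
    · rw [if_pos hl, if_pos (by omega)]
    · rw [if_neg hl, if_neg (by omega)]

private theorem tu0_ins (i j : ℕ) : insM i (dl j) =
    if j < i then dl j else if j = i then dl i + dl (i + 2) else dl (j + 2) := tu0_lm _ j

private theorem tu0_del (i j : ℕ) : delM i (dl j) =
    if j ≤ i then dl j else if j ≤ i + 2 then 0 else dl (j - 2) := tu0_lm _ j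

private theorem tu0_B (j : ℕ) : piB (dl j) = if j % 2 = 0 then dl j else 0 := tu0_lm _ j

private theorem tu0_W (j : ℕ) : piW (dl j) = if j % 2 = 0 then 0 else dl j := tu0_lm _ j

private theorem tu0_if {p q : Prop} [Decidable p] [Decidable q] (h : p ↔ q) :
    (if p then (1 : ℂ) else 0) = if q then 1 else 0 := by
  by_cases hp : p
  · rw [if_pos hp, if_pos (h.mp hp)]
  · rw [if_neg hp, if_neg fun hq => hp (h.mpr hq)]

private theorem tu0_pi (i : ℕ) : ph i ∘ₗ insM i = 0 := by
  apply tu0_ext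
  intro j
  rw [LinearMap.comp_apply, LinearMap.zero_apply, tu0_ins]
  split_ifs with h1 h2
  · rw [tu0_ph, if_neg (by omega), if_neg (by omega), sub_zero]
  · rw [map_add, tu0_ph, tu0_ph, if_pos rfl, if_neg (by omega), if_neg (by omega), if_pos rfl]
    ring
  · rw [tu0_ph, if_neg (by omega), if_neg (by omega), sub_zero]

/-- the form after a cup, for black and white vectors -/
private theorem tu0_JI {i : ℕ} (hi : i % 2 = 0) :
    (piW.dualMap ∘ₗ (((insM i).dualMap ∘ₗ JJ) ∘ₗ insM i)) ∘ₗ piB =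
      (piW.dualMap ∘ₗ JJ) ∘ₗ piB := by
  apply tu0_ext
  intro j
  apply tu0_ext
  intro l
  show JJ (insM i (piB (dl j))) (insM i (piW (dl l))) = JJ (piB (dl j)) (piW (dl l))
  rw [tu0_B, tu0_W]
  by_cases hj : j % 2 = 0
  swap
  · rw [if_neg hj, map_zero, map_zero, LinearMap.zero_apply, LinearMap.zero_apply]
  rw [if_pos hj]
  by_cases hl : l % 2 = 0
  · rw [if_pos hl, map_zero, map_zero, map_zero]
  rw [if_neg hl, tu0_ins, tu0_ins]
  by_cases h1 : l < i
  · rw [if_pos h1]
    by_cases h2 : j < i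
    · rw [if_pos h2]
    · rw [if_neg h2]
      by_cases h3 : j = i
      · rw [if_pos h3, map_add, LinearMap.add_apply, tu0_J, tu0_J, tu0_J,
          if_neg (show ¬ l = i + 1 by omega), if_neg (show ¬ i + 2 = l + 1 by omega),
          if_neg (show ¬ l = i + 2 + 1 by omega), if_neg (show ¬ l = j + 1 by omega), h3]
        ring
      · rw [if_neg h3, tu0_J, tu0_J, if_neg (by omega), if_neg (by omega), if_neg (by omega),
          if_neg (by omega)]
  rw [if_neg h1, if_neg (show ¬ l = i by omega)]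
  by_cases h2 : j < i
  · rw [if_pos h2, tu0_J, tu0_J, if_neg (by omega), if_neg (by omega), if_neg (by omega),
      if_neg (by omega)]
  · rw [if_neg h2]
    by_cases h3 : j = i
    · rw [if_pos h3, map_add, LinearMap.add_apply, tu0_J, tu0_J, tu0_J,
        if_neg (show ¬ i = l + 2 + 1 by omega), if_neg (show ¬ l + 2 = i + 1 by omega),
        if_neg (show ¬ i + 2 = l + 2 + 1 by omega), if_neg (show ¬ j = l + 1 by omega)]
      have e1 : (if l + 2 = i + 2 + 1 then (1 : ℂ) else 0) = if l = j + 1 then 1 else 0 :=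
        tu0_if (by omega)
      rw [e1]
      ring
    · rw [if_neg h3, tu0_J, tu0_J]
      congr 1
      · exact tu0_if (by omega)
      · exact tu0_if (by omega)

theorem thm_TU0 (hO : St_Om) : St_TU0 := by
  intro n i hn hi hin
  obtain ⟨-, hO2, -, -, hO5⟩ := hO
  obtain ⟨σ, hσ, hOm⟩ := hO2 n i hn hi hin
  have hσσ : (σ : ℂ) * σ = 1 := by
    rcases hσ with h | h
    · rw [h]; norm_num
    · rw [h]; norm_num
  refine ⟨σ, hσ, ?_⟩
  intro τ b hτ hiv hb
  obtain ⟨c, hc⟩ : ∃ c : Fk, c = xU i b := ⟨_, rfl⟩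
  have hc1 : c = mp (insM i) b := by
    rw [hc]
    unfold xU
    rw [if_neg (by omega)]
  have hivc : iv c = (τ : ℂ) • c := by
    rw [hc1, ← mp_iv, hiv, map_smul]
  have hpsi : ∀ u : Gp, (-ph i) u = JJ u (dl (i + 1)) := by
    intro u
    have h1 : (-ph i) = JJ.flip (dl (i + 1)) := by
      apply tu0_ext
      intro j
      rw [LinearMap.flip_apply, LinearMap.neg_apply, tu0_ph, tu0_J, neg_sub]
      congr 1
      exact tu0_if (by omega)
    rw [h1, LinearMap.flip_apply]
  have hcc : ct (-ph i) c = 0 := by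
    rw [ct_neg, hc1, ct_mp, tu0_pi, ct_zero, map_zero, neg_zero]
  -- the iterated contraction
  have hK : KK JJ c (mp (insM i) (Om n)) = mp (insM i) (KK JJ b (Om n)) := by
    rw [KK_mp JJ (insM i) ((insM i).dualMap ∘ₗ JJ) (fun c => rfl), hc1, KK_comp]
    congr 1
    have h1 := KK_mp (((insM i).dualMap ∘ₗ JJ) ∘ₗ insM i) piW
      (piW.dualMap ∘ₗ (((insM i).dualMap ∘ₗ JJ) ∘ₗ insM i)) (fun c => rfl) b (Om n)
    have h2 := KK_mp JJ piW (piW.dualMap ∘ₗ JJ) (fun c => rfl) b (Om n)
    rw [hO5] at h1 h2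
    have h3 := KK_comp (piW.dualMap ∘ₗ (((insM i).dualMap ∘ₗ JJ) ∘ₗ insM i)) piB b (Om n)
    have h4 := KK_comp (piW.dualMap ∘ₗ JJ) piB b (Om n)
    rw [hb] at h3 h4
    rw [h1, h2, h3, h4, tu0_JI hi]
  have hT : Th (n + 2) c = ((σ : ℂ) * τ) • (rv c * (vc (dl (i + 1)) *
      mp (insM i) (KK JJ b (Om n)))) := by
    unfold Th
    rw [hOm, map_smul, KK_mul JJ (dl (i + 1)) (-ph i) hpsi, hcc, map_zero, map_zero,
      LinearMap.zero_apply, add_zero, hivc, KK_smul, hK, mul_smul_comm, mul_smul_comm,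
      mul_smul_comm, smul_smul]
  rw [← hc, hT]
  unfold Th
  rw [mp_mul, ← mul_assoc, vc_mul, mp_rv, ← hc1, ← rv_iv, hivc, map_smul, smul_mul_assoc,
    smul_mul_assoc, mul_assoc, smul_smul]
  congr 1
  linear_combination (-(τ : ℂ)) * hσσ

end Pool.TWI
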