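import Pool.Agent.TWI.StO

/-!
# TWI: cups on squares, odd case
-/

set_option autoImplicit false

namespace Pool.TWI

theorem tu1_lm (f : ℕ → Gp) (j : ℕ) : lm f (dl j) = f j := by
  unfold lm dl
  rw [Finsupp.linearCombination_single, one_smul]

theorem tu1_gm (k j : ℕ) : gm k (dl j) = if j = k then 1 else 0 := by
  unfold gm dl
  rw [Finsupp.lapply_apply, Finsupp.single_apply]

theorem tu1_single (j : ℕ) (a : ℂ) : (Finsupp.single j a : Gp) = a • dl j := by
  unfold dl
  rw [Finsupp.smul_single, smul_eq_mul, mul_one]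

theorem tu1_ext {V : Type} [AddCommGroup V] [Module ℂ V] (f g : Gp →ₗ[ℂ] V)
    (h : ∀ j, f (dl j) = g (dl j)) (x : Gp) : f x = g x := by
  have h1 : f = g := by
    apply Finsupp.lhom_ext
    intro j a
    rw [tu1_single, map_smul, map_smul, h]
  rw [h1]

theorem tu1_ins (i k : ℕ) (x : Gp) : gm k (insM i x) =
    if k ≤ i then gm k x else if k = i + 1 then 0 else gm (k - 2) x := by
  have h1 : gm k ∘ₗ insM i =
      if k ≤ i then gm k else if k = i + 1 then 0 else gm (k - 2) := by
    apply Finsupp.lhom_ext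
    intro j a
    rw [tu1_single, map_smul, map_smul]
    congr 1
    rw [LinearMap.comp_apply]
    unfold insM
    rw [tu1_lm]
    split_ifs <;> (try rw [map_add]) <;>
      (try rw [LinearMap.zero_apply]) <;> simp only [tu1_gm] <;> split_ifs <;>
      first
        | rfl
        | (exfalso; omega)
        | norm_num
  have h2 := congrArg (fun f : Module.Dual ℂ Gp => f x) h1
  simp only [LinearMap.comp_apply] at h2
  rw [h2]
  split_ifs
  · rfl
  · rw [LinearMap.zero_apply]
  · rfl

theorem tu1_JJ (j : ℕ) (x : Gp) :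
    JJ (dl j) x = (if j = 0 then 0 else gm (j - 1) x) - gm (j + 1) x := by
  unfold JJ
  have h1 : (Finsupp.linearCombination ℂ fun j => (if j = 0 then (0 : Module.Dual ℂ Gp) else
      gm (j - 1)) - gm (j + 1)) (dl j) = (if j = 0 then 0 else gm (j - 1)) - gm (j + 1) := by
    unfold dl
    rw [Finsupp.linearCombination_single, one_smul]
  rw [h1, LinearMap.sub_apply]
  split_ifs
  · rw [LinearMap.zero_apply]
  · rfl

theorem tu1_form (i : ℕ) (hi : i % 2 = 1) (c x : Gp) :
    JJ (insM i (piB c)) (insM i x) = JJ (piB c) x := by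
  have h1 : ∀ c : Gp, (LinearMap.lcomp ℂ ℂ (insM i) ∘ₗ JJ ∘ₗ insM i ∘ₗ piB) c
      = (JJ ∘ₗ piB) c := by
    apply tu1_ext
    intro j
    apply LinearMap.ext
    intro x
    show JJ (insM i (piB (dl j))) (insM i x) = JJ (piB (dl j)) x
    have h2 : piB (dl j) = if j % 2 = 0 then dl j else 0 := by
      unfold piB
      rw [tu1_lm]
    rw [h2]
    by_cases hj : j % 2 = 0
    · rw [if_pos hj]
      have h3 : insM i (dl j) = if j < i then dl j else dl (j + 2) := by
        unfold insM
        rw [tu1_lm]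
        by_cases h : j < i
        · rw [if_pos h, if_pos h]
        · rw [if_neg h, if_neg h, if_neg (by omega)]
      rw [h3]
      by_cases h : j < i
      · have h5 : gm (j + 1) (insM i x) = gm (j + 1) x := by rw [tu1_ins, if_pos (by omega)]
        have h6 : gm (j - 1) (insM i x) = gm (j - 1) x := by rw [tu1_ins, if_pos (by omega)]
        rw [if_pos h, tu1_JJ, tu1_JJ, h5, h6]
      · rw [if_neg h, tu1_JJ, tu1_JJ, tu1_ins, tu1_ins, if_neg (by omega), if_neg (by omega),
          if_neg (by omega), if_neg (by omega), if_neg (by omega), if_neg (by omega)]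
        rfl
    · rw [if_neg hj, map_zero, map_zero, LinearMap.zero_apply, LinearMap.zero_apply]
  have h2 := congrArg (fun f : Module.Dual ℂ Gp => f x) (h1 c)
  exact h2

/-- Cups on squares, odd case. -/
theorem thm_TU1 (hOm : St_Om) : St_TU1 := by
  intro n i hn hi hin
  obtain ⟨σ, hσ, hOσ⟩ := hOm.1 n i hn hi (by omega)
  refine ⟨σ, hσ, ?_⟩
  intro τ b hτ hb hbB
  have hσ2 : (σ : ℂ) * σ = 1 := by
    rcases hσ with h | h <;> rw [h] <;> norm_num
  have hτ2 : (τ : ℂ) * τ = 1 := by
    rcases hτ with h | h <;> rw [h] <;> norm_num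
  have hJ : JJ (dl (i + 1)) = ph i := by
    apply LinearMap.ext
    intro x
    rw [tu1_JJ, if_neg (by omega)]
    rfl
  -- the contraction
  have h1 : KK JJ (vc (dl (i + 1)) * mp (insM i) b) (Om (n + 2))
      = ((σ : ℂ) * τ) • mp (insM i) (KK JJ b (Om n)) := by
    rw [KK_vc, hJ, ct_KK, hOσ, map_smul, ← mp_iv, hb, map_smul, KK_smul, ← hbB, KK_comp, KK_comp,
      KK_mp ((JJ ∘ₗ insM i) ∘ₗ piB) (insM i) (JJ ∘ₗ piB) ?_, ← KK_comp, smul_smul]
    intro c
    apply LinearMap.ext
    intro x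
    exact (tu1_form i hi c x).symm
  have h2 : rv (vc (dl (i + 1)) * mp (insM i) b)
      = (τ : ℂ) • (vc (dl (i + 1)) * mp (insM i) (rv b)) := by
    rw [rv_mul, rv_vc, ← mp_rv, ← vc_mul', ← mp_iv, ← rv_iv, hb, map_smul, map_smul,
      mul_smul_comm]
  have h3 : Th (n + 2) (xU i b) = (σ : ℂ) • (vc (dl (i + 1)) * mp (insM i) (Th n b)) := by
    unfold Th xU
    rw [if_pos hi, h1, h2, smul_mul_assoc, mul_smul_comm, smul_smul, mul_assoc, ← mp_mul]
    congr 1
    rw [← mul_assoc, mul_comm (τ : ℂ) (σ : ℂ), mul_assoc, hτ2, mul_one]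
  rw [h3, smul_smul, hσ2, one_smul]

end Pool.TWI
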