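import Pool.Agent.TWI.Rel
import Pool.Agent.TWI.Run
import Pool.Agent.TWI.Om
import Pool.Agent.TWI.JR
import Pool.Agent.TWI.TE
import Pool.Agent.TWI.TU1
import Pool.Agent.TWI.TU0
import Pool.Agent.TWI.TN1
import Pool.Agent.TWI.TN0
import Pool.Agent.TWI.TR
import Pool.Agent.TWI.Ep
import Pool.Agent.TWI.Mx
import Pool.Agent.TWI.FTw
import Pool.Agent.TWI.Gd
import Pool.Agent.TWI.Cg
import Pool.Agent.TWI.Stp
import Pool.Agent.TWI.Sum
import Pool.Agent.TWI.Sts
import Pool.Agent.TWI.Odd

/-!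
# TWI, T-B: full twists on an odd number of strands of an alternating diagram, assembly
-/

set_option autoImplicit false

namespace Pool.TWI

open Pool.Agent.ARB
open Pool.Agent.Helper2 (Slice bracket evalAt loopVal)

theorem all_Stp : St_Stp :=
  thm_Stp (thm_TE thm_Om) (thm_TU1 thm_Om) (thm_TU0 thm_Om) (thm_TN1 thm_Om) (thm_TN0 thm_Om)

theorem all_Sum : St_Sum :=
  thm_Sum all_Stp (thm_FTw thm_Mx) (thm_TR thm_JR thm_Om) thm_Gd thm_Cg

/-- The determinant of a diagram obtained by full twists on odd numbers of strands from an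
alternating diagram is the one of the alternating diagram plus four times a natural number. -/
theorem all_four (z : ℂˣ) (hz : (z : ℂ) ^ 2 = Complex.I) (D K : Word) (hD : Alt D) (hne : D ≠ [])
    (hTw : Tw 0 D K) : ∃ a j : ℕ, ‖evalAt z (bracket (unW D))‖ = a ∧
      ‖evalAt z (bracket (unW K))‖ = a + 4 * j :=
  Odd_four (thm_Run thm_Rel) thm_Ep all_Sum all_Stp (thm_Sts thm_Gd) thm_Cg thm_Gd z hz D K hD hne hTw

theorem all_Odd : St_Odd :=
  thm_Odd (thm_Run thm_Rel) thm_Ep all_Sum all_Stp (thm_Sts thm_Gd) thm_Cg thm_Gd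

end Pool.TWI
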