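import Pool.Agent.TWI.StP

set_option autoImplicit false

namespace Pool.TWI

open Pool.Agent.ARB
open Pool.Agent.Helper2 (Slice bracket evalAt loopVal)

/-- the phase of a crossing -/
private noncomputable def fte_z (z : ℂˣ) (p : Bool) : ℂ := if p then (z : ℂ) else ((z⁻¹ : ℂˣ) : ℂ)

private theorem fte_norm (z : ℂˣ) (hz : (z : ℂ) ^ 2 = Complex.I) (p : Bool) :
    ‖fte_z z p‖ = 1 := by
  have h1 : ‖(z : ℂ)‖ ^ 2 = 1 := by
    rw [← norm_pow, hz, Complex.norm_I]
  have h2 : 0 ≤ ‖(z : ℂ)‖ := norm_nonneg _
  have h3 : ‖(z : ℂ)‖ = 1 := by nlinarith [h1, h2]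
  unfold fte_z
  cases p
  · rw [if_neg (by decide), Units.val_inv_eq_inv_val, norm_inv, h3, inv_one]
  · rw [if_pos rfl, h3]

private theorem fte_op (z : ℂˣ) (p : Bool) (i : ℕ) (x : Fk) :
    opU z (pX i p) x = fte_z z p • mp (Mm p i) x := by
  unfold Mm
  rw [mp_rank, mp_id, mp_id]
  cases p
  · change ((z⁻¹ : ℂˣ) : ℂ) • (x - vc (dl (i + 1)) * ct (ph i) x) = _
    rw [if_neg (by decide), ct_neg, mul_neg, ← sub_eq_add_neg]
    rfl
  · rfl

private theorem fte_word (z : ℂˣ) (p : Bool) (l : List ℕ) : ∀ (f : Gp →ₗ[ℂ] Gp) (x : Fk),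
    runU z (l.map fun i => pX i p) (mp f x) =
      (fte_z z p) ^ l.length • mp (l.foldl (fun f i => Mm p i ∘ₗ f) f) x := by
  induction l with
  | nil =>
    intro f x
    simp [runU]
  | cons i l ih =>
    intro f x
    rw [List.map_cons, List.foldl_cons, List.length_cons]
    change runU z (l.map fun i => pX i p) (opU z (pX i p) (mp f x)) = _
    rw [fte_op, mp_mp, map_smul, ih, smul_smul, pow_succ']

private theorem fte_append (z : ℂˣ) (u v : Word) (x : Fk) :
    runU z (u ++ v) x = runU z v (runU z u x) := by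
  induction u generalizing x with
  | nil => rfl
  | cons s u ih =>
    change runU z (u ++ v) (opU z s x) = runU z v (runU z u (opU z s x))
    exact ih _

/-- the arc operator -/
private noncomputable def fte_E (a w : ℕ) (x : Fk) : Fk := vc (vv a w) * ct (ps a w) x

private theorem fte_ps (a w : ℕ) (hw : w % 2 = 0) : ps a w (vv a w) = 0 := by
  unfold ps vv
  rw [map_sum]
  refine Finset.sum_eq_zero fun r _ => ?_
  have h1 : ∀ j k : ℕ, gm j (dl k) = if k = j then 1 else 0 := by
    intro j k
    unfold gm dl
    rw [Finsupp.lapply_apply, Finsupp.single_apply]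
  rw [LinearMap.sub_apply, h1, h1, if_neg (by omega), if_neg (by omega), sub_zero]

private theorem fte_EE (a w : ℕ) (hw : w % 2 = 0) (x : Fk) : fte_E a w (fte_E a w x) = 0 := by
  unfold fte_E
  rw [ct_mul, fte_ps a w hw, zero_smul, zero_sub, ct_ct, mul_zero, neg_zero, mul_zero]

private theorem fte_one (hM : St_MxE) (z : ℂˣ) (p : Bool) (a w : ℕ) (hw : w % 2 = 0) :
    ∃ N : ℕ, ∀ x : Fk, runU z (List.replicate w (sweep a w p)).flatten x =
      (fte_z z p) ^ N • (x + (if p then (2 : ℂ) else -2) • fte_E a w x) := by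
  refine ⟨((List.replicate w ((List.range (w - 1)).map fun j => a + j)).flatten).length,
    fun x => ?_⟩
  have h1 : (List.replicate w (sweep a w p)).flatten =
      ((List.replicate w ((List.range (w - 1)).map fun j => a + j)).flatten).map
        fun i => pX i p := by
    rw [List.map_flatten, List.map_replicate, List.map_map]
    rfl
  have h2 := fte_word z p ((List.replicate w ((List.range (w - 1)).map fun j => a + j)).flatten)
    LinearMap.id x
  rw [mp_id, hM p a w hw, mp_rank, mp_id, mp_id, ct_smul, mul_smul_comm] at h2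
  rw [h1, h2]
  rfl

private theorem fte_E_add (a w : ℕ) (x y : Fk) : fte_E a w (x + y) = fte_E a w x + fte_E a w y := by
  unfold fte_E
  rw [map_add, mul_add]

private theorem fte_E_smul (a w : ℕ) (c : ℂ) (x : Fk) : fte_E a w (c • x) = c • fte_E a w x := by
  unfold fte_E
  rw [map_smul, mul_smul_comm]

theorem thm_FTE (hM : St_MxE) : St_FTE := by
  intro z hz a w k hw
  obtain ⟨N, hN⟩ := fte_one hM z (decide (0 < k)) a w hw
  set c : ℂ := if decide (0 < k) then (2 : ℂ) else -2 with hc
  have key : ∀ m : ℕ, ∀ x : Fk,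
      runU z (List.replicate (w * m) (sweep a w (decide (0 < k)))).flatten x =
        ((fte_z z (decide (0 < k))) ^ N) ^ m • (x + ((m : ℂ) * c) • fte_E a w x) := by
    intro m
    induction m with
    | zero =>
      intro x
      simp [runU]
    | succ m ih =>
      intro x
      rw [Nat.mul_succ, List.replicate_add, List.flatten_append, fte_append, ih, map_smul, hN,
        smul_smul, ← pow_succ, fte_E_add, fte_E_smul, fte_EE a w hw, smul_zero, add_zero,
        add_assoc, ← add_smul]
      congr 3
      push_cast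
      ring
  refine ⟨((fte_z z (decide (0 < k))) ^ N) ^ k.natAbs, ?_, fun x => ?_⟩
  · rw [norm_pow, norm_pow, fte_norm z hz, one_pow, one_pow]
  · have h1 := key k.natAbs x
    have h2 : ((k.natAbs : ℂ) * c) = 2 * (k : ℂ) := by
      rcases le_or_gt k 0 with h | h
      · have h3 : ¬ (0 < k) := not_lt.2 h
        rw [hc, decide_eq_false h3]
        have h4 : (k.natAbs : ℤ) = -k := by omega
        have h5 : (k.natAbs : ℂ) = -(k : ℂ) := by
          have h6 := congrArg (fun t : ℤ => (t : ℂ)) h4
          simp only [Int.cast_neg, Int.cast_natCast] at h6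
          exact h6
        rw [h5]
        simp
        ring
      · rw [hc, decide_eq_true h]
        have h4 : (k.natAbs : ℤ) = k := by omega
        have h5 : (k.natAbs : ℂ) = (k : ℂ) := by
          have h6 := congrArg (fun t : ℤ => (t : ℂ)) h4
          simp only [Int.cast_natCast] at h6
          exact h6
        rw [h5]
        simp
        ring
    rw [h2] at h1
    exact h1

end Pool.TWI
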