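import Pool.Agent.TWI.StP

/-!
# TWI, T-B+: the black letters of arcs of even width preserve good elements
-/

set_option autoImplicit false

namespace Pool.TWI

private theorem gdw_lm (f : ℕ → Gp) (j : ℕ) : lm f (dl j) = f j := by
  unfold lm dl
  rw [Finsupp.linearCombination_single, one_smul]

private theorem gdw_gm (j k : ℕ) : gm j (dl k) = if k = j then 1 else 0 := by
  unfold gm dl
  rw [Finsupp.lapply_apply, Finsupp.single_apply]

private theorem gdw_ps (a w k : ℕ) :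
    ps a w (dl k) = (if k = a then 1 else 0) - (if k = a + w then 1 else 0) := by
  unfold ps
  rw [LinearMap.sub_apply, gdw_gm, gdw_gm]

private theorem gdw_ext {X : Type} [AddCommGroup X] [Module ℂ X] {f g : Gp →ₗ[ℂ] X}
    (h : ∀ j, f (dl j) = g (dl j)) : f = g := by
  refine Finsupp.lhom_ext fun a b => ?_
  have h1 : Finsupp.single a b = b • dl a := by
    unfold dl
    rw [Finsupp.smul_single, smul_eq_mul, mul_one]
  rw [h1, map_smul, map_smul, h]

private theorem gdw_piB (j : ℕ) : piB (dl j) = if j % 2 = 0 then dl j else 0 := by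
  unfold piB
  rw [gdw_lm]

private theorem gdw_ps_pi (a w : ℕ) (ha : a % 2 = 0) (hw : w % 2 = 0) :
    ps a w ∘ₗ piB = ps a w := by
  refine gdw_ext fun j => ?_
  rw [LinearMap.comp_apply, gdw_piB]
  by_cases hj : j % 2 = 0
  · rw [if_pos hj]
  · rw [if_neg hj, map_zero, gdw_ps, if_neg (by omega), if_neg (by omega), sub_zero]

private theorem gdw_vv_pi (a w : ℕ) (ha : a % 2 = 1) : piB (vv a w) = vv a w := by
  unfold vv
  rw [map_sum]
  refine Finset.sum_congr rfl fun r _ => ?_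
  rw [gdw_piB, if_pos (by omega)]

private theorem gdw_Iz (j : ℕ) : vc (dl j) ∈ Iz := Subring.subset_closure ⟨j, rfl⟩

private theorem gdw_Iz_vv (a w : ℕ) : vc (vv a w) ∈ Iz := by
  unfold vv
  rw [map_sum]
  exact Iz.sum_mem fun r _ => gdw_Iz _

private theorem gdw_Iz_iv (x : Fk) (hx : x ∈ Iz) : iv x ∈ Iz := by
  unfold Iz at hx
  induction hx using Subring.closure_induction with
  | mem x hx =>
    obtain ⟨j, rfl⟩ := hx
    rw [iv_vc]
    exact Iz.neg_mem (gdw_Iz j)
  | zero =>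
    rw [map_zero]
    exact Iz.zero_mem
  | one =>
    rw [iv_one]
    exact Iz.one_mem
  | add x y _ _ hx hy =>
    rw [map_add]
    exact Iz.add_mem hx hy
  | neg x _ hx =>
    rw [map_neg]
    exact Iz.neg_mem hx
  | mul x y _ _ hx hy =>
    rw [iv_mul]
    exact Iz.mul_mem hx hy

private theorem gdw_Iz_ct (d : Module.Dual ℂ Gp) (hd : ∀ j, ∃ m : ℤ, d (dl j) = m) (x : Fk)
    (hx : x ∈ Iz) : ct d x ∈ Iz := by
  unfold Iz at hx
  induction hx using Subring.closure_induction with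
  | mem x hx =>
    obtain ⟨j, rfl⟩ := hx
    obtain ⟨m, hm⟩ := hd j
    have h2 := ct_mul d (dl j) 1
    rw [mul_one, ct_one, mul_zero, sub_zero, hm] at h2
    have h3 : ((m : ℂ) • (1 : Fk)) = (m : Fk) := by
      rw [Int.cast_smul_eq_zsmul, zsmul_one]
    rw [h2, h3]
    exact intCast_mem Iz m
  | zero =>
    rw [map_zero]
    exact Iz.zero_mem
  | one =>
    rw [ct_one]
    exact Iz.zero_mem
  | add x y _ _ hx hy =>
    rw [map_add]
    exact Iz.add_mem hx hy
  | neg x _ hx =>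
    rw [map_neg]
    exact Iz.neg_mem hx
  | mul x y hx' hy' hx hy =>
    rw [ct_prod]
    exact Iz.add_mem (Iz.mul_mem hx hy') (Iz.mul_mem (gdw_Iz_iv x hx') hy)

private theorem gdw_Iz_ps (a w : ℕ) (x : Fk) (hx : x ∈ Iz) : ct (ps a w) x ∈ Iz := by
  refine gdw_Iz_ct _ (fun j => ?_) x hx
  refine ⟨(if j = a then 1 else 0) - (if j = a + w then 1 else 0), ?_⟩
  rw [gdw_ps]
  push_cast
  rfl

private theorem gdw_iv_vc (τ : ℤ) (v : Gp) (b : Fk) (hb : iv b = (τ : ℂ) • b) :
    iv (vc v * b) = ((-τ : ℤ) : ℂ) • (vc v * b) := by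
  rw [iv_mul, iv_vc, hb, mul_smul_comm, neg_mul, Int.cast_neg, neg_smul, smul_neg]

private theorem gdw_iv_ct (τ : ℤ) (d : Module.Dual ℂ Gp) (b : Fk) (hb : iv b = (τ : ℂ) • b) :
    iv (ct d b) = ((-τ : ℤ) : ℂ) • ct d b := by
  rw [iv_ct, hb, map_smul, Int.cast_neg, neg_smul]

private theorem gdw_neg {τ : ℤ} (h : τ = 1 ∨ τ = -1) : -τ = 1 ∨ -τ = -1 := by
  rcases h with h | h
  · right
    rw [h]
  · left
    rw [h, neg_neg]

/-- the black letters of arcs of even width preserve good elements -/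
theorem thm_GdW : St_GdW := by
  intro a w τ b hw hb
  unfold xW
  by_cases ha : a % 2 = 1
  · rw [if_pos ha]
    refine ⟨gdw_neg hb.tau, gdw_iv_vc τ _ b hb.par, ?_, Iz.mul_mem (gdw_Iz_vv a w) hb.int⟩
    rw [mp_mul, mp_vc, hb.blk, gdw_vv_pi a w ha]
  · rw [if_neg ha]
    have ha' : a % 2 = 0 := by omega
    refine ⟨gdw_neg hb.tau, gdw_iv_ct τ _ b hb.par, ?_, gdw_Iz_ps a w b hb.int⟩
    have h := ct_mp piB (ps a w) b
    rw [gdw_ps_pi a w ha' hw, hb.blk] at h
    exact h.symm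

end Pool.TWI
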