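import Pool.Agent.TWI.StP

/-!
# TWI, T-B+: the product of the matrices of a full twist of an even number of strands
-/

set_option autoImplicit false

namespace Pool.TWI

section

/-- one crossing on functions -/
private noncomputable def mxe_S (p : Bool) (i : ℕ) (h : ℕ → ℂ) : ℕ → ℂ := fun l =>
  if l = i + 1 then h l + (if p then h i - h (i + 2) else -(h i - h (i + 2))) else h l

private theorem mxe_Mm (p : Bool) (i : ℕ) (g : Gp) : ⇑(Mm p i g) = mxe_S p i ⇑g := by
  funext l
  unfold Mm mxe_S
  rw [LinearMap.add_apply, LinearMap.smulRight_apply, LinearMap.id_apply, Finsupp.add_apply,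
    Finsupp.smul_apply, dl, Finsupp.single_apply, smul_eq_mul]
  have h1 : ph i g = g i - g (i + 2) := rfl
  cases p with
  | true =>
    simp only [if_true, h1]
    by_cases hl : l = i + 1
    · rw [if_pos hl, if_pos hl.symm, mul_one]
    · rw [if_neg hl, if_neg (Ne.symm hl), mul_zero, add_zero]
  | false =>
    simp only [Bool.false_eq_true, if_false, LinearMap.neg_apply, h1]
    by_cases hl : l = i + 1
    · rw [if_pos hl, if_pos hl.symm, mul_one]
    · rw [if_neg hl, if_neg (Ne.symm hl), mul_zero, add_zero]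

private theorem mxe_fold (p : Bool) (L : List ℕ) (F : Gp →ₗ[ℂ] Gp) (g : Gp) :
    ⇑(L.foldl (fun (f : Gp →ₗ[ℂ] Gp) i => Mm p i ∘ₗ f) F g) =
      L.foldl (fun h i => mxe_S p i h) ⇑(F g) := by
  induction L generalizing F with
  | nil => rfl
  | cons i L ih =>
    rw [List.foldl_cons, List.foldl_cons, ih, LinearMap.comp_apply, mxe_Mm]

/-- conjugation by signs -/
private noncomputable def mxe_T (h : ℕ → ℂ) : ℕ → ℂ := fun l => (-1) ^ l * h l

private theorem mxe_TT (h : ℕ → ℂ) : mxe_T (mxe_T h) = h := by
  funext l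
  unfold mxe_T
  rw [← mul_assoc, ← pow_add, Even.neg_one_pow ⟨l, rfl⟩, one_mul]

private theorem mxe_ST (i : ℕ) (h : ℕ → ℂ) : mxe_S false i (mxe_T h) = mxe_T (mxe_S true i h) := by
  funext l
  unfold mxe_S mxe_T
  by_cases hl : l = i + 1
  · subst hl
    simp only [if_true, Bool.false_eq_true, if_false]
    ring
  · simp only [if_neg hl]

private theorem mxe_fT (L : List ℕ) (h : ℕ → ℂ) : L.foldl (fun h i => mxe_S false i h) (mxe_T h) =
    mxe_T (L.foldl (fun h i => mxe_S true i h) h) := by
  induction L generalizing h with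
  | nil => rfl
  | cons i L ih => rw [List.foldl_cons, List.foldl_cons, mxe_ST, ih]

/-- one sweep -/
private theorem mxe_sweep (a : ℕ) (h : ℕ → ℂ) (k : ℕ) :
    ((List.range k).map fun j => a + j).foldl (fun h i => mxe_S true i h) h =
      fun l => if a < l ∧ l ≤ a + k then h a + h (a + 1) - h (l + 1) else h l := by
  induction k with
  | zero =>
    funext l
    have : ¬ (a < l ∧ l ≤ a + 0) := by omega
    rw [if_neg this]
    rfl
  | succ k ih =>
    rw [List.range_succ, List.map_append, List.foldl_append, ih]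
    funext l
    simp only [List.map_cons, List.map_nil, List.foldl_cons, List.foldl_nil]
    unfold mxe_S
    beta_reduce
    by_cases hl : l = a + k + 1
    · subst hl
      have h1 : ¬ (a < a + k + 1 ∧ a + k + 1 ≤ a + k) := by omega
      have h2 : ¬ (a < a + k + 2 ∧ a + k + 2 ≤ a + k) := by omega
      have h3 : a < a + k + 1 ∧ a + k + 1 ≤ a + (k + 1) := by omega
      rw [if_pos rfl, if_neg h1, if_neg h2, if_pos h3]
      rcases Nat.eq_zero_or_pos k with hk | hk
      · subst hk
        have h4 : ¬ (a < a + 0 ∧ a + 0 ≤ a + 0) := by omega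
        rw [if_neg h4]
        simp only [add_zero, if_true]
        ring
      · have h4 : a < a + k ∧ a + k ≤ a + k := by omega
        rw [if_pos h4]
        simp only [if_true]
        ring
    · rw [if_neg hl]
      by_cases h1 : a < l ∧ l ≤ a + k
      · have h2 : a < l ∧ l ≤ a + (k + 1) := by omega
        rw [if_pos h1, if_pos h2]
      · have h2 : ¬ (a < l ∧ l ≤ a + (k + 1)) := by omega
        rw [if_neg h1, if_neg h2]

/-- the extended values -/
private noncomputable def mxe_E (a w : ℕ) (h : ℕ → ℂ) (t : ℕ) : ℂ :=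
  if t ≤ w then h (a + t) else h (a + (t - w)) - (-1) ^ (t - w) * (h a - h (a + w))

/-- several sweeps -/
private theorem mxe_sweeps (a w : ℕ) (hw : 0 < w) (h : ℕ → ℂ) (s : ℕ) (hs : s ≤ w) :
    ((List.replicate s ((List.range (w - 1)).map fun j => a + j)).flatten).foldl
      (fun h i => mxe_S true i h) h =
      fun l => if a < l ∧ l < a + w then (-1) ^ s * mxe_E a w h (l - a + s) + h a -
        (-1) ^ s * h (a + s) else h l := by
  induction s with
  | zero =>
    funext l
    simp only [List.replicate_zero, List.flatten_nil, List.foldl_nil, pow_zero, one_mul, add_zero]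
    split_ifs with h1
    · unfold mxe_E
      rw [if_pos (by omega : l - a ≤ w)]
      have : a + (l - a) = l := by omega
      rw [this]
      ring
    · rfl
  | succ s ih =>
    rw [List.replicate_succ', List.flatten_append, List.flatten_singleton, List.foldl_append,
      ih (by omega), mxe_sweep]
    funext l
    by_cases h1 : a < l ∧ l < a + w
    · have h2 : a < l ∧ l ≤ a + (w - 1) := by omega
      have h3 : ¬ (a < a ∧ a < a + w) := by omega
      have h4 : a < a + 1 ∧ a + 1 < a + w := by omega
      rw [if_pos h2, if_pos h1, if_neg h3, if_pos h4]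
      have e1 : mxe_E a w h (a + 1 - a + s) = h (a + (s + 1)) := by
        unfold mxe_E
        rw [if_pos (by omega)]
        congr 1
        omega
      have e2 : mxe_E a w h (l + 1 - a + s) = mxe_E a w h (l - a + (s + 1)) := by
        congr 1
        omega
      rw [e1]
      by_cases h5 : l + 1 < a + w
      · have h6 : a < l + 1 ∧ l + 1 < a + w := by omega
        rw [if_pos h6, e2]
        ring
      · have h6 : ¬ (a < l + 1 ∧ l + 1 < a + w) := by omega
        rw [if_neg h6]
        have h7 : l + 1 = a + w := by omega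
        rw [h7]
        have e3 : mxe_E a w h (l - a + (s + 1)) =
            h (a + s) - (-1) ^ s * (h a - h (a + w)) := by
          unfold mxe_E
          rcases Nat.eq_zero_or_pos s with hs0 | hs0
          · subst hs0
            rw [if_pos (by omega)]
            have : a + (l - a + (0 + 1)) = a + w := by omega
            rw [this]
            simp
          · rw [if_neg (by omega)]
            have : l - a + (s + 1) - w = s := by omega
            rw [this]
        rw [e3]
        have e4 : ((-1 : ℂ)) ^ s * (-1) ^ s = 1 := by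
          rw [← pow_add, Even.neg_one_pow ⟨s, rfl⟩]
        rw [pow_succ]
        linear_combination (h (a + w) - h a) * e4
    · have h2 : ¬ (a < l ∧ l ≤ a + (w - 1)) := by omega
      rw [if_neg h1, if_neg h2, if_neg h1]

/-- the result of a full twist -/
private noncomputable def mxe_Q (c : ℂ) (a w : ℕ) (h : ℕ → ℂ) : ℕ → ℂ := fun l =>
  h l + if (a < l ∧ l < a + w) ∧ (l - a) % 2 = 1 then c * (h a - h (a + w)) else 0

private theorem mxe_full (a w : ℕ) (hw : w % 2 = 0) (h0 : 0 < w) (h : ℕ → ℂ) :
    ((List.replicate w ((List.range (w - 1)).map fun j => a + j)).flatten).foldl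
      (fun h i => mxe_S true i h) h = mxe_Q 2 a w h := by
  rw [mxe_sweeps a w h0 h w le_rfl]
  funext l
  unfold mxe_Q
  by_cases h1 : a < l ∧ l < a + w
  · rw [if_pos h1]
    unfold mxe_E
    rw [if_neg (by omega)]
    have e1 : l - a + w - w = l - a := by omega
    have e2 : a + (l - a) = l := by omega
    rw [e1, e2, Even.neg_one_pow (Nat.even_iff.2 hw)]
    by_cases h2 : (l - a) % 2 = 1
    · rw [if_pos ⟨h1, h2⟩, Odd.neg_one_pow (Nat.odd_iff.2 h2)]
      ring
    · rw [if_neg fun h => h2 h.2, Even.neg_one_pow (Nat.even_iff.2 (by omega))]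
      ring
  · rw [if_neg h1, if_neg fun h => h1 h.1, add_zero]

private theorem mxe_QT (a w : ℕ) (hw : w % 2 = 0) (h : ℕ → ℂ) :
    mxe_T (mxe_Q 2 a w (mxe_T h)) = mxe_Q (-2) a w h := by
  funext l
  unfold mxe_T mxe_Q
  beta_reduce
  have hl : ((-1 : ℂ)) ^ l * (-1) ^ l = 1 := by
    rw [← pow_add, Even.neg_one_pow ⟨l, rfl⟩]
  by_cases h1 : (a < l ∧ l < a + w) ∧ (l - a) % 2 = 1
  · rw [if_pos h1, if_pos h1]
    have e1 : ((-1 : ℂ)) ^ l * (-1) ^ a = -1 := by
      rw [← pow_add, Odd.neg_one_pow (Nat.odd_iff.2 (by omega))]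
    have e2 : ((-1 : ℂ)) ^ l * (-1) ^ (a + w) = -1 := by
      rw [← pow_add, Odd.neg_one_pow (Nat.odd_iff.2 (by omega))]
    linear_combination h l * hl + 2 * h a * e1 - 2 * h (a + w) * e2
  · rw [if_neg h1, if_neg h1]
    linear_combination h l * hl

private theorem mxe_all (p : Bool) (a w : ℕ) (hw : w % 2 = 0) (h0 : 0 < w) (h : ℕ → ℂ) :
    ((List.replicate w ((List.range (w - 1)).map fun j => a + j)).flatten).foldl
      (fun h i => mxe_S p i h) h = mxe_Q (if p then 2 else -2) a w h := by
  cases p with
  | true =>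
    simp only [if_true]
    exact mxe_full a w hw h0 h
  | false =>
    simp only [Bool.false_eq_true, if_false]
    conv_lhs => rw [← mxe_TT h]
    rw [mxe_fT, mxe_full a w hw h0, mxe_QT a w hw]

private theorem mxe_vv (a w l : ℕ) (hw : w % 2 = 0) :
    vv a w l = if (a < l ∧ l < a + w) ∧ (l - a) % 2 = 1 then (1 : ℂ) else 0 := by
  unfold vv
  rw [Finsupp.finsetSum_apply]
  have hd : ∀ r, dl (a + 1 + 2 * r) l = if a + 1 + 2 * r = l then (1 : ℂ) else 0 := fun r => by
    unfold dl
    rw [Finsupp.single_apply]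
  simp only [hd]
  by_cases h1 : (a < l ∧ l < a + w) ∧ (l - a) % 2 = 1
  · rw [if_pos h1, Finset.sum_eq_single ((l - a - 1) / 2)]
    · rw [if_pos (by omega)]
    · intro r _ hr
      rw [if_neg (by omega)]
    · intro hr
      exact absurd (Finset.mem_range.2 (by omega)) hr
  · rw [if_neg h1]
    refine Finset.sum_eq_zero fun r hr => ?_
    rw [Finset.mem_range] at hr
    rw [if_neg]
    intro h2
    exact h1 ⟨⟨by omega, by omega⟩, by omega⟩

end

theorem thm_MxE : St_MxE := by
  intro p a w hw
  apply LinearMap.ext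
  intro g
  apply DFunLike.coe_injective
  rw [mxe_fold]
  have h3 : ∀ l, (((LinearMap.id + ((if p then (2 : ℂ) else -2) • ps a w).smulRight (vv a w)) :
      Gp →ₗ[ℂ] Gp) g) l = g l + ((if p then (2 : ℂ) else -2) * (g a - g (a + w))) * vv a w l := by
    intro l
    rw [LinearMap.add_apply, LinearMap.smulRight_apply, LinearMap.id_apply, Finsupp.add_apply,
      Finsupp.smul_apply, smul_eq_mul]
    rfl
  rcases Nat.eq_zero_or_pos w with h0 | h0
  · subst h0
    funext l
    have h4 : ¬ ((a < l ∧ l < a + 0) ∧ (l - a) % 2 = 1) := by omega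
    rw [h3 l, mxe_vv a 0 l rfl, if_neg h4, mul_zero, add_zero]
    rfl
  · rw [mxe_all p a w hw h0]
    funext l
    rw [h3 l, mxe_vv a w l hw]
    unfold mxe_Q
    by_cases h1 : (a < l ∧ l < a + w) ∧ (l - a) % 2 = 1
    · rw [if_pos h1, if_pos h1, mul_one]
      rfl
    · rw [if_neg h1, if_neg h1, mul_zero]
      rfl

end Pool.TWI
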