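import Pool.Agent.TWI.StP
import Pool.Agent.TWI.Stp
import Pool.Agent.TWI.Sum

set_option autoImplicit false

namespace Pool.TWI

open Pool.Agent.ARB
open Pool.Agent.Helper2 (Slice bracket evalAt loopVal)

/-- weighted sums of squares -/
noncomputable def smw (e : Bool) (n : ℕ) (L : List (ℕ × (ℤ × Fk))) : Fk :=
  (L.map fun q => (q.1 : ℂ) • sm e n [q.2]).sum

/-- the effect of a piece -/
noncomputable def stpw (s : Piece) (L : List (ℕ × (ℤ × Fk))) : List (ℕ × (ℤ × Fk)) :=
  L.flatMap fun q => (stp s [q.2]).map fun r => (q.1, r)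

/-- the effect of an even block -/
noncomputable def blw (a w : ℕ) (k : ℤ) (L : List (ℕ × (ℤ × Fk))) : List (ℕ × (ℤ × Fk)) :=
  L.flatMap fun q => [q, (2 * k.natAbs * q.1, (-q.2.1, xW a w q.2.2))]

/-- the effect of an odd block -/
noncomputable def bow (a w : ℕ) (k : ℤ) (L : List (ℕ × (ℤ × Fk))) : List (ℕ × (ℤ × Fk)) :=
  L.map fun q => (q.1, (q.2.1, (xR a w)^[k.natAbs] q.2.2))

/-- all elements are good -/
def GdW (L : List (ℕ × (ℤ × Fk))) : Prop := ∀ q ∈ L, Gd q.2.1 q.2.2

/-- the elements of the second list of weight one are congruent to those of the first list, all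
others have even weights -/
inductive Rl : List (ℤ × Fk) → List (ℕ × (ℤ × Fk)) → Prop
  | nil : Rl [] []
  | cons (q q' : ℤ × Fk) (L : List (ℤ × Fk)) (L' : List (ℕ × (ℤ × Fk))) :
      Cgp q q' → Rl L L' → Rl (q :: L) ((1, q') :: L')
  | ext (c : ℕ) (q' : ℤ × Fk) (L : List (ℤ × Fk)) (L' : List (ℕ × (ℤ × Fk))) :
      c % 2 = 0 → Rl L L' → Rl L ((c, q') :: L')

theorem Rl_app {L1 L2 : List (ℤ × Fk)} {L1' L2' : List (ℕ × (ℤ × Fk))} (h1 : Rl L1 L1')
    (h2 : Rl L2 L2') : Rl (L1 ++ L2) (L1' ++ L2') := by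
  induction h1 with
  | nil => exact h2
  | cons q q' L L' h _ ih => exact Rl.cons q q' _ _ h ih
  | ext c q' L L' h _ ih => exact Rl.ext c q' _ _ h ih

theorem Rl_ofCg {L L' : List (ℤ × Fk)} (h : CgL L L') : Rl L (L'.map fun r => (1, r)) := by
  change List.Forall₂ Cgp L L' at h
  induction h with
  | nil => exact Rl.nil
  | cons hq _ ih => exact Rl.cons _ _ _ _ hq ih

theorem Rl_even (c : ℕ) (hc : c % 2 = 0) (L : List (ℤ × Fk)) : Rl [] (L.map fun r => (c, r)) := by
  induction L with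
  | nil => exact Rl.nil
  | cons q L ih => exact Rl.ext c q _ _ hc ih

private theorem sp_stp_cons (s : Piece) (q : ℤ × Fk) (L : List (ℤ × Fk)) :
    stp s (q :: L) = stp s [q] ++ stp s L := by
  obtain ⟨k, i⟩ := s
  cases k with
  | U => rfl
  | N => rfl
  | X p =>
    change (q :: L).flatMap _ = [q].flatMap _ ++ L.flatMap _
    rw [← List.flatMap_append]
    rfl

private theorem sp_Rl_stp (hG : St_Gd) (s : Piece) {L : List (ℤ × Fk)}
    {L' : List (ℕ × (ℤ × Fk))} (h : Rl L L') : Rl (stp s L) (stpw s L') := by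
  induction h with
  | nil =>
    have h1 : stp s [] = [] := by
      obtain ⟨k, i⟩ := s
      cases k <;> rfl
    rw [h1]
    exact Rl.nil
  | cons q q' L L' hq _ ih =>
    rw [sp_stp_cons]
    unfold stpw
    rw [List.flatMap_cons]
    refine Rl_app ?_ ih
    have h1 : CgL [q] [q'] := List.Forall₂.cons hq List.Forall₂.nil
    exact Rl_ofCg (sum_cg_stp hG s [q] [q'] h1)
  | ext c q' L L' hc _ ih =>
    unfold stpw
    rw [List.flatMap_cons]
    have h1 := Rl_app (Rl_even c hc (stp s [q'])) ih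
    rw [List.nil_append] at h1
    exact h1

private theorem sp_Rl_blw (a w : ℕ) (k : ℤ) {L : List (ℤ × Fk)}
    {L' : List (ℕ × (ℤ × Fk))} (h : Rl L L') : Rl L (blw a w k L') := by
  induction h with
  | nil => exact Rl.nil
  | cons q q' L L' hq _ ih =>
    unfold blw
    rw [List.flatMap_cons]
    refine Rl.cons q q' _ _ hq (Rl.ext _ _ _ _ ?_ ih)
    rw [mul_one]
    exact Nat.mul_mod_right 2 _
  | ext c q' L L' hc _ ih =>
    unfold blw
    rw [List.flatMap_cons]
    refine Rl.ext c q' _ _ hc (Rl.ext _ _ _ _ ?_ ih)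
    rw [mul_assoc]
    exact Nat.mul_mod_right 2 _

private theorem sp_Rl_bow (hG : St_Gd) (hC : St_Cg) (a w : ℕ) (k : ℤ) (hw : w % 2 = 1)
    {L : List (ℤ × Fk)} {L' : List (ℕ × (ℤ × Fk))} (h : Rl L L') (hL' : GdW L') :
    Rl L (bow a w k L') := by
  induction h with
  | nil => exact Rl.nil
  | cons q q' L L' hq _ ih =>
    refine Rl.cons q _ _ _ ?_ (ih fun r hr => hL' r (List.mem_cons_of_mem _ hr))
    obtain ⟨h1, c, hc, h2⟩ := hq
    obtain ⟨c', hc', h3⟩ := sum_xR_cg hG hC a w hw k.natAbs q'.1 q'.2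
      (hL' _ List.mem_cons_self)
    refine ⟨h1, c + c', Iz.add_mem hc hc', ?_⟩
    change (xR a w)^[k.natAbs] q'.2 = q.2 + 2 * (c + c')
    rw [h3, h2, mul_add, add_assoc]
  | ext c q' L L' hc _ ih =>
    exact Rl.ext c _ _ _ hc (ih fun r hr => hL' r (List.mem_cons_of_mem _ hr))

private theorem sp_smw_cons (e : Bool) (n : ℕ) (q : ℕ × (ℤ × Fk)) (L : List (ℕ × (ℤ × Fk))) :
    smw e n (q :: L) = (q.1 : ℂ) • sm e n [q.2] + smw e n L := by
  unfold smw
  rw [List.map_cons, List.sum_cons]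

private theorem sp_smw_append (e : Bool) (n : ℕ) (L L' : List (ℕ × (ℤ × Fk))) :
    smw e n (L ++ L') = smw e n L + smw e n L' := by
  unfold smw
  rw [List.map_append, List.sum_append]

private theorem sp_smw_map (e : Bool) (n c : ℕ) (L : List (ℤ × Fk)) :
    smw e n (L.map fun r => (c, r)) = (c : ℂ) • sm e n L := by
  induction L with
  | nil =>
    change (0 : Fk) = (c : ℂ) • (0 : Fk)
    rw [smul_zero]
  | cons q L ih =>
    have h0 : sm e n (q :: L) = sm e n [q] + sm e n L := by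
      unfold sm
      rw [List.map_cons, List.sum_cons, List.map_singleton, List.sum_singleton]
    rw [List.map_cons, sp_smw_cons, ih, h0, smul_add]

private theorem sp_step (e : Bool) (n n' : ℕ) (f : Fk →ₗ[ℂ] Fk) (s : Piece) (κ : ℂ)
    (h : ∀ L : List (ℤ × Fk), GdL L → f (sm e n L) = κ • sm e n' (stp s L))
    (L : List (ℕ × (ℤ × Fk))) (hL : GdW L) : f (smw e n L) = κ • smw e n' (stpw s L) := by
  induction L with
  | nil =>
    change f (0 : Fk) = κ • (0 : Fk)
    rw [map_zero, smul_zero]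
  | cons q L ih =>
    have h1 : GdL [q.2] := by
      intro r hr
      rw [List.mem_singleton] at hr
      rw [hr]
      exact hL q List.mem_cons_self
    unfold stpw at ih ⊢
    rw [sp_smw_cons, map_add, map_smul, h _ h1, ih fun r hr => hL r (List.mem_cons_of_mem _ hr),
      List.flatMap_cons, sp_smw_append, sp_smw_map, smul_add, smul_comm]

private theorem sp_gd_stpw (hG : St_Gd) (s : Piece) (L : List (ℕ × (ℤ × Fk))) (hL : GdW L) :
    GdW (stpw s L) := by
  intro q hq
  unfold stpw at hq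
  obtain ⟨r, hr, hq⟩ := List.mem_flatMap.1 hq
  obtain ⟨t, ht, rfl⟩ := List.mem_map.1 hq
  have h1 : GdL [r.2] := by
    intro u hu
    rw [List.mem_singleton] at hu
    rw [hu]
    exact hL r hr
  exact sum_gd_stp hG s [r.2] h1 t ht

private theorem sp_gd_blw (hGW : St_GdW) (a w : ℕ) (k : ℤ) (hw : w % 2 = 0)
    (L : List (ℕ × (ℤ × Fk))) (hL : GdW L) : GdW (blw a w k L) := by
  intro q hq
  unfold blw at hq
  obtain ⟨r, hr, hq⟩ := List.mem_flatMap.1 hq
  rcases List.mem_cons.1 hq with rfl | hq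
  · exact hL q hr
  · rw [List.mem_singleton] at hq
    rw [hq]
    exact hGW a w r.2.1 r.2.2 hw (hL r hr)

private theorem sp_gd_bow (hG : St_Gd) (a w : ℕ) (k : ℤ) (hw : w % 2 = 1)
    (L : List (ℕ × (ℤ × Fk))) (hL : GdW L) : GdW (bow a w k L) := by
  intro q hq
  unfold bow at hq
  obtain ⟨r, hr, rfl⟩ := List.mem_map.1 hq
  exact sum_xR_gd hG a w hw k.natAbs r.2.1 r.2.2 (hL r hr)

private theorem sp_even (hTEW : St_TEW) (e : Bool) (n a w : ℕ) (k : ℤ) (hn : n % 2 = 0)
    (h : a + w ≤ n) (hw : w % 2 = 0) (hs : decide (0 < k) = e ↔ a % 2 = 0)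
    (q : ℤ × Fk) (hq : Gd q.1 q.2) :
    sm e n [q] + (2 * (k : ℂ)) • (vc (vv a w) * ct (ps a w) (sm e n [q])) =
      sm e n [q] + ((2 * k.natAbs : ℕ) : ℂ) • sm e n [(-q.1, xW a w q.2)] := by
  have h1 : ∀ r : ℤ × Fk, sm e n [r] = (if e then (r.1 : ℂ) else 1) • Th n r.2 := by
    intro r
    unfold sm
    rw [List.map_singleton, List.sum_singleton]
  congr 1
  rw [h1 q, h1, map_smul, mul_smul_comm, hTEW n a w q.2 hn hw h hq.blk, smul_smul, smul_smul,
    smul_smul]
  congr 1
  have h4 : (k.natAbs : ℂ) = if 0 < k then (k : ℂ) else -(k : ℂ) := by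
    split_ifs with h5
    · have h4 : (k.natAbs : ℤ) = k := by omega
      have h6 := congrArg (fun t : ℤ => (t : ℂ)) h4
      simp only [Int.cast_natCast] at h6
      exact h6
    · have h4 : (k.natAbs : ℤ) = -k := by omega
      have h6 := congrArg (fun t : ℤ => (t : ℂ)) h4
      simp only [Int.cast_neg, Int.cast_natCast] at h6
      exact h6
  push_cast
  rw [h4]
  cases e with
  | false =>
    by_cases h5 : 0 < k
    · rw [if_pos h5]
      have h6 : ¬ a % 2 = 0 := by
        intro h7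
        have h8 := hs.2 h7
        rw [decide_eq_true h5] at h8
        exact absurd h8 (by decide)
      have h7 : a % 2 = 1 := by omega
      simp [h7]
    · rw [if_neg h5]
      have h6 : a % 2 = 0 := hs.1 (decide_eq_false h5)
      have h7 : ¬ a % 2 = 1 := by omega
      simp [h7]
  | true =>
    by_cases h5 : 0 < k
    · rw [if_pos h5]
      have h6 : a % 2 = 0 := hs.1 (decide_eq_true h5)
      have h7 : ¬ a % 2 = 1 := by omega
      simp [h7]
    · rw [if_neg h5]
      have h6 : ¬ a % 2 = 0 := by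
        intro h7
        have h8 := hs.2 h7
        rw [decide_eq_false h5] at h8
        exact absurd h8 (by decide)
      have h7 : a % 2 = 1 := by omega
      simp [h7]

private theorem sp_blw (hTEW : St_TEW) (e : Bool) (n a w : ℕ) (k : ℤ) (hn : n % 2 = 0)
    (h : a + w ≤ n) (hw : w % 2 = 0) (hs : decide (0 < k) = e ↔ a % 2 = 0)
    (L : List (ℕ × (ℤ × Fk))) (hL : GdW L) :
    smw e n L + (2 * (k : ℂ)) • (vc (vv a w) * ct (ps a w) (smw e n L)) =
      smw e n (blw a w k L) := by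
  induction L with
  | nil =>
    change (0 : Fk) + (2 * (k : ℂ)) • (vc (vv a w) * ct (ps a w) 0) = 0
    rw [map_zero, mul_zero, smul_zero, add_zero]
  | cons q L ih =>
    have ih' := ih fun r hr => hL r (List.mem_cons_of_mem _ hr)
    have h1 := sp_even hTEW e n a w k hn h hw hs q.2 (hL q List.mem_cons_self)
    unfold blw at ih' ⊢
    rw [List.flatMap_cons, sp_smw_append, ← ih', sp_smw_cons, sp_smw_cons, sp_smw_cons]
    have h2 : smw e n [] = 0 := rfl
    rw [h2, add_zero]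
    have h3 : (((2 * k.natAbs * q.1 : ℕ) : ℂ)) • sm e n [(-q.2.1, xW a w q.2.2)] =
        (q.1 : ℂ) • (((2 * k.natAbs : ℕ) : ℂ) • sm e n [(-q.2.1, xW a w q.2.2)]) := by
      rw [smul_smul]
      congr 1
      push_cast
      ring
    rw [h3, ← smul_add, ← h1, map_add, mul_add, smul_add, map_smul, mul_smul_comm, smul_add,
      smul_comm (2 * (k : ℂ)) (q.1 : ℂ)]
    abel

private theorem sp_bow (e : Bool) (n a w : ℕ) (k : ℤ) (σ : ℤ)
    (hσ : ∀ b : Fk, mp (Rm a w) (Th n b) = (σ : ℂ) • Th n (xR a w b))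
    (L : List (ℕ × (ℤ × Fk))) :
    (mp (Rm a w))^[k.natAbs] (smw e n L) = ((σ : ℂ) ^ k.natAbs) • smw e n (bow a w k L) := by
  have hadd : ∀ (m : ℕ) (x y : Fk), (mp (Rm a w))^[m] (x + y) =
      (mp (Rm a w))^[m] x + (mp (Rm a w))^[m] y := by
    intro m
    induction m with
    | zero => intro x y; rfl
    | succ m ih =>
      intro x y
      rw [Function.iterate_succ_apply, Function.iterate_succ_apply, Function.iterate_succ_apply,
        map_add, ih]
  have hsm : ∀ (m : ℕ) (c : ℂ) (x : Fk), (mp (Rm a w))^[m] (c • x) = c • (mp (Rm a w))^[m] x := by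
    intro m
    induction m with
    | zero => intro c x; rfl
    | succ m ih =>
      intro c x
      rw [Function.iterate_succ_apply, Function.iterate_succ_apply, map_smul, ih]
  have h0 : ∀ m : ℕ, (mp (Rm a w))^[m] (0 : Fk) = 0 := by
    intro m
    induction m with
    | zero => rfl
    | succ m ih => rw [Function.iterate_succ_apply, map_zero, ih]
  induction L with
  | nil =>
    change (mp (Rm a w))^[k.natAbs] (0 : Fk) = ((σ : ℂ) ^ k.natAbs) • (0 : Fk)
    rw [h0, smul_zero]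
  | cons q L ih =>
    rw [sp_smw_cons, hadd, hsm, ih, sum_blocks e n a w σ hσ k.natAbs [q.2]]
    change _ = ((σ : ℂ) ^ k.natAbs) •
      smw e n ((q.1, (q.2.1, (xR a w)^[k.natAbs] q.2.2)) :: bow a w k L)
    rw [sp_smw_cons, smul_add, smul_comm]
    rfl

/-- the whole diagram -/
theorem SumP (hTE : St_TE) (hU1 : St_TU1) (hU0 : St_TU0) (hN1 : St_TN1) (hN0 : St_TN0)
    (hF : St_FTw) (hTR : St_TR) (hG : St_Gd) (hC : St_Cg) (hFE : St_FTE) (hTEW : St_TEW)
    (hGW : St_GdW) (z : ℂˣ) (hz : (z : ℂ) ^ 2 = Complex.I) (e : Bool) (n m : ℕ) (D K : Word)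
    (hTw : Twe e n D K) : Ok D n m → n % 2 = 0 →
    (∀ (p : Bool) (i : ℕ), pX i p ∈ D → (p = e ↔ i % 2 = 0)) →
    ∀ (L : List (ℤ × Fk)) (L' : List (ℕ × (ℤ × Fk))), GdL L → GdW L' → Rl L L' →
    ∃ (M' : List (ℕ × (ℤ × Fk))) (κ : ℂ), ‖κ‖ = 1 ∧ GdL (D.foldl (fun l s => stp s l) L) ∧
      GdW M' ∧ Rl (D.foldl (fun l s => stp s l) L) M' ∧
      runU z K (smw e n L') = κ • smw e m M' := by
  induction hTw with
  | nil n =>
    intro hok _ _ L L' hL hL' hc
    have hnm : n = m := hok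
    subst hnm
    exact ⟨L', 1, norm_one, hL, hL', hc, by rw [one_smul]; rfl⟩
  | @pc n D K s h hT ih =>
    intro hok hn hal L L' hL hL' hc
    have hok' : Ok D (n - s.k.inn + s.k.out) m := hok.2
    have hn' : (n - s.k.inn + s.k.out) % 2 = 0 := by
      have h1 : s.k.inn % 2 = 0 ∧ s.k.out % 2 = 0 := by
        cases s.k <;> simp [Kind.inn, Kind.out]
      omega
    have hcr : ∀ p, s.k = .X p → (p = e ↔ s.i % 2 = 0) := by
      intro p hp
      apply hal p s.i
      have : s = pX s.i p := by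
        cases s
        simp only at hp
        rw [hp]
      rw [← this]
      exact List.mem_cons_self
    obtain ⟨κ, hκ, h1⟩ := Stp_unif hTE hU1 hU0 hN1 hN0 z hz e n s hn h hcr
    obtain ⟨M', κ', hκ', g1, g2, g3, g4⟩ := ih hok' hn'
      (fun p i hp => hal p i (List.mem_cons_of_mem _ hp)) (stp s L) (stpw s L')
      (sum_gd_stp hG s L hL) (sp_gd_stpw hG s L' hL') (sp_Rl_stp hG s hc)
    refine ⟨M', κ * κ', ?_, g1, g2, g3, ?_⟩
    · rw [norm_mul, hκ, hκ', one_mul]
    · change runU z K (opU z s (smw e n L')) = _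
      rw [sp_step e n _ (opU z s) s κ h1 L' hL', map_smul, g4, smul_smul]
  | @odd n D K a w k h hw hT ih =>
    intro hok hn hal L L' hL hL' hc
    obtain ⟨κ, hκ, h1⟩ := hF z hz a w k hw
    obtain ⟨σ, hσ, h2⟩ := hTR n a w hn hw h
    obtain ⟨M', κ', hκ', g1, g2, g3, g4⟩ := ih hok hn hal L (bow a w k L') hL
      (sp_gd_bow hG a w k hw L' hL') (sp_Rl_bow hG hC a w k hw hc hL')
    refine ⟨M', κ * (σ : ℂ) ^ k.natAbs * κ', ?_, g1, g2, g3, ?_⟩
    · have h3 : ‖(σ : ℂ)‖ = 1 := by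
        rcases hσ with rfl | rfl <;> simp
      rw [norm_mul, norm_mul, norm_pow, hκ, hκ', h3, one_pow, one_mul, one_mul]
    · rw [sum_runU_append, h1, sp_bow e n a w k σ h2, map_smul, map_smul, g4, smul_smul,
        smul_smul]
  | @even n D K a w k h hw hs hT ih =>
    intro hok hn hal L L' hL hL' hc
    obtain ⟨κ, hκ, h1⟩ := hFE z hz a w k hw
    obtain ⟨M', κ', hκ', g1, g2, g3, g4⟩ := ih hok hn hal L (blw a w k L') hL
      (sp_gd_blw hGW a w k hw L' hL') (sp_Rl_blw a w k hc)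
    refine ⟨M', κ * κ', ?_, g1, g2, g3, ?_⟩
    · rw [norm_mul, hκ, hκ', one_mul]
    · rw [sum_runU_append, h1, sp_blw hTEW e n a w k hn h hw hs L' hL', map_smul, g4, smul_smul]

end Pool.TWI
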