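import Pool.Agent.TWI.StP

/-!
# TWI: arcs of even width and squares
-/

set_option autoImplicit false

namespace Pool.TWI

open Pool.Agent.ARB
open Pool.Agent.Helper2 (Slice bracket evalAt loopVal)

private theorem tew_gm (j k : ℕ) : gm j (dl k) = if k = j then 1 else 0 := by
  unfold gm dl
  rw [Finsupp.lapply_apply, Finsupp.single_apply]

private theorem tew_hom {V : Type} [AddCommGroup V] [Module ℂ V] (f g : Gp →ₗ[ℂ] V)
    (h : ∀ j, f (dl j) = g (dl j)) : f = g := by
  refine Finsupp.lhom_ext' fun j => LinearMap.ext_ring ?_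
  exact h j

private theorem tew_lm (f : ℕ → Gp) (j : ℕ) : lm f (dl j) = f j := by
  unfold lm dl
  rw [Finsupp.linearCombination_single, one_smul]

private theorem tew_piB (j : ℕ) : piB (dl j) = if j % 2 = 0 then dl j else 0 := tew_lm _ j

private theorem tew_piW (j : ℕ) : piW (dl j) = if j % 2 = 0 then 0 else dl j := tew_lm _ j

private theorem tew_ps (a w j : ℕ) :
    ps a w (dl j) = (if j = a then 1 else 0) - (if j = a + w then 1 else 0) := by
  unfold ps
  rw [LinearMap.sub_apply, tew_gm, tew_gm]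

private theorem tew_JJ (j : ℕ) :
    JJ (dl j) = (if j = 0 then 0 else gm (j - 1)) - gm (j + 1) := by
  unfold JJ dl
  rw [Finsupp.linearCombination_single, one_smul]

private theorem tew_JJ2 (j l : ℕ) :
    JJ (dl j) (dl l) = (if j = l + 1 then 1 else 0) - (if j + 1 = l then 1 else 0) := by
  rw [tew_JJ, LinearMap.sub_apply, tew_gm]
  have h1 : (if l = j + 1 then (1 : ℂ) else 0) = if j + 1 = l then 1 else 0 := by
    by_cases h : l = j + 1
    · rw [if_pos h, if_pos h.symm]
    · rw [if_neg h, if_neg (fun h' => h h'.symm)]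
  rw [h1]
  congr 1
  by_cases h3 : j = 0
  · rw [if_pos h3, LinearMap.zero_apply, if_neg (by omega)]
  · rw [if_neg h3, tew_gm]
    by_cases h4 : l = j - 1
    · rw [if_pos h4, if_pos (by omega)]
    · rw [if_neg h4, if_neg (by omega)]

private theorem tew_black (a w : ℕ) (ha : a % 2 = 1) (hw : w % 2 = 0) (b : Fk)
    (hb : mp piB b = b) : ct (ps a w) b = 0 := by
  rw [← hb, ct_mp]
  have h : ps a w ∘ₗ piB = 0 := by
    refine tew_hom _ _ fun j => ?_
    rw [LinearMap.comp_apply, tew_piB, LinearMap.zero_apply]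
    split_ifs with h1
    · rw [tew_ps, if_neg (by omega), if_neg (by omega), sub_zero]
    · exact map_zero _
  rw [h, ct_zero, map_zero]

private theorem tew_white (a w : ℕ) (ha : a % 2 = 0) (hw : w % 2 = 0) (y : Fk)
    (hy : mp piW y = y) : ct (ps a w) y = 0 := by
  rw [← hy, ct_mp]
  have h : ps a w ∘ₗ piW = 0 := by
    refine tew_hom _ _ fun j => ?_
    rw [LinearMap.comp_apply, tew_piW, LinearMap.zero_apply]
    split_ifs with h1
    · exact map_zero _
    · rw [tew_ps, if_neg (by omega), if_neg (by omega), sub_zero]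
  rw [h, ct_zero, map_zero]

private theorem tew_KK_white (b : Fk) (y : Fk) (hy : mp piW y = y) :
    mp piW (KK JJ b y) = KK JJ b y := by
  have h1 : KK JJ b y = mp piW (KK ((LinearMap.lcomp ℂ ℂ piW) ∘ₗ JJ) b y) := by
    conv_lhs => rw [← hy]
    exact KK_mp JJ piW _ (fun c => rfl) b y
  have h2 : piW ∘ₗ piW = piW := by
    refine tew_hom _ _ fun j => ?_
    rw [LinearMap.comp_apply, tew_piW]
    split_ifs with h3
    · exact map_zero _
    · rw [tew_piW, if_neg h3]
  rw [h1, mp_mp, h2]

private theorem tew_JJv (a w : ℕ) (ha : a % 2 = 1) (hw : w % 2 = 0) :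
    JJ (vv a w) = ps a w := by
  unfold vv ps
  rw [map_sum]
  have h1 : ∀ r ∈ Finset.range (w / 2), JJ (dl (a + 1 + 2 * r)) =
      gm (a + 2 * r) - gm (a + 2 * (r + 1)) := by
    intro r _
    have e1 : a + 1 + 2 * r - 1 = a + 2 * r := by omega
    have e2 : a + 1 + 2 * r + 1 = a + 2 * (r + 1) := by omega
    rw [tew_JJ, if_neg (by omega), e1, e2]
  rw [Finset.sum_congr rfl h1, Finset.sum_range_sub']
  congr 2
  omega

private theorem tew_psi (a w : ℕ) (ha : a % 2 = 0) (hw : w % 2 = 0) (c : Gp) :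
    (-ps a w) c = JJ c (vv a w) := by
  have h1 : -ps a w = (LinearMap.applyₗ (vv a w)) ∘ₗ JJ := by
    refine tew_hom _ _ fun j => ?_
    rw [LinearMap.neg_apply, tew_ps, LinearMap.comp_apply, LinearMap.applyₗ_apply_apply]
    unfold vv
    rw [map_sum]
    have h2 : ∀ r ∈ Finset.range (w / 2), JJ (dl j) (dl (a + 1 + 2 * r)) =
        (if j = a + 2 * (r + 1) then (1 : ℂ) else 0) - (if j = a + 2 * r then 1 else 0) := by
      intro r _
      have e2 : a + 1 + 2 * r + 1 = a + 2 * (r + 1) := by omega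
      rw [tew_JJ2, e2]
      congr 1
      by_cases h : j = a + 2 * r
      · rw [if_pos h, if_pos (by omega)]
      · rw [if_neg h, if_neg (by omega)]
    rw [Finset.sum_congr rfl h2,
      Finset.sum_range_sub fun r => if j = a + 2 * r then (1 : ℂ) else 0]
    have h3 : 2 * (w / 2) = w := by omega
    rw [h3, mul_zero, add_zero, neg_sub]
  rw [h1]
  rfl

theorem thm_TEW (hO : St_Om) : St_TEW := by
  intro n a w b hn hwe haw hb
  have hw : mp piW (KK JJ b (Om n)) = KK JJ b (Om n) := tew_KK_white b (Om n) (hO.2.2.2.2 n)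
  change vc (vv a w) * ct (ps a w) (rv b * KK JJ b (Om n)) = _
  unfold Th xW
  rw [ct_prod, ct_rv]
  rcases Nat.mod_two_eq_zero_or_one a with h0 | h1
  · rw [tew_white a w h0 hwe _ hw, mul_zero, add_zero, if_neg (by omega), if_neg (by omega),
      ← mul_assoc, vc_mul']
    have hz : vc (vv a w) * Om n = 0 := by
      unfold vv
      rw [map_sum, Finset.sum_mul]
      refine Finset.sum_eq_zero fun r hr => ?_
      rw [Finset.mem_range] at hr
      exact hO.2.2.1 n (a + 1 + 2 * r) (by omega) (by omega)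
    have h2 := KK_mul JJ (vv a w) (-ps a w) (fun c => tew_psi a w h0 hwe c) (iv b) (Om n)
    rw [hz, map_zero, iv_iv] at h2
    have h3 : iv (ct (-ps a w) (iv b)) = ct (ps a w) b := by
      rw [ct_neg, map_neg, iv_ct, iv_iv, neg_neg]
    rw [h3] at h2
    have h4 : vc (vv a w) * KK JJ b (Om n) = -KK JJ (ct (ps a w) b) (Om n) :=
      eq_neg_of_add_eq_zero_left h2.symm
    rw [mul_assoc, h4, mul_neg, neg_smul, one_smul]
  · rw [tew_black a w h1 hwe b hb, map_zero, map_zero, zero_mul, zero_add, if_pos h1, if_pos h1,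
      ← mul_assoc, vc_mul', one_smul, rv_mul, rv_vc, KK_vc, tew_JJv a w h1 hwe]

end Pool.TWI
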