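import Pool.Agent.TWI.All
import Pool.Agent.TWI.SumP
import Pool.Agent.TWI.MxE
import Pool.Agent.TWI.FTE
import Pool.Agent.TWI.TEW
import Pool.Agent.TWI.GdW

/-!
# TWI, T-B+: full twists on odd numbers of strands, and on even numbers of strands with the sign of
the alternation, assembly
-/

set_option autoImplicit false

namespace Pool.TWI

open Pool.Agent.ARB
open Pool.Agent.Helper2 (Slice bracket evalAt loopVal states curves)

private theorem ap_Tw_add (e : Bool) (n : ℕ) (D K : Word) (h : Twe e n D K) :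
    Twe e (n + 2) D K := by
  induction h with
  | nil n => exact Twe.nil _
  | @pc n D K s h _ ih =>
    refine Twe.pc s (by omega) ?_
    have h3 : n + 2 - s.k.inn + s.k.out = n - s.k.inn + s.k.out + 2 := by omega
    rw [h3]
    exact ih
  | @odd n D K a w k h hw _ ih =>
    exact Twe.odd a w k (by omega) hw ih
  | @even n D K a w k h hw hs _ ih =>
    exact Twe.even a w k (by omega) hw hs ih

theorem Ok_Twe (e : Bool) (n : ℕ) (D K : Word) (h : Twe e n D K) :
    ∀ m : ℕ, Ok D n m → Ok K n m := by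
  induction h with
  | nil n => intro m h; exact h
  | @pc n D K s h _ ih => intro m h'; exact ⟨h'.1, ih m h'.2⟩
  | @odd n D K a w k h hw _ ih =>
    intro m h'
    exact odd_Ok_append _ _ n n m (odd_Ok_FT a w k n h) (ih m h')
  | @even n D K a w k h hw hs _ ih =>
    intro m h'
    exact odd_Ok_append _ _ n n m (odd_Ok_FT a w k n h) (ih m h')

private theorem ap_initw (e : Bool) : smw e 2 [(1, ((1 : ℤ), (1 : Fk)))] = vc (dl 1) := by
  unfold smw
  rw [List.map_singleton, List.sum_singleton, odd_init, Nat.cast_one, one_smul]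

/-- the scalar part of a weighted sum of squares -/
private theorem ap_ep (hE : St_Ep) (e : Bool) (L : List (ℕ × (ℤ × Fk))) (hL : GdW L) :
    ep (ct (gm 1) (smw e 2 L)) = (L.map fun q => (q.1 : ℂ) * ep q.2.2 ^ 2).sum := by
  induction L with
  | nil =>
    change ep (ct (gm 1) (0 : Fk)) = 0
    rw [map_zero, map_zero]
  | cons q L ih =>
    have h0 : smw e 2 (q :: L) = (q.1 : ℂ) • sm e 2 [q.2] + smw e 2 L := by
      unfold smw
      rw [List.map_cons, List.sum_cons]
    have hq : GdL [q.2] := by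
      intro r hr
      rw [List.mem_singleton] at hr
      rw [hr]
      exact hL q List.mem_cons_self
    have h5 := odd_ep hE e [q.2] hq
    rw [List.map_singleton, List.sum_singleton] at h5
    rw [h0, map_add, map_add, map_smul, map_smul, h5,
      ih fun q hq => hL q (List.mem_cons_of_mem _ hq), List.map_cons, List.sum_cons,
      smul_eq_mul]

private theorem ap_real (L : List (ℕ × (ℤ × Fk))) (h : ∀ q ∈ L, ∃ m : ℤ, ep q.2.2 = (m : ℂ)) :
    (L.map fun q => (q.1 : ℂ) * ep q.2.2 ^ 2).sum =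
      (((L.map fun q => (q.1 : ℝ) * ‖ep q.2.2‖ ^ 2).sum : ℝ) : ℂ) := by
  induction L with
  | nil => simp
  | cons q L ih =>
    rw [List.map_cons, List.sum_cons, List.map_cons, List.sum_cons,
      ih fun q hq => h q (List.mem_cons_of_mem _ hq)]
    obtain ⟨m, hm⟩ := h q List.mem_cons_self
    rw [hm, Complex.norm_intCast]
    push_cast
    congr 2
    norm_cast
    rw [sq_abs]

private theorem ap_nonneg (L : List (ℕ × (ℤ × Fk))) :
    0 ≤ (L.map fun q => (q.1 : ℝ) * ‖ep q.2.2‖ ^ 2).sum := by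
  apply List.sum_nonneg
  intro x hx
  rw [List.mem_map] at hx
  obtain ⟨q, _, rfl⟩ := hx
  positivity

/-- the value of the bracket -/
private theorem ap_value (hRun : St_Run) (hE : St_Ep) (hC : St_Cg) (z : ℂˣ)
    (hz : (z : ℂ) ^ 2 = Complex.I) (e : Bool) (D' : Word) (hok : Ok D' 2 0) (κ : ℂ)
    (hκ : ‖κ‖ = 1) (M : List (ℕ × (ℤ × Fk))) (hM : GdW M)
    (h : runU z (pU 1 :: D') (vc (dl 1)) = κ • smw e 2 M) :
    ‖evalAt z (bracket (unW (pU 0 :: D')))‖ =
      (M.map fun q => (q.1 : ℝ) * ‖ep q.2.2‖ ^ 2).sum := by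
  have h1 := hRun z hz D' hok
  rw [h] at h1
  have h2 := congrArg (fun x => ep (ct (gm 1) x)) h1
  simp only [map_smul] at h2
  rw [odd_dl1, ap_ep hE e M hM, smul_eq_mul, smul_eq_mul, mul_one,
    ap_real M fun q hq => hC.2 q.2.2 (hM q hq).int] at h2
  rw [← h2, norm_mul, hκ, one_mul, Complex.norm_real, Real.norm_eq_abs,
    abs_of_nonneg (ap_nonneg M)]

private theorem ap_int (hC : St_Cg) (q : ℤ × Fk) (hq : Gd q.1 q.2) :
    ∃ a : ℕ, ‖ep q.2‖ ^ 2 = a := by
  obtain ⟨m, hm⟩ := hC.2 q.2 hq.int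
  refine ⟨m.natAbs ^ 2, ?_⟩
  rw [hm, Complex.norm_intCast, sq_abs]
  push_cast
  have : ((m.natAbs : ℝ)) = |(m : ℝ)| := by
    rw [Nat.cast_natAbs]
    push_cast
    rfl
  rw [this, sq_abs]

private theorem ap_le (hC : St_Cg) (M : List (ℤ × Fk)) (M' : List (ℕ × (ℤ × Fk))) (h : Rl M M')
    (hM : GdL M) (hM' : GdW M') (h01 : ∀ q ∈ M, ‖ep q.2‖ ^ 2 = 0 ∨ ‖ep q.2‖ ^ 2 = 1) :
    ∃ a j : ℕ, (M.map fun q => ‖ep q.2‖ ^ 2).sum = a ∧
      (M'.map fun q => (q.1 : ℝ) * ‖ep q.2.2‖ ^ 2).sum = a + 2 * j := by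
  induction h with
  | nil => exact ⟨0, 0, by simp, by simp⟩
  | cons q q' L L' hq _ ih =>
    obtain ⟨a, j, h1, h2⟩ := ih (fun q hq => hM q (List.mem_cons_of_mem _ hq))
      (fun q hq => hM' q (List.mem_cons_of_mem _ hq))
      fun q hq => h01 q (List.mem_cons_of_mem _ hq)
    have hcg : CgL [q] [q'] := List.Forall₂.cons hq List.Forall₂.nil
    have hgd : GdL [q] := by
      intro r hr
      rw [List.mem_singleton] at hr
      rw [hr]
      exact hM q List.mem_cons_self
    obtain ⟨a0, j0, h3, h4⟩ := odd_le hC [q] [q'] hcg hgd (by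
      intro r hr
      rw [List.mem_singleton] at hr
      rw [hr]
      exact h01 q List.mem_cons_self)
    rw [List.map_singleton, List.sum_singleton] at h3 h4
    refine ⟨a0 + a, 2 * j0 + j, ?_, ?_⟩
    · rw [List.map_cons, List.sum_cons, h3, h1]
      push_cast
      rfl
    · rw [List.map_cons, List.sum_cons, h2]
      simp only [Nat.cast_one, one_mul]
      rw [h4]
      push_cast
      ring
  | ext c q' L L' hc _ ih =>
    obtain ⟨a, j, h1, h2⟩ := ih hM (fun q hq => hM' q (List.mem_cons_of_mem _ hq)) h01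
    obtain ⟨b, hb⟩ := ap_int hC q' (hM' _ List.mem_cons_self)
    refine ⟨a, c / 2 * b + j, h1, ?_⟩
    rw [List.map_cons, List.sum_cons, h2, hb]
    have h3 : (c : ℝ) = 2 * ((c / 2 : ℕ) : ℝ) := by
      have h4 : c = 2 * (c / 2) := by omega
      conv_lhs => rw [h4]
      push_cast
      rfl
    simp only
    rw [h3]
    push_cast
    ring

/-- Determinants can only grow, by an even number, if an alternating diagram is changed by full
twists on odd numbers of strands, and on even numbers of strands with the sign of the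
alternation. -/
theorem all_FourP : St_FourP := by
  intro z hz e D K hD hne hTw
  have hok := hD.ok
  have hal := hD.alt
  cases D with
  | nil => exact absurd rfl hne
  | cons s D' =>
    have hs : s = pU 0 := by
      have h1 := hok.1
      obtain ⟨k, i⟩ := s
      cases k with
      | U =>
        have h2 : i + 0 ≤ 0 := h1
        have h3 : i = 0 := by omega
        rw [h3]
      | N =>
        have h2 : i + 2 ≤ 0 := h1
        omega
      | X p =>
        have h2 : i + 2 ≤ 0 := h1
        omega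
    subst hs
    have hokD : Ok D' 2 0 := hok.2
    -- twists on no strands are empty
    have hinv : ∀ (E K : Word), Twe e 0 E K → ∀ E', E = pU 0 :: E' →
        ∃ K', K = pU 0 :: K' ∧ Twe e 2 E' K' := by
      intro E K hT
      generalize hn : 0 = n at hT
      induction hT with
      | nil n => intro E' h; exact absurd h (by simp)
      | @pc n E K s h hT _ =>
        intro E' h'
        subst hn
        have h1 := List.cons.inj h'
        obtain ⟨h2, h3⟩ := h1
        subst h2
        subst h3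
        exact ⟨K, rfl, hT⟩
      | @odd n E K a w k h hw hT ih =>
        subst hn
        omega
      | @even n E K a w k h hw hs hT ih =>
        intro E' h'
        subst hn
        have hw0 : w = 0 := by omega
        subst hw0
        have h1 : FT a 0 k = [] := by
          unfold FT
          rw [Nat.zero_mul]
          rfl
        rw [h1, List.nil_append]
        exact ih rfl E' h'
    obtain ⟨K', rfl, hT2⟩ := hinv _ K hTw D' rfl
    have hokK : Ok K' 2 0 := Ok_Twe e 2 D' K' hT2 0 hokD
    have hT4 : Twe e 2 (pU 1 :: D') (pU 1 :: K') := by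
      refine Twe.pc (pU 1) (by decide) ?_
      exact ap_Tw_add e 2 D' K' hT2
    have hok1 : Ok (pU 1 :: D') 2 2 := ⟨by decide, odd_Ok_add D' 2 0 hokD⟩
    have hal1 : ∀ (p : Bool) (i : ℕ), pX i p ∈ pU 1 :: D' → (p = e ↔ i % 2 = 0) := by
      intro p i hp
      rcases List.mem_cons.1 hp with hp | hp
      · exact absurd hp (by simp [pX, pU])
      · exact hal p i (List.mem_cons_of_mem _ hp)
    have hrl : Rl [((1 : ℤ), (1 : Fk))] [(1, ((1 : ℤ), (1 : Fk)))] := by
      refine Rl.cons _ _ _ _ ⟨rfl, 0, Iz.zero_mem, ?_⟩ Rl.nil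
      rw [mul_zero, add_zero]
    have hgw : GdW [(1, ((1 : ℤ), (1 : Fk)))] := by
      intro q hq
      rw [List.mem_singleton] at hq
      rw [hq]
      exact odd_gd1 _ List.mem_cons_self
    have hG := thm_Gd
    have hC := thm_Cg
    have hRun := thm_Run thm_Rel
    have hE := thm_Ep
    obtain ⟨M', κ', hκ', g1, g2, g3, g4⟩ := SumP (thm_TE thm_Om) (thm_TU1 thm_Om)
      (thm_TU0 thm_Om) (thm_TN1 thm_Om) (thm_TN0 thm_Om) (thm_FTw thm_Mx)
      (thm_TR thm_JR thm_Om) hG hC (thm_FTE thm_MxE) (thm_TEW thm_Om) thm_GdW z hz e 2 2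
      (pU 1 :: D') (pU 1 :: K') hT4 hok1 (by decide) hal1 [(1, 1)] [(1, (1, 1))] odd_gd1 hgw hrl
    obtain ⟨κ, hκ, _, f2⟩ := odd_self all_Stp hG z hz e (pU 1 :: D') 2 2 [(1, 1)] hok1 (by decide)
      hal1 odd_gd1
    rw [ap_initw] at g4
    rw [odd_init] at f2
    have vD := odd_value hRun hE hC z hz e D' hokD κ hκ _ g1 f2
    have vK := ap_value hRun hE hC z hz e K' hokK κ' hκ' _ g2 g4
    rw [vD, vK]
    refine ap_le hC _ M' g3 g1 g2 ?_
    -- the states
    intro q hq
    obtain ⟨v, hv, hvok, hvx, q', hq', hfold⟩ :=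
      thm_Sts hG (pU 1 :: D') 2 2 [(1, 1)] hok1 odd_gd1 q hq
    rw [List.mem_singleton] at hq'
    subst hq'
    have hv1 : ∃ u ∈ smth D', v = pU 1 :: u := by
      unfold smth at hv
      obtain ⟨u, hu, rfl⟩ := List.mem_map.1 hv
      exact ⟨u, hu, rfl⟩
    obtain ⟨u, hu, rfl⟩ := hv1
    have hoku : Ok u 2 0 := odd_smth_Ok D' 2 0 u hokD hu
    obtain ⟨κ2, hκ2, c1, c2⟩ := odd_self all_Stp hG z hz e (pU 1 :: u) 2 2 [(1, 1)] hvok
      (by decide) (fun p i hp => absurd hp (hvx i p)) odd_gd1
    rw [odd_init, hfold] at c2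
    rw [hfold] at c1
    have vu := odd_value hRun hE hC z hz e u hoku κ2 hκ2 [q] c1 c2
    rw [List.map_singleton, List.sum_singleton] at vu
    rw [← vu]
    have hx : ∀ (i : ℕ) (p : Bool), pX i p ∉ (pU 0 :: u : Word) := by
      intro i p hp
      rcases List.mem_cons.1 hp with hp | hp
      · exact absurd hp (by simp [pX, pU])
      · exact hvx i p (List.mem_cons_of_mem _ hp)
    rcases odd_bracket z hz (pU 0 :: u) hx with h1 | h1
    · left
      rw [h1, norm_zero]
    · right
      rw [h1, norm_one]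

end Pool.TWI
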