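import Pool.Agent.ARB.Defs

/-!
# TWI: full twists along arcs of alternating diagrams, definitions

Diagrams in Morse position are words of elementary pieces, read from bottom to top (`Word`, see
`ARB/Defs.lean`). The strands at every height are numbered `0, 1, 2, ...` from left to right, and
so are the gaps: gap `i` is to the left of strand `i`.
-/

set_option autoImplicit false

namespace Pool.TWI

open Pool.Agent.ARB

/-- `D` is an alternating diagram: all crossings have the same type with respect to the
checkerboard colouring of the regions (colour of a gap = parity of its number). -/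
structure Alt (D : Word) : Prop where
  ok : Ok D 0 0
  alt : ∃ e : Bool, ∀ (p : Bool) (i : ℕ), pX i p ∈ D → (p = e ↔ i % 2 = 0)

/-- the strand `a` passes over (or under) the strands `a + 1, ..., a + w - 1` -/
def sweep (a w : ℕ) (p : Bool) : Word := (List.range (w - 1)).map fun j => pX (a + j) p

/-- `k` full twists of the `w` strands `a, ..., a + w - 1` (right or left handed, according to the
sign of `k`). -/
def FT (a w : ℕ) (k : ℤ) : Word :=
  (List.replicate (w * k.natAbs) (sweep a w (decide (0 < k)))).flatten

/-- `K` is obtained from the word `D` on `n` strands by full twists along any number of disjoint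
arcs, each of which meets `D` in an odd number of points: at any heights full twists of an odd
number of adjacent strands are inserted. -/
inductive Tw : ℕ → Word → Word → Prop
  | nil (n : ℕ) : Tw n [] []
  | pc {n : ℕ} {D K : Word} (s : Piece) (h : s.i + s.k.inn ≤ n) :
      Tw (n - s.k.inn + s.k.out) D K → Tw n (s :: D) (s :: K)
  | tw {n : ℕ} {D K : Word} (a w : ℕ) (k : ℤ) (h : a + w ≤ n) (hw : w % 2 = 1) :
      Tw n D K → Tw n D (FT a w k ++ K)

/-! ### regions of a diagram -/

/-- `Pass s i j`: gap `i` below the piece `s` and gap `j` above it are connected along one of the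
sides of the piece. -/
inductive Pass : Piece → ℕ → ℕ → Prop
  | left (s : Piece) (i : ℕ) (h : i ≤ s.i) : Pass s i i
  | right (s : Piece) (i : ℕ) : Pass s (s.i + s.k.inn + i) (s.i + s.k.out + i)

/-- `(l, i)` is gap `i` at height `l` (above the first `l` pieces); two gaps belong to the same
region. -/
def Same (D : Word) : ℕ × ℕ → ℕ × ℕ → Prop :=
  Relation.EqvGen fun x y => ∃ s, D[x.1]? = some s ∧ y.1 = x.1 + 1 ∧ Pass s x.2 y.2

/-- The region of the gap `g` is at the crossing which is piece number `l` of `D`. -/
def Touch (D : Word) (g : ℕ × ℕ) (l : ℕ) : Prop :=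
  ∃ (i : ℕ) (p : Bool), D[l]? = some (pX i p) ∧
    (Same D g (l, i) ∨ Same D g (l, i + 1) ∨ Same D g (l, i + 2) ∨ Same D g (l + 1, i + 1))

/-- The regions of the two gaps have no common crossing. -/
def Apart (D : Word) (g g' : ℕ × ℕ) : Prop := ∀ l, ¬ (Touch D g l ∧ Touch D g' l)

end Pool.TWI
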