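import Pool.Agent.TWI.Defs

/-!
# TWI: full twists on odd and on even numbers of strands of alternating diagrams, definitions
-/

set_option autoImplicit false

namespace Pool.TWI

open Pool.Agent.ARB

/-- `D` is an alternating diagram of type `e`: all crossings have the same type with respect to the
checkerboard colouring of the regions (colour of a gap = parity of its number). -/
structure AltE (e : Bool) (D : Word) : Prop where
  ok : Ok D 0 0
  alt : ∀ (p : Bool) (i : ℕ), pX i p ∈ D → (p = e ↔ i % 2 = 0)

/-- `K` is obtained from the word `D` on `n` strands (of type `e`) by full twists along any number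
of disjoint arcs: at any heights full twists are inserted, of any sign on an odd number of adjacent
strands, or on an even number of adjacent strands with the sign for which their crossing of the
strands `a` and `a + 1` is of type `e`. -/
inductive Twe (e : Bool) : ℕ → Word → Word → Prop
  | nil (n : ℕ) : Twe e n [] []
  | pc {n : ℕ} {D K : Word} (s : Piece) (h : s.i + s.k.inn ≤ n) :
      Twe e (n - s.k.inn + s.k.out) D K → Twe e n (s :: D) (s :: K)
  | odd {n : ℕ} {D K : Word} (a w : ℕ) (k : ℤ) (h : a + w ≤ n) (hw : w % 2 = 1) :
      Twe e n D K → Twe e n D (FT a w k ++ K)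
  | even {n : ℕ} {D K : Word} (a w : ℕ) (k : ℤ) (h : a + w ≤ n) (hw : w % 2 = 0)
      (hs : decide (0 < k) = e ↔ a % 2 = 0) : Twe e n D K → Twe e n D (FT a w k ++ K)

end Pool.TWI
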