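import Pool.Agent.TWI.StO
import Pool.Agent.LSG.All

/-!
# TWI, module Det1: an alternating diagram with determinant one is trivial
-/

set_option autoImplicit false

namespace Pool.TWI

open Pool.Agent.ARB LaurentPolynomial
open Pool.Agent.Helper2 (Slice bracket evalAt loopVal Model Ops NoCross states curves)
open Pool.ALT (Gr nc pr nX toD gE gO Reg seq jo Nf nc_anti nc_pos nc_bot nc_sup_pr nc_sup_pr_le
  sup_pr_of pr_rel pr_le_iff)
open Pool.LSP (AltW Un Jn DS br_DW exists_kt k_eq)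
open Pool.LSG (St_BR St_NL St_NX St_SC St_IWN)

/-! ### exchange of edges -/

section

variable {V E : Type} [Finite V] (g : Gr V E)

theorem d1_rel {σ : Setoid V} (h : nc σ = 1) (x y : V) : σ x y := by
  by_contra hn
  have h1 := nc_sup_pr hn
  have : Nonempty V := ⟨x⟩
  have h2 := nc_pos (σ ⊔ pr x y)
  omega

theorem d1_path [DecidableEq E] (σ : Setoid V) (A : Finset E) :
    nc (g.sp σ A) + A.card = nc σ → ∀ x y, g.sp σ A x y → ¬ σ x y →
      ∃ k ∈ A, ¬ g.sp σ (A.erase k) x y := by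
  induction A using Finset.induction_on with
  | empty =>
    intro _ x y h hn
    rw [Gr.sp_empty] at h
    exact absurd h hn
  | insert e B he ih =>
    intro hi x y h hn
    rw [Finset.card_insert_of_notMem he] at hi
    have h1 := g.nc_le_add_card σ B
    have h2 : nc (g.sp σ B) ≤ nc (g.sp σ (insert e B)) + 1 := by
      rw [g.sp_insert]
      exact nc_sup_pr_le _ _ _
    have hB : nc (g.sp σ B) + B.card = nc σ := by omega
    have hne : ¬ g.sp σ B (g.u e) (g.v e) := by
      intro h3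
      rw [g.sp_insert_of h3] at hi
      omega
    by_cases hxy : g.sp σ B x y
    · obtain ⟨k, hk, hk2⟩ := ih hB x y hxy hn
      have hke : e ≠ k := by
        rintro rfl
        exact he hk
      refine ⟨k, Finset.mem_insert_of_mem hk, ?_⟩
      rw [Finset.erase_insert_of_ne hke, g.sp_insert]
      intro h3
      have h4 := (Pool.ALT.sup_pr_iff (g.sp σ (B.erase k)) (g.u e) (g.v e) x y).1 h3
      have hm : g.sp σ (B.erase k) ≤ g.sp σ B := g.sp_mono le_rfl (Finset.erase_subset _ _)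
      rcases h4 with h4 | ⟨h4, h5⟩ | ⟨h4, h5⟩
      · exact hk2 h4
      · exact hne ((g.sp σ B).trans' ((g.sp σ B).symm' (hm h4))
          ((g.sp σ B).trans' hxy ((g.sp σ B).symm' (hm h5))))
      · exact hne ((g.sp σ B).trans' (hm h5)
          ((g.sp σ B).trans' ((g.sp σ B).symm' hxy) (hm h4)))
    · exact ⟨e, Finset.mem_insert_self _ _, by rw [Finset.erase_insert he]; exact hxy⟩

/-- exchange -/
theorem d1_ex [DecidableEq E] (σ : Setoid V) (A : Finset E) (hi : nc (g.sp σ A) + A.card = nc σ)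
    (h1 : nc (g.sp σ A) = 1) (e : E) (hn : ¬ σ (g.u e) (g.v e)) :
    ∃ k ∈ A, nc (g.sp σ (insert e (A.erase k))) = 1 := by
  obtain ⟨k, hk, hk2⟩ := d1_path g σ A hi _ _ (d1_rel h1 (g.u e) (g.v e)) hn
  refine ⟨k, hk, ?_⟩
  have h2 := g.nc_le_add_card σ (A.erase k)
  have h3 : (A.erase k).card + 1 = A.card := Finset.card_erase_add_one hk
  have h4 : nc (g.sp σ (A.erase k)) ≤ nc (g.sp σ A) + 1 := by
    conv_rhs => rw [← Finset.insert_erase hk, g.sp_insert]
    exact nc_sup_pr_le _ _ _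
  have h5 : nc (g.sp σ (A.erase k) ⊔ pr (g.u e) (g.v e)) + 1 = nc (g.sp σ (A.erase k)) :=
    nc_sup_pr hk2
  rw [g.sp_insert]
  show nc (g.sp σ (A.erase k) ⊔ pr (g.u e) (g.v e)) = 1
  omega

omit [Finite V] in
theorem d1_ab (A : Finset E) : g.sp ⊥ A ⊔ g.ab = g.sp g.ab A := by
  unfold Gr.sp
  rw [bot_sup_eq, sup_comm]

end

/-! ### evaluation -/

theorem d1_norm {z : ℂˣ} (hz : (z : ℂ) ^ 2 = Complex.I) : ‖(z : ℂ)‖ = 1 := by
  have h1 : ‖(z : ℂ)‖ ^ 2 = 1 := by rw [← norm_pow, hz, Complex.norm_I]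
  have h2 := norm_nonneg (z : ℂ)
  nlinarith

theorem d1_normz {z : ℂˣ} (hz : (z : ℂ) ^ 2 = Complex.I) (k : ℤ) :
    ‖((z ^ k : ℂˣ) : ℂ)‖ = 1 := by
  rw [Units.val_zpow_eq_zpow_val, norm_zpow, d1_norm hz, one_zpow]

theorem d1_evT (z : ℂˣ) (k : ℤ) : evalAt z (T k) = ((z ^ k : ℂˣ) : ℂ) := by
  simp [evalAt, LaurentPolynomial.eval₂_T]

theorem d1_evU {z : ℂˣ} (hz : (z : ℂ) ^ 2 = Complex.I) {u : LP} (h : IsU u) :
    ‖evalAt z u‖ = 1 := by
  obtain ⟨k, h | h⟩ := h
  · rw [h, d1_evT, d1_normz hz]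
  · rw [h, map_neg, norm_neg, d1_evT, d1_normz hz]

theorem d1_loop {z : ℂˣ} (hz : (z : ℂ) ^ 2 = Complex.I) : evalAt z loopVal = 0 := by
  have hz4 : ((z ^ (-2 : ℤ) : ℂˣ) : ℂ) = -Complex.I := by
    have h2 : ((z ^ (-2 : ℤ) : ℂˣ) : ℂ) * (z : ℂ) ^ 2 = 1 := by
      rw [← Units.val_pow_eq_pow_val, ← Units.val_mul]
      simp
    rw [hz] at h2
    calc ((z ^ (-2 : ℤ) : ℂˣ) : ℂ) = ((z ^ (-2 : ℤ) : ℂˣ) : ℂ) * Complex.I * (-Complex.I) := by
          rw [mul_assoc]
          simp
      _ = _ := by rw [h2, one_mul]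
  have hz5 : ((z ^ (2 : ℤ) : ℂˣ) : ℂ) = Complex.I := by
    rw [← hz]
    norm_cast
  simp only [evalAt, loopVal, map_neg, map_add, LaurentPolynomial.eval₂_T]
  rw [hz4, hz5]
  ring

/-- the number of the states with one curve -/
theorem d1_DS {z : ℂˣ} (hz : (z : ℂ) ^ 2 = Complex.I) (s : ℤ) (n c : ℕ) (l : Finset (Fin n) → ℕ)
    (hl : ∀ A, l A = 0 → A.card = c) :
    ‖evalAt z (DS s n l)‖ = ((Finset.univ.filter fun A => l A = 0).card : ℝ) := by
  have h1 : evalAt z (DS s n l) =
      ((Finset.univ.filter fun A => l A = 0).card : ℂ) *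
        ((z ^ (s * ((n : ℤ) - 2 * c)) : ℂˣ) : ℂ) := by
    unfold DS
    rw [map_sum, ← Finset.sum_filter_add_sum_filter_not Finset.univ (fun A => l A = 0)]
    have h2 : ∑ A : Finset (Fin n) with ¬ l A = 0,
        evalAt z (T (s * ((n : ℤ) - 2 * A.card)) * loopVal ^ l A) = 0 := by
      apply Finset.sum_eq_zero
      intro A hA
      rw [Finset.mem_filter] at hA
      rw [map_mul, map_pow, d1_loop hz, zero_pow hA.2, mul_zero]
    rw [h2, add_zero, Finset.card_eq_sum_ones, Nat.cast_sum, Finset.sum_mul]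
    refine Finset.sum_congr rfl fun A hA => ?_
    rw [Finset.mem_filter] at hA
    rw [map_mul, map_pow, d1_loop hz, hA.2, pow_zero, mul_one, d1_evT, hl A hA.2]
    simp
  rw [h1, norm_mul, d1_normz hz, mul_one, Complex.norm_natCast]

/-- [AK] with the determinant -/
theorem d1_AK {z : ℂˣ} (hz : (z : ℂ) ^ 2 = Complex.I) (e : Bool) (w : Word) (h : Ok w 2 2)
    (ha : AltW e w) (hn : 1 ≤ nX w) (hu : ‖evalAt z (bracket (toD (DW w)))‖ = 1) :
    (∃ k, (gE w h).u k = (gE w h).v k ∨ Jn (gE w h) k (gE w h).a (gE w h).b) ∨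
      ∃ k, (gO w h).u k = (gO w h).v k := by
  classical
  by_contra hc
  push Not at hc
  obtain ⟨c1, c2⟩ := hc
  obtain ⟨k, t, hkt⟩ := exists_kt h
  have hp := Pool.ALT.mo_HP e w k t h ha hkt
  rw [br_DW h hp] at hu
  have h3 : DS (Pool.ALT.sg e) (nX w) (fun A => k A + (t A).toNat) =
      (∑ A : Finset (Fin (nX w)) with ¬ t A = true,
        T (Pool.ALT.sg e * ((nX w : ℤ) - 2 * A.card)) * loopVal ^ k A) +
      loopVal * (∑ A : Finset (Fin (nX w)) with t A = true,
        T (Pool.ALT.sg e * ((nX w : ℤ) - 2 * A.card)) * loopVal ^ k A) := by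
    unfold DS
    rw [← Finset.sum_filter_add_sum_filter_not Finset.univ (fun A => t A = true),
      Finset.mul_sum, add_comm]
    congr 1
    · refine Finset.sum_congr rfl fun A hA => ?_
      rw [Finset.mem_filter] at hA
      have h4 : t A = false := by simpa using hA.2
      show T (Pool.ALT.sg e * ((nX w : ℤ) - 2 * A.card)) * loopVal ^ (k A + (t A).toNat) = _
      rw [h4]
      rfl
    · refine Finset.sum_congr rfl fun A hA => ?_
      rw [Finset.mem_filter] at hA
      show T (Pool.ALT.sg e * ((nX w : ℤ) - 2 * A.card)) * loopVal ^ (k A + (t A).toNat) = _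
      rw [hA.2, show (true : Bool).toNat = 1 from rfl, pow_succ]
      ring
  rw [← h3] at hu
  have : Nonempty (Reg true w) := ⟨(gE w h).a⟩
  have : Nonempty (Reg false w) := ⟨(gO w h).a⟩
  -- numbers of classes with the marked vertices joined
  have hN : ∀ A : Finset (Fin (nX w)), nc ((gE w h).sp ⊥ A) + (t A).toNat =
      nc ((gE w h).sp ⊥ A ⊔ (gE w h).ab) + 1 := by
    intro A
    obtain ⟨-, h7, -⟩ := Pool.ALT.mo_CT w h A _ _ (hkt A)
    cases ht : t A with
    | true =>
      have h5 : (gE w h).sp ⊥ A ⊔ (gE w h).ab = (gE w h).sp ⊥ A := sup_pr_of _ (h7.2 ht)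
      rw [h5]
      rfl
    | false =>
      have h4 : ¬ (gE w h).sp ⊥ A (gE w h).a (gE w h).b := by
        intro h5
        rw [h7.1 h5] at ht
        exact absurd ht (by decide)
      exact (nc_sup_pr h4).symm
  have hcc : ∀ A : Finset (Fin (nX w)), (Finset.univ \ A).card + A.card = nX w := by
    intro A
    rw [Finset.card_sdiff_add_card_eq_card (Finset.subset_univ A), Finset.card_univ,
      Fintype.card_fin]
  -- the states with one curve
  have hκ0 : ∀ A : Finset (Fin (nX w)), nc ((gO w h).sp ⊥ Finset.univ ⊔ (gO w h).ab) ≤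
      nc ((gO w h).sp ⊥ (Finset.univ \ A) ⊔ (gO w h).ab) := fun A =>
    nc_anti (sup_le_sup_right (Gr.sp_mono _ le_rfl (Finset.subset_univ _)) _)
  have hκ1 := nc_pos ((gO w h).sp ⊥ Finset.univ ⊔ (gO w h).ab)
  have hone : ∀ A : Finset (Fin (nX w)), k A + (t A).toNat = 0 →
      A.card + 2 = Fintype.card (Reg true w) ∧
      nc ((gO w h).sp ⊥ Finset.univ ⊔ (gO w h).ab) = 1 ∧
      nc ((gE w h).sp ⊥ A ⊔ (gE w h).ab) = 1 ∧ nc ((gO w h).sp ⊥ (Finset.univ \ A)) = 1 := by
    intro A hA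
    obtain ⟨p1, p2, p3⟩ := k_eq h (hkt A)
    have r1 := hN A
    have r2 := nc_pos ((gE w h).sp ⊥ A ⊔ (gE w h).ab)
    have r3 := nc_pos ((gO w h).sp ⊥ (Finset.univ \ A))
    have r4 := hκ0 A
    omega
  have hcard := d1_DS hz (Pool.ALT.sg e) (nX w) (Fintype.card (Reg true w) - 2)
    (fun A => k A + (t A).toNat) (fun A hA => by
      have := (hone A hA).1
      omega)
  rw [hu] at hcard
  have hcard' : (Finset.univ.filter fun A => k A + (t A).toNat = 0).card = 1 := by
    exact_mod_cast hcard.symm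
  obtain ⟨A, hA⟩ := Finset.card_eq_one.1 hcard'
  have hAm : k A + (t A).toNat = 0 := by
    have : A ∈ (Finset.univ.filter fun A => k A + (t A).toNat = 0) := by
      rw [hA]
      exact Finset.mem_singleton_self A
    exact (Finset.mem_filter.1 this).2
  have huniq : ∀ A', k A' + (t A').toNat = 0 → A' = A := by
    intro A' h'
    have : A' ∈ (Finset.univ.filter fun A => k A + (t A).toNat = 0) :=
      Finset.mem_filter.2 ⟨Finset.mem_univ _, h'⟩
    rw [hA] at this
    exact Finset.mem_singleton.1 this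
  obtain ⟨o1, o2, o3, o4⟩ := hone A hAm
  obtain ⟨k0⟩ : Nonempty (Fin (nX w)) := ⟨⟨0, hn⟩⟩
  by_cases hk0 : k0 ∈ A
  · -- exchange in the odd graph
    obtain ⟨q1, q2, q3⟩ := k_eq h (hkt Finset.univ)
    rw [Finset.sdiff_self, Gr.sp_empty] at q1 q2 q3
    rw [Finset.card_univ, Fintype.card_fin] at q3
    have q4 := hN Finset.univ
    have q5 := nc_pos ((gE w h).sp ⊥ Finset.univ ⊔ (gE w h).ab)
    have q6 : nc ((gE w h).sp ⊥ Finset.univ ⊔ (gE w h).ab) ≤
        nc ((gE w h).sp ⊥ A ⊔ (gE w h).ab) :=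
      nc_anti (sup_le_sup_right (Gr.sp_mono _ le_rfl (Finset.subset_univ _)) _)
    have q7 := hcc A
    have hi : nc ((gO w h).sp ⊥ (Finset.univ \ A)) + (Finset.univ \ A).card =
        nc (⊥ : Setoid (Reg false w)) := by
      omega
    obtain ⟨k', hk', hk2⟩ := d1_ex (gO w h) ⊥ (Finset.univ \ A) hi o4 k0 (c2 k0)
    set B' := insert k0 ((Finset.univ \ A).erase k') with hB'
    have hB'c : B'.card = (Finset.univ \ A).card := by
      have h4 : k0 ∉ (Finset.univ \ A).erase k' := by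
        intro h5
        exact (Finset.mem_sdiff.1 (Finset.mem_of_mem_erase h5)).2 hk0
      rw [hB', Finset.card_insert_of_notMem h4, Finset.card_erase_add_one hk']
    have hBB : Finset.univ \ (Finset.univ \ B') = B' := by
      ext x
      simp
    have hA'l : k (Finset.univ \ B') + (t (Finset.univ \ B')).toNat = 0 := by
      obtain ⟨p1, p2, p3⟩ := k_eq h (hkt (Finset.univ \ B'))
      rw [hBB] at p1 p2 p3
      have r1 := hN (Finset.univ \ B')
      have r2 := nc_pos ((gO w h).sp ⊥ B' ⊔ (gO w h).ab)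
      have r3 := hcc B'
      omega
    have h5 := huniq _ hA'l
    have h6 : k0 ∈ Finset.univ \ B' := by rw [h5]; exact hk0
    exact (Finset.mem_sdiff.1 h6).2 (Finset.mem_insert_self _ _)
  · -- exchange in the even graph
    have hab : ¬ (⊥ : Setoid (Reg true w)) (gE w h).a (gE w h).b := by
      intro h4
      have h5 : (gE w h).sp ⊥ A (gE w h).a (gE w h).b := (Gr.le_sp _ ⊥ A) h4
      have h6 : (gE w h).sp ⊥ A ⊔ (gE w h).ab = (gE w h).sp ⊥ A := sup_pr_of _ h5
      have r1 := hN A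
      rw [h6] at r1
      omega
    have hab2 := nc_sup_pr hab
    rw [bot_sup_eq, nc_bot, Nat.card_eq_fintype_card] at hab2
    have o3' := o3
    rw [d1_ab] at o3'
    have hi : nc ((gE w h).sp (gE w h).ab A) + A.card = nc (gE w h).ab := by
      have h4 : nc (gE w h).ab + 1 = Fintype.card (Reg true w) := hab2
      omega
    have hkn : ¬ (gE w h).ab ((gE w h).u k0) ((gE w h).v k0) := by
      rintro (h6 | ⟨h6, h7⟩ | ⟨h6, h7⟩)
      · exact (c1 k0).1 h6
      · exact (c1 k0).2 (Or.inl ⟨h6, h7⟩)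
      · exact (c1 k0).2 (Or.inr ⟨h6, h7⟩)
    obtain ⟨k', hk', hk2⟩ := d1_ex (gE w h) (gE w h).ab A hi o3' k0 hkn
    set A' := insert k0 (A.erase k') with hA'
    have hA'c : A'.card = A.card := by
      have h4 : k0 ∉ A.erase k' := fun h5 => hk0 (Finset.mem_of_mem_erase h5)
      rw [hA', Finset.card_insert_of_notMem h4, Finset.card_erase_add_one hk']
    rw [← d1_ab] at hk2
    have hA'l : k A' + (t A').toNat = 0 := by
      obtain ⟨p1, p2, p3⟩ := k_eq h (hkt A')
      have r1 := hN A'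
      omega
    have h5 := huniq _ hA'l
    exact hk0 (by rw [← h5]; exact Finset.mem_insert_self _ _)

/-! ### isotopies -/

theorem d1_forget (w : Word) : forget (toD w) = w := by
  induction w with
  | nil => rfl
  | cons s w ih =>
    obtain ⟨k, i⟩ := s
    cases k with
    | U => exact congrArg (List.cons (pU i)) ih
    | N => exact congrArg (List.cons (pN i)) ih
    | X p => exact congrArg (List.cons (pX i p)) ih

/-- the bracket of an isotopic diagram -/
theorem d1_iso {D D' : Word} (hD : Ok D 0 0) (hne : D ≠ []) (hI : Iso 0 D D') :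
    ∃ u : LP, IsU u ∧ bracket (toD D) = u * bracket (toD D') := by
  have hD' : Ok D' 0 0 := hI.ok hD
  have hne' : D' ≠ [] := by
    intro h
    subst h
    exact hne (iso_nil' hI)
  have hn : ∀ {w : Word}, w ≠ [] → toD w ≠ [] := by
    intro w h h1
    apply h
    rw [← d1_forget w, h1]
    rfl
  obtain ⟨V, _, _, M, hM, hinj⟩ := thm_Vert
  obtain ⟨u, hu, h1⟩ := thm_Inv V M hM 0 0 D D' hD hI
  have e1 := thm_BrRun V M hM (toD D) (hn hne) (Pool.Agent.ALT.lift_ok D 0 0 hD)
  have e2 := thm_BrRun V M hM (toD D') (hn hne') (Pool.Agent.ALT.lift_ok D' 0 0 hD')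
  rw [d1_forget] at e1 e2
  have h2 := h1 M.init M.supp_init
  rw [e1, e2, smul_smul] at h2
  have h3 := hinj _ _ h2
  refine ⟨u, hu, ?_⟩
  apply mul_left_cancel₀ pairRun_loopVal_ne
  rw [h3]
  ring

theorem d1_normI {z : ℂˣ} (hz : (z : ℂ) ^ 2 = Complex.I) {D D' : Word} (hD : Ok D 0 0)
    (hne : D ≠ []) (hI : Iso 0 D D') :
    ‖evalAt z (bracket (toD D))‖ = ‖evalAt z (bracket (toD D'))‖ := by
  obtain ⟨u, hu, h⟩ := d1_iso hD hne hI
  rw [h, map_mul, norm_mul, d1_evU hz hu, one_mul]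

theorem d1_states (w : List Slice) (h : NoCross w) : states w = [(0, w)] := by
  induction w with
  | nil => rfl
  | cons s w ih =>
    cases s with
    | cup i u =>
      rw [states, ih h]
      · rfl
      · intro j p; exact Slice.noConfusion
    | cap i =>
      rw [states, ih h]
      · rfl
      · intro j p; exact Slice.noConfusion
    | cross i p => exact absurd h (by simp [NoCross])

theorem d1_noCross (w : Word) (h : nX w = 0) : NoCross (toD w) := by
  induction w with
  | nil => trivial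
  | cons s w ih =>
    obtain ⟨k, i⟩ := s
    cases k with
    | U => exact ih h
    | N => exact ih h
    | X p => exact absurd h (by show nX w + 1 ≠ 0; omega)

/-- [K2] with the determinant -/
theorem d1_K2 {z : ℂˣ} (hz : (z : ℂ) ^ 2 = Complex.I) : ∀ (n : ℕ) (e : Bool) (A : Word),
    Ok A 2 0 → AltW e A → ‖evalAt z (bracket (toD (pU 0 :: A)))‖ = 1 → nX A = n →
      Iso 2 A [pN 0] := by
  intro n
  induction n using Nat.strong_induction_on with
  | _ n IH =>
  intro e A hA hal hU hn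
  by_cases h0 : nX A = 0
  · refine Pool.LSG.all_NX A hA h0 ?_
    have h1 : bracket (toD (pU 0 :: A)) = loopVal ^ (curves (toD (pU 0 :: A)) - 1) := by
      have h2 := d1_states (toD (pU 0 :: A)) (d1_noCross (pU 0 :: A) h0)
      unfold bracket
      rw [h2]
      simp
    rw [h1, map_pow, d1_loop hz] at hU
    have h2 : curves (toD (pU 0 :: A)) - 1 = 0 := by
      by_contra h3
      rw [zero_pow h3, norm_zero] at hU
      exact zero_ne_one hU
    rw [h1, h2, pow_zero]
    exact ⟨0, Or.inl T_zero.symm⟩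
  obtain ⟨hok, hiso⟩ := Pool.LSG.thm_IWN.2.2 A hA
  have hokU : Ok (pU 0 :: A) 0 0 := ⟨by decide, hA⟩
  have hU' : ‖evalAt z (bracket (toD (DW (pU 1 :: A))))‖ = 1 := by
    rw [← d1_normI hz hokU (by simp) hiso.symm]
    exact hU
  have hAw : AltW e (pU 1 :: A) := by
    intro p i hm
    rcases List.mem_cons.1 hm with h | h
    · cases h
    · exact hal p i h
  obtain ⟨κ, pr, c, W, hW, hD, hF, hb⟩ := Pool.LSG.all_BR.2 e A hA hal hok
  have h1 : 1 ≤ nX (pU 1 :: A) := by
    have h2 : nX (pU 1 :: A) = nX A := rfl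
    omega
  obtain ⟨V', hV', hA', hn', hi⟩ :=
    Pool.LSG.all_NL e pr c 2 W hD hF (hb (d1_AK hz e _ hok hAw h1 hU'))
  rw [hW] at hi hn'
  have i2 : Iso 0 (pU 0 :: A) (pU 0 :: V') := Iso.left (z := [pU 0]) (k := 2) ⟨by decide, rfl⟩ hi
  refine hi.trans (IH (nX V') (by omega) e V' hV' hA' ?_ rfl)
  rw [← d1_normI hz hokU (by simp) i2]
  exact hU

/-- An alternating diagram with determinant one is trivial. -/
theorem thm_Det1 (z : ℂˣ) (hz : (z : ℂ) ^ 2 = Complex.I) (D : Word) (hD : Alt D) (hne : D ≠ [])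
    (h : ‖evalAt z (bracket (unW D))‖ = 1) : Iso 0 D O1 := by
  obtain ⟨hok, e, hal⟩ := hD
  cases D with
  | nil => exact absurd rfl hne
  | cons s A =>
    obtain ⟨k, i⟩ := s
    have h1 : i + k.inn ≤ 0 := hok.1
    cases k with
    | N => exact absurd h1 (by show ¬ i + 2 ≤ 0; omega)
    | X p => exact absurd h1 (by show ¬ i + 2 ≤ 0; omega)
    | U =>
      have hi : i = 0 := by
        have h2 : i + 0 ≤ 0 := h1
        omega
      subst hi
      have hA : Ok A 2 0 := hok.2
      have hAA : AltW e A := fun p i hm => hal p i (List.mem_cons_of_mem _ hm)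
      have h2 := d1_K2 hz (nX A) e A hA hAA h rfl
      exact Iso.left (z := [pU 0]) (k := 2) ⟨by decide, rfl⟩ h2

end Pool.TWI
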