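import Mathlib

/-!
# TWI, T-B: rules for exterior algebras
-/

set_option autoImplicit false

namespace Pool.TWI

section

variable {R M N : Type} [CommRing R] [AddCommGroup M] [Module R M] [AddCommGroup N] [Module R N]

/-- contraction with a functional -/
noncomputable def ct (d : Module.Dual R M) : ExteriorAlgebra R M →ₗ[R] ExteriorAlgebra R M :=
  CliffordAlgebra.contractLeft (Q := (0 : QuadraticForm R M)) d

/-- the grade involution -/
noncomputable def iv : ExteriorAlgebra R M →ₐ[R] ExteriorAlgebra R M :=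
  CliffordAlgebra.involute (Q := (0 : QuadraticForm R M))

/-- reversion -/
noncomputable def rv : ExteriorAlgebra R M →ₗ[R] ExteriorAlgebra R M :=
  CliffordAlgebra.reverse (Q := (0 : QuadraticForm R M))

/-- the map induced by a linear map -/
noncomputable def mp (f : M →ₗ[R] N) : ExteriorAlgebra R M →ₗ[R] ExteriorAlgebra R N :=
  (ExteriorAlgebra.map f).toLinearMap

/-- the vector `v` as an element of the exterior algebra -/
noncomputable def vc : M →ₗ[R] ExteriorAlgebra R M := ExteriorAlgebra.ι R

theorem ext_ind {P : ExteriorAlgebra R M → Prop} (h0 : ∀ r : R, P (r • 1))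
    (ha : ∀ x y, P x → P y → P (x + y)) (hm : ∀ (m : M) (x : ExteriorAlgebra R M), P x →
      P (vc m * x)) : ∀ x, P x := by
  intro x
  refine CliffordAlgebra.left_induction (Q := (0 : QuadraticForm R M)) (P := P) ?_ ha
    (fun x m h => hm m x h) x
  intro r
  have h := h0 r
  rwa [Algebra.algebraMap_eq_smul_one]

theorem vc_sq (m : M) : vc (R := R) m * vc m = 0 := ExteriorAlgebra.ι_sq_zero m

theorem vc_swap (m m' : M) : vc (R := R) m * vc m' = -(vc m' * vc m) := by
  have h := ExteriorAlgebra.ι_add_mul_swap (R := R) m m'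
  exact eq_neg_of_add_eq_zero_left h

theorem vc_swap' (m m' : M) (x : ExteriorAlgebra R M) :
    vc m * (vc m' * x) = -(vc m' * (vc m * x)) := by
  rw [← mul_assoc, vc_swap, neg_mul, mul_assoc]

theorem vc_sq' (m : M) (x : ExteriorAlgebra R M) : vc m * (vc m * x) = 0 := by
  rw [← mul_assoc, vc_sq, zero_mul]

theorem ct_one (d : Module.Dual R M) : ct d 1 = 0 :=
  CliffordAlgebra.contractLeft_one (Q := (0 : QuadraticForm R M)) d

theorem ct_mul (d : Module.Dual R M) (m : M) (x : ExteriorAlgebra R M) :
    ct d (vc m * x) = d m • x - vc m * ct d x :=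
  CliffordAlgebra.contractLeft_ι_mul (Q := (0 : QuadraticForm R M)) d m x

theorem ct_ct (d : Module.Dual R M) (x : ExteriorAlgebra R M) : ct d (ct d x) = 0 :=
  CliffordAlgebra.contractLeft_contractLeft (Q := (0 : QuadraticForm R M)) d x

theorem ct_comm (d d' : Module.Dual R M) (x : ExteriorAlgebra R M) :
    ct d (ct d' x) = -ct d' (ct d x) :=
  CliffordAlgebra.contractLeft_comm (Q := (0 : QuadraticForm R M)) d d' x

theorem ct_add (d d' : Module.Dual R M) (x : ExteriorAlgebra R M) :
    ct (d + d') x = ct d x + ct d' x := by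
  unfold ct
  rw [map_add, LinearMap.add_apply]

theorem ct_smul (c : R) (d : Module.Dual R M) (x : ExteriorAlgebra R M) :
    ct (c • d) x = c • ct d x := by
  unfold ct
  rw [map_smul, LinearMap.smul_apply]

theorem ct_zero (x : ExteriorAlgebra R M) : ct (0 : Module.Dual R M) x = 0 := by
  unfold ct
  rw [map_zero, LinearMap.zero_apply]

theorem ct_neg (d : Module.Dual R M) (x : ExteriorAlgebra R M) : ct (-d) x = -ct d x := by
  unfold ct
  rw [map_neg, LinearMap.neg_apply]

theorem iv_one : iv (1 : ExteriorAlgebra R M) = 1 := map_one _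

theorem iv_vc (m : M) : iv (vc (R := R) m) = -vc m :=
  CliffordAlgebra.involute_ι (Q := (0 : QuadraticForm R M)) m

theorem iv_mul (x y : ExteriorAlgebra R M) : iv (x * y) = iv x * iv y := map_mul _ _ _

theorem iv_iv (x : ExteriorAlgebra R M) : iv (iv x) = x :=
  CliffordAlgebra.involute_involute (Q := (0 : QuadraticForm R M)) x

theorem rv_one : rv (1 : ExteriorAlgebra R M) = 1 :=
  CliffordAlgebra.reverse.map_one (Q := (0 : QuadraticForm R M))

theorem rv_vc (m : M) : rv (vc (R := R) m) = vc m :=
  CliffordAlgebra.reverse_ι (Q := (0 : QuadraticForm R M)) m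

theorem rv_mul (x y : ExteriorAlgebra R M) : rv (x * y) = rv y * rv x :=
  CliffordAlgebra.reverse.map_mul (Q := (0 : QuadraticForm R M)) x y

theorem rv_iv (x : ExteriorAlgebra R M) : rv (iv x) = iv (rv x) :=
  CliffordAlgebra.reverse_involute (Q := (0 : QuadraticForm R M)) x

theorem mp_one (f : M →ₗ[R] N) : mp f 1 = 1 := map_one (ExteriorAlgebra.map f)

theorem mp_vc (f : M →ₗ[R] N) (m : M) : mp f (vc m) = vc (f m) :=
  ExteriorAlgebra.map_apply_ι f m

theorem mp_mul (f : M →ₗ[R] N) (x y : ExteriorAlgebra R M) : mp f (x * y) = mp f x * mp f y :=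
  map_mul (ExteriorAlgebra.map f) x y

theorem mp_id (x : ExteriorAlgebra R M) : mp (LinearMap.id : M →ₗ[R] M) x = x := by
  induction x using ext_ind with
  | h0 r =>
    rw [map_smul, mp_one]
  | ha x y hx hy =>
    rw [map_add, hx, hy]
  | hm m x hx =>
    rw [mp_mul, mp_vc, hx, LinearMap.id_apply]

theorem mp_mp {P : Type} [AddCommGroup P] [Module R P] (g : N →ₗ[R] P) (f : M →ₗ[R] N)
    (x : ExteriorAlgebra R M) : mp g (mp f x) = mp (g ∘ₗ f) x := by
  induction x using ext_ind with
  | h0 r =>
    rw [map_smul, map_smul, map_smul, mp_one, mp_one, mp_one]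
  | ha x y hx hy =>
    rw [map_add, map_add, map_add, hx, hy]
  | hm m x hx =>
    rw [mp_mul, mp_mul, mp_mul, mp_vc, mp_vc, mp_vc, hx, LinearMap.comp_apply]

/-- the vector to the other side -/
theorem vc_mul (m : M) (x : ExteriorAlgebra R M) : vc m * x = iv x * vc m := by
  induction x using ext_ind with
  | h0 r =>
    rw [map_smul, iv_one, mul_smul_comm, smul_mul_assoc, mul_one, one_mul]
  | ha x y hx hy =>
    rw [mul_add, map_add, add_mul, hx, hy]
  | hm m' x hx =>
    rw [iv_mul, iv_vc, vc_swap', hx, neg_mul, neg_mul, mul_assoc]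

theorem vc_mul' (m : M) (x : ExteriorAlgebra R M) : vc m * iv x = x * vc m := by
  rw [vc_mul, iv_iv]

theorem iv_ct (d : Module.Dual R M) (x : ExteriorAlgebra R M) : iv (ct d x) = -ct d (iv x) := by
  induction x using ext_ind with
  | h0 r =>
    rw [map_smul, map_smul, map_smul, map_smul, ct_one, iv_one, ct_one]
    simp
  | ha x y hx hy =>
    rw [map_add, map_add, map_add, map_add, hx, hy]
    abel
  | hm m x hx =>
    rw [ct_mul, iv_mul, iv_vc, map_sub, map_smul, iv_mul, iv_vc, hx, neg_mul, neg_mul, map_neg,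
      ct_mul, mul_neg]
    abel

/-- contraction of a product -/
theorem ct_prod (d : Module.Dual R M) (x y : ExteriorAlgebra R M) :
    ct d (x * y) = ct d x * y + iv x * ct d y := by
  revert y
  induction x using ext_ind with
  | h0 r =>
    intro y
    rw [smul_mul_assoc, one_mul, map_smul, map_smul, map_smul, ct_one, iv_one, smul_zero,
      zero_mul, zero_add, smul_mul_assoc, one_mul]
  | ha x x' hx hx' =>
    intro y
    rw [add_mul, map_add, map_add, map_add, hx, hx', add_mul, add_mul]
    abel
  | hm m x hx =>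
    intro y
    rw [mul_assoc, ct_mul, ct_mul, hx, iv_mul, iv_vc, sub_mul, mul_add, smul_mul_assoc,
      mul_assoc, neg_mul, neg_mul, mul_assoc]
    abel

/-- contraction of a reversed element -/
theorem ct_rv (d : Module.Dual R M) (x : ExteriorAlgebra R M) : ct d (rv x) = iv (rv (ct d x)) := by
  induction x using ext_ind with
  | h0 r =>
    rw [map_smul, map_smul, map_smul, map_smul, map_smul, rv_one, ct_one, map_zero, map_zero]
  | ha x y hx hy =>
    rw [map_add, map_add, map_add, map_add, map_add, hx, hy]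
  | hm m x hx =>
    rw [rv_mul, rv_vc, ct_prod, hx, ct_mul, map_sub, map_smul, rv_mul, rv_vc, map_sub, map_smul,
      iv_mul, iv_vc]
    have h1 : ct d (vc m) = (d m) • (1 : ExteriorAlgebra R M) := by
      have h2 := ct_mul d m 1
      rw [mul_one, ct_one, mul_zero, sub_zero] at h2
      exact h2
    rw [h1, mul_smul_comm, mul_one, mul_neg, sub_neg_eq_add, add_comm]

theorem mp_iv (f : M →ₗ[R] N) (x : ExteriorAlgebra R M) : mp f (iv x) = iv (mp f x) := by
  induction x using ext_ind with
  | h0 r =>
    rw [map_smul, map_smul, map_smul, map_smul, iv_one, mp_one, iv_one]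
  | ha x y hx hy =>
    rw [map_add, map_add, map_add, map_add, hx, hy]
  | hm m x hx =>
    rw [iv_mul, mp_mul, mp_mul, iv_mul, hx, iv_vc, mp_vc, iv_vc, map_neg, mp_vc]

theorem mp_rv (f : M →ₗ[R] N) (x : ExteriorAlgebra R M) : mp f (rv x) = rv (mp f x) := by
  induction x using ext_ind with
  | h0 r =>
    rw [map_smul, map_smul, map_smul, map_smul, rv_one, mp_one, rv_one]
  | ha x y hx hy =>
    rw [map_add, map_add, map_add, map_add, hx, hy]
  | hm m x hx =>
    rw [rv_mul, mp_mul, mp_mul, rv_mul, hx, rv_vc, mp_vc, rv_vc]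

/-- contraction and maps -/
theorem ct_mp (f : M →ₗ[R] N) (d : Module.Dual R N) (x : ExteriorAlgebra R M) :
    ct d (mp f x) = mp f (ct (d ∘ₗ f) x) := by
  induction x using ext_ind with
  | h0 r =>
    rw [map_smul, map_smul, map_smul, map_smul, mp_one, ct_one, ct_one, map_zero]
  | ha x y hx hy =>
    rw [map_add, map_add, map_add, map_add, hx, hy]
  | hm m x hx =>
    rw [mp_mul, mp_vc, ct_mul, hx, ct_mul, map_sub, map_smul, mp_mul, mp_vc,
      LinearMap.comp_apply]

/-- two maps which differ by a map of rank one -/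
theorem mp_rank (f : M →ₗ[R] N) (v : N) (d : Module.Dual R M) (x : ExteriorAlgebra R M) :
    mp (f + d.smulRight v) x = mp f x + vc v * mp f (ct d x) := by
  induction x using ext_ind with
  | h0 r =>
    rw [map_smul, map_smul, map_smul, map_smul, mp_one, mp_one, ct_one, map_zero, smul_zero,
      mul_zero, add_zero]
  | ha x y hx hy =>
    rw [map_add, map_add, map_add, map_add, hx, hy, mul_add]
    abel
  | hm m x hx =>
    rw [mp_mul, hx, mp_vc, mp_mul, mp_vc, ct_mul, map_sub, map_smul, mp_mul, mp_vc]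
    have h1 : (f + d.smulRight v) m = f m + d m • v := by
      rw [LinearMap.add_apply, LinearMap.smulRight_apply]
    rw [h1, map_add, map_smul, add_mul, mul_add, mul_add, mul_sub, smul_mul_assoc,
      smul_mul_assoc, vc_sq', smul_zero, add_zero, mul_smul_comm, vc_swap' v (f m)]
    abel

/-- the scalar part -/
noncomputable def ep : ExteriorAlgebra R M →ₐ[R] R := ExteriorAlgebra.algebraMapInv

theorem ep_one : ep (1 : ExteriorAlgebra R M) = 1 := map_one _

theorem ep_mul (x y : ExteriorAlgebra R M) : ep (x * y) = ep x * ep y := map_mul _ _ _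

theorem ep_vc (m : M) : ep (vc (R := R) m) = 0 := by
  unfold ep ExteriorAlgebra.algebraMapInv vc
  rw [ExteriorAlgebra.lift_ι_apply, LinearMap.zero_apply]

theorem ep_iv (x : ExteriorAlgebra R M) : ep (iv x) = ep x := by
  induction x using ext_ind with
  | h0 r =>
    rw [map_smul, iv_one]
  | ha x y hx hy =>
    rw [map_add, map_add, map_add, hx, hy]
  | hm m x hx =>
    rw [iv_mul, ep_mul, ep_mul, iv_vc, map_neg, ep_vc, neg_zero, zero_mul, zero_mul]

theorem ep_rv (x : ExteriorAlgebra R M) : ep (rv x) = ep x := by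
  induction x using ext_ind with
  | h0 r =>
    rw [map_smul, rv_one]
  | ha x y hx hy =>
    rw [map_add, map_add, map_add, hx, hy]
  | hm m x hx =>
    rw [rv_mul, ep_mul, ep_mul, rv_vc, ep_vc, mul_zero, zero_mul]

theorem ep_mp (f : M →ₗ[R] N) (x : ExteriorAlgebra R M) : ep (mp f x) = ep x := by
  induction x using ext_ind with
  | h0 r =>
    rw [map_smul, mp_one, map_smul, map_smul, ep_one, ep_one]
  | ha x y hx hy =>
    rw [map_add, map_add, map_add, hx, hy]
  | hm m x hx =>
    rw [mp_mul, ep_mul, ep_mul, mp_vc, ep_vc, ep_vc, zero_mul, zero_mul]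

/-! ### iterated contractions -/

/-- `vc c * b ↦ ct (J c) ∘ (image of b)` -/
noncomputable def KK (J : M →ₗ[R] Module.Dual R N) :
    ExteriorAlgebra R M →ₐ[R] Module.End R (ExteriorAlgebra R N) :=
  ExteriorAlgebra.lift R ⟨(CliffordAlgebra.contractLeft (Q := (0 : QuadraticForm R N))) ∘ₗ J,
    fun m => LinearMap.ext fun x => ct_ct (J m) x⟩

theorem KK_one (J : M →ₗ[R] Module.Dual R N) (y : ExteriorAlgebra R N) : KK J 1 y = y := by
  rw [map_one]
  rfl

theorem KK_vc (J : M →ₗ[R] Module.Dual R N) (c : M) (b : ExteriorAlgebra R M)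
    (y : ExteriorAlgebra R N) : KK J (vc c * b) y = ct (J c) (KK J b y) := by
  rw [map_mul]
  have h1 : KK J (vc c) = (CliffordAlgebra.contractLeft (Q := (0 : QuadraticForm R N))) (J c) := by
    unfold KK vc
    rw [ExteriorAlgebra.lift_ι_apply]
    rfl
  rw [h1]
  rfl

theorem KK_smul (J : M →ₗ[R] Module.Dual R N) (r : R) (b : ExteriorAlgebra R M)
    (y : ExteriorAlgebra R N) : KK J (r • b) y = r • KK J b y := by
  rw [map_smul, LinearMap.smul_apply]

theorem KK_add (J : M →ₗ[R] Module.Dual R N) (b b' : ExteriorAlgebra R M)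
    (y : ExteriorAlgebra R N) : KK J (b + b') y = KK J b y + KK J b' y := by
  rw [map_add, LinearMap.add_apply]

theorem KK_neg (J : M →ₗ[R] Module.Dual R N) (b : ExteriorAlgebra R M)
    (y : ExteriorAlgebra R N) : KK J (-b) y = -KK J b y := by
  rw [map_neg, LinearMap.neg_apply]

/-- contraction of an iterated contraction -/
theorem ct_KK (J : M →ₗ[R] Module.Dual R N) (d : Module.Dual R N) (b : ExteriorAlgebra R M)
    (y : ExteriorAlgebra R N) : ct d (KK J b y) = KK J (iv b) (ct d y) := by
  induction b using ext_ind with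
  | h0 r =>
    have e1 : iv (r • (1 : ExteriorAlgebra R M)) = r • 1 := by rw [map_smul, iv_one]
    rw [e1, KK_smul, KK_smul, map_smul, KK_one, KK_one]
  | ha x x' hx hx' =>
    have e1 : iv (x + x') = iv x + iv x' := map_add _ _ _
    rw [e1, KK_add, KK_add, map_add, hx, hx']
  | hm m x hx =>
    rw [KK_vc, ct_comm, hx, iv_mul, iv_vc, neg_mul, KK_neg, KK_vc]

/-- iterated contraction of a product with a vector -/
theorem KK_mul (J : M →ₗ[R] Module.Dual R N) (v : N) (psi : Module.Dual R M)
    (hpsi : ∀ c, psi c = J c v) (b : ExteriorAlgebra R M) (y : ExteriorAlgebra R N) :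
    KK J b (vc v * y) = vc v * KK J (iv b) y + KK J (iv (ct psi b)) y := by
  induction b using ext_ind with
  | h0 r =>
    have e1 : iv (r • (1 : ExteriorAlgebra R M)) = r • 1 := by rw [map_smul, iv_one]
    have e2 : iv (ct psi (r • (1 : ExteriorAlgebra R M))) = 0 := by
      rw [map_smul, ct_one, smul_zero, map_zero]
    rw [e1, e2, KK_smul, KK_smul, KK_one, KK_one, map_zero, LinearMap.zero_apply, add_zero,
      mul_smul_comm]
  | ha x x' hx hx' =>
    have e1 : iv (x + x') = iv x + iv x' := map_add _ _ _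
    have e2 : iv (ct psi (x + x')) = iv (ct psi x) + iv (ct psi x') := by
      rw [map_add, map_add]
    rw [e1, e2, KK_add, KK_add, KK_add, hx, hx', mul_add]
    abel
  | hm m x hx =>
    rw [KK_vc, hx, map_add, ct_mul, iv_mul, iv_vc, neg_mul, KK_neg, KK_vc, ct_mul, map_sub,
      map_smul, iv_mul, iv_vc, neg_mul, sub_neg_eq_add, KK_add, KK_smul, KK_vc, hpsi, mul_neg]
    abel

/-- iterated contraction and maps -/
theorem KK_mp {P : Type} [AddCommGroup P] [Module R P] (J : M →ₗ[R] Module.Dual R P)
    (f : N →ₗ[R] P) (J' : M →ₗ[R] Module.Dual R N) (hJ : ∀ c, J' c = J c ∘ₗ f)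
    (b : ExteriorAlgebra R M) (y : ExteriorAlgebra R N) :
    KK J b (mp f y) = mp f (KK J' b y) := by
  induction b using ext_ind with
  | h0 r =>
    rw [KK_smul, KK_smul, KK_one, KK_one, map_smul]
  | ha x x' hx hx' =>
    rw [KK_add, KK_add, map_add, hx, hx']
  | hm m x hx =>
    rw [KK_vc, KK_vc, hx, ct_mp, hJ]

/-- change of the functionals -/
theorem KK_comp {P : Type} [AddCommGroup P] [Module R P] (J : P →ₗ[R] Module.Dual R N)
    (g : M →ₗ[R] P) (b : ExteriorAlgebra R M) (y : ExteriorAlgebra R N) :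
    KK J (mp g b) y = KK (J ∘ₗ g) b y := by
  induction b using ext_ind with
  | h0 r =>
    rw [KK_smul, map_smul, mp_one, KK_smul, KK_one, KK_one]
  | ha x x' hx hx' =>
    rw [KK_add, map_add, KK_add, hx, hx']
  | hm m x hx =>
    rw [KK_vc, mp_mul, mp_vc, KK_vc, hx, LinearMap.comp_apply]

/-- functionals which differ by a map of rank one -/
theorem KK_rank (J : M →ₗ[R] Module.Dual R N) (d : Module.Dual R M) (e : Module.Dual R N)
    (b : ExteriorAlgebra R M) (y : ExteriorAlgebra R N) :
    KK (J + d.smulRight e) b y = KK J b y + ct e (KK J (ct d b) y) := by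
  induction b using ext_ind with
  | h0 r =>
    rw [KK_smul, KK_smul, KK_one, KK_one, map_smul, ct_one, smul_zero, map_zero,
      LinearMap.zero_apply, map_zero, add_zero]
  | ha x x' hx hx' =>
    rw [KK_add, KK_add, map_add, KK_add, map_add, hx, hx']
    abel
  | hm m x hx =>
    rw [KK_vc, hx, KK_vc, ct_mul, map_sub, LinearMap.sub_apply, KK_smul, KK_vc, map_sub,
      map_smul, map_add]
    have h1 : (J + d.smulRight e) m = J m + d m • e := by
      rw [LinearMap.add_apply, LinearMap.smulRight_apply]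
    rw [h1, ct_add, ct_add, ct_smul, ct_smul, ct_ct, smul_zero, add_zero, ct_comm (J m) e]
    abel

/-- the scalar part of iterated contractions of one -/
theorem ep_KK_one (J : M →ₗ[R] Module.Dual R N) (b : ExteriorAlgebra R M) :
    KK J b 1 = ep b • (1 : ExteriorAlgebra R N) := by
  induction b using ext_ind with
  | h0 r =>
    rw [KK_smul, KK_one, map_smul, ep_one, smul_eq_mul, mul_one]
  | ha x x' hx hx' =>
    rw [KK_add, map_add, hx, hx', add_smul]
  | hm m x hx =>
    rw [KK_vc, hx, map_smul, ct_one, ep_mul, ep_vc, zero_mul, zero_smul, smul_zero]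

end

end Pool.TWI
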