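import Pool.Agent.TWI.All
import Pool.Agent.TWI.Det1

/-!
# TWI: the final theorem for full twists on odd numbers of strands
-/

set_option autoImplicit false

namespace Pool.TWI

open Pool.Agent.ARB LaurentPolynomial
open Pool.Agent.Helper2 (Slice bracket evalAt loopVal fPoly writhe IsDiagram)

/-- the directions have no influence on the bracket -/
theorem fin_br (K : List Slice) (hK : Pool.Agent.Helper2.Ok K 0 0) (hne : K ≠ [])
    (hW : Ok (forget K) 0 0) : bracket K = bracket (unW (forget K)) := by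
  obtain ⟨V, _, _, M, hM, hinj⟩ := thm_Vert
  have hn : unW (forget K) ≠ [] := by
    intro h
    apply hne
    have h1 : (unW (forget K)).length = 0 := by rw [h]; rfl
    have h2 : (unW (forget K)).length = K.length := by simp [unW, forget]
    rw [h2] at h1
    exact List.length_eq_zero_iff.1 h1
  have e1 := thm_BrRun V M hM K hne hK
  have e2 := thm_BrRun V M hM (unW (forget K)) hn (Run_okW _ 0 0 hW)
  have e3 : forget (unW (forget K)) = forget K := d1_forget (forget K)
  rw [e3, e1] at e2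
  exact mul_left_cancel₀ pairRun_loopVal_ne (hinj _ _ e2)

theorem fin_ok (K : List Slice) : ∀ n m : ℕ, Pool.Agent.Helper2.Ok K n m → Ok (forget K) n m := by
  induction K with
  | nil => intro n m h; exact h
  | cons s K ih =>
    intro n m h
    cases s with
    | cup i u => exact ⟨h.1, ih _ _ h.2⟩
    | cap i => exact ⟨h.1, ih _ _ h.2⟩
    | cross i p =>
      have h1 : i + 2 ≤ n := h.1
      have e : n - 2 + 2 = n := by omega
      refine ⟨h1, ?_⟩
      show Ok (forget K) (n - 2 + 2) m
      rw [e]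
      exact ih _ _ h.2

/-- only the empty word arises from the empty word -/
theorem fin_nil {n : ℕ} {D K : Word} (h : Tw n D K) : n = 0 → K = [] → D = [] := by
  induction h with
  | nil n => intro _ _; rfl
  | pc s h _ _ => intro _ hK; exact absurd hK (by simp)
  | @tw n D K a w k h hw hT ih =>
    intro hn hK
    exact ih hn (List.append_eq_nil_iff.1 hK).2

theorem fin_ev {z : ℂˣ} (hz : (z : ℂ) ^ 2 = Complex.I) : evalAt z (T 4 + 1) = 0 := by
  rw [map_add, map_one, d1_evT]
  have h : ((z ^ (4 : ℤ) : ℂˣ) : ℂ) = -1 := by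
    have h1 : ((z ^ (4 : ℤ) : ℂˣ) : ℂ) = ((z : ℂ) ^ 2) ^ 2 := by
      rw [← pow_mul]
      norm_cast
    rw [h1, hz, Complex.I_sq]
  rw [h]
  ring

/-- the determinant of a diagram with trivial f-polynomial modulo `A ^ 4 + 1` -/
theorem fin_one {z : ℂˣ} (hz : (z : ℂ) ^ 2 = Complex.I) (K : List Slice)
    (hf : (T 4 + 1 : LP) ∣ fPoly K - 1) : ‖evalAt z (bracket K)‖ = 1 := by
  obtain ⟨q, hq⟩ := hf
  have h1 : evalAt z (fPoly K) = 1 := by
    have h2 := congrArg (evalAt z) hq
    rw [map_sub, map_mul, fin_ev hz, zero_mul, map_one] at h2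
    exact sub_eq_zero.1 h2
  have h3 : evalAt z (fPoly K) = (-1) ^ (writhe K).natAbs *
      ((z ^ (-3 * writhe K) : ℂˣ) : ℂ) * evalAt z (bracket K) := by
    show evalAt z ((-1) ^ (writhe K).natAbs * T (-3 * writhe K) * bracket K) = _
    rw [map_mul, map_mul, map_pow, map_neg, map_one, d1_evT]
  rw [h3] at h1
  have h4 := congrArg norm h1
  rw [norm_mul, norm_mul, norm_pow, norm_neg, norm_one, one_pow, one_mul, d1_normz hz, one_mul] at h4
  exact h4

/-- The final theorem for odd numbers of strands. -/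
theorem fin_odd {z : ℂˣ} (hz : (z : ℂ) ^ 2 = Complex.I) (D : Word) (hD : Alt D) (hne : D ≠ [])
    (K : List Slice) (hK : IsDiagram K) (hT : Tw 0 D (forget K)) :
    (∃ a j : ℕ, ‖evalAt z (bracket (unW D))‖ = a ∧ ‖evalAt z (bracket K)‖ = a + 4 * j) ∧
      ((T 4 + 1 : LP) ∣ fPoly K - 1 → Iso 0 D O1) := by
  have hKo : Pool.Agent.Helper2.Ok K 0 0 := Pool.Agent.Helper2.ok_of_dirs K [] [] hK
  have hKne : K ≠ [] := by
    intro h
    subst h
    exact hne (fin_nil hT rfl rfl)
  obtain ⟨a, j, h1, h2⟩ := all_four z hz D (forget K) hD hne hT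
  rw [← fin_br K hKo hKne (fin_ok K 0 0 hKo)] at h2
  refine ⟨⟨a, j, h1, h2⟩, fun hf => thm_Det1 z hz D hD hne ?_⟩
  have h3 := fin_one hz K hf
  rw [h3] at h2
  have h4 : a + 4 * j = 1 := by exact_mod_cast h2.symm
  have h5 : a = 1 := by omega
  rw [h1, h5, Nat.cast_one]

end Pool.TWI
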