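import Pool.Agent.TWI.StO

/-!
# TWI, T-B: the relations
-/

set_option autoImplicit false

namespace Pool.TWI

section

private theorem rel_ext {N : Type} [AddCommGroup N] [Module ℂ N] (f g : Gp →ₗ[ℂ] N)
    (h : ∀ j, f (dl j) = g (dl j)) : f = g :=
  Finsupp.lhom_ext' fun j => LinearMap.ext_ring (h j)

private theorem rel_lm (f : ℕ → Gp) (j : ℕ) : lm f (dl j) = f j := by
  unfold lm dl
  rw [Finsupp.linearCombination_single, one_smul]

private theorem rel_gm (l j : ℕ) : gm l (dl j) = if j = l then 1 else 0 := by
  show (dl j) l = _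
  unfold dl
  rw [Finsupp.single_apply]

private theorem rel_ph (i j : ℕ) : ph i (dl j) = (if j = i then 1 else 0) -
    (if j = i + 2 then 1 else 0) := by
  unfold ph
  rw [LinearMap.sub_apply, rel_gm, rel_gm]

private theorem rel_ins (i j : ℕ) : insM i (dl j) =
    if j < i then dl j else if j = i then dl i + dl (i + 2) else dl (j + 2) := rel_lm _ _

private theorem rel_del (i j : ℕ) : delM i (dl j) =
    if j ≤ i then dl j else if j ≤ i + 2 then 0 else dl (j - 2) := rel_lm _ _

private theorem rel_p1 (i : ℕ) : ph i ∘ₗ insM i = 0 := by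
  refine rel_ext _ _ fun j => ?_
  rw [LinearMap.comp_apply, rel_ins, LinearMap.zero_apply]
  rcases lt_trichotomy j i with h | h | h
  · rw [if_pos h, rel_ph, if_neg (by omega), if_neg (by omega), sub_zero]
  · rw [if_neg (by omega), if_pos h, map_add, rel_ph, rel_ph, if_pos rfl, if_neg (by omega),
      if_neg (by omega), if_pos rfl]
    ring
  · rw [if_neg (by omega), if_neg (by omega), rel_ph, if_neg (by omega), if_neg (by omega),
      sub_zero]

private theorem rel_p2 (i : ℕ) : ph (i + 1) ∘ₗ insM i = -gm (i + 1) := by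
  refine rel_ext _ _ fun j => ?_
  rw [LinearMap.comp_apply, rel_ins, LinearMap.neg_apply, rel_gm]
  rcases lt_trichotomy j i with h | h | h
  · rw [if_pos h, rel_ph, if_neg (by omega), if_neg (by omega)]
    ring
  · rw [if_neg (by omega), if_pos h, map_add, rel_ph, rel_ph, if_neg (by omega),
      if_neg (by omega), if_neg (by omega), if_neg (by omega), if_neg (by omega)]
    ring
  · rw [if_neg (by omega), if_neg (by omega), rel_ph, if_neg (by omega)]
    by_cases h2 : j = i + 1
    · rw [if_pos (by omega), if_pos h2]
      ring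
    · rw [if_neg (by omega), if_neg h2]
      ring

private theorem rel_p4 (i k : ℕ) : ph (i + k + 2) ∘ₗ insM i = ph (i + k) := by
  refine rel_ext _ _ fun j => ?_
  rw [LinearMap.comp_apply, rel_ins, rel_ph (i + k)]
  rcases lt_trichotomy j i with h | h | h
  · rw [if_pos h, rel_ph, if_neg (by omega), if_neg (by omega),
      if_neg (by omega : ¬ j = i + k)]
  · rw [if_neg (by omega), if_pos h, map_add, rel_ph, rel_ph, if_neg (by omega),
      if_neg (by omega)]
    by_cases h2 : k = 0
    · rw [if_pos (by omega), if_neg (by omega), if_pos (by omega), if_neg (by omega)]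
      ring
    · rw [if_neg (by omega), if_neg (by omega), if_neg (by omega), if_neg (by omega)]
      ring
  · rw [if_neg (by omega), if_neg (by omega), rel_ph]
    by_cases h2 : j = i + k
    · rw [if_pos (by omega), if_neg (by omega), if_pos h2, if_neg (by omega)]
    · by_cases h3 : j = i + k + 2
      · rw [if_neg (by omega), if_pos (by omega), if_neg h2, if_pos h3]
      · rw [if_neg (by omega), if_neg (by omega), if_neg h2, if_neg h3]

private theorem rel_p5 (i k : ℕ) : ph i ∘ₗ insM (i + k + 2) = ph i := by
  refine rel_ext _ _ fun j => ?_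
  rw [LinearMap.comp_apply, rel_ins]
  rcases lt_trichotomy j (i + k + 2) with h | h | h
  · rw [if_pos h]
  · rw [if_neg (by omega), if_pos h, map_add, rel_ph i (i + k + 2 + 2), if_neg (by omega),
      if_neg (by omega), h]
    ring
  · rw [if_neg (by omega), if_neg (by omega), rel_ph, rel_ph, if_neg (by omega),
      if_neg (by omega), if_neg (by omega), if_neg (by omega)]

private theorem rel_m2 (i : ℕ) : delM (i + 1) ∘ₗ insM i + (gm (i + 1)).smulRight (dl (i + 1)) =
    LinearMap.id := by
  refine rel_ext _ _ fun j => ?_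
  rw [LinearMap.add_apply, LinearMap.comp_apply, LinearMap.smulRight_apply, LinearMap.id_apply,
    rel_ins, rel_gm]
  rcases lt_trichotomy j i with h | h | h
  · rw [if_pos h, rel_del, if_pos (by omega), if_neg (by omega), zero_smul, add_zero]
  · rw [if_neg (by omega), if_pos h, map_add, rel_del, rel_del, if_pos (by omega),
      if_neg (by omega), if_pos (by omega), if_neg (by omega), zero_smul, add_zero, add_zero, h]
  · rw [if_neg (by omega), if_neg (by omega), rel_del, if_neg (by omega)]
    by_cases h2 : j = i + 1
    · rw [if_pos (by omega), if_pos h2, one_smul, zero_add, h2]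
    · rw [if_neg (by omega), if_neg h2, zero_smul, add_zero]
      congr 1

private theorem rel_m3 (i : ℕ) : delM i ∘ₗ insM (i + 1) = LinearMap.id := by
  refine rel_ext _ _ fun j => ?_
  rw [LinearMap.comp_apply, LinearMap.id_apply, rel_ins]
  rcases lt_trichotomy j (i + 1) with h | h | h
  · rw [if_pos h, rel_del, if_pos (by omega)]
  · rw [if_neg (by omega), if_pos h, map_add, rel_del, rel_del, if_neg (by omega),
      if_pos (by omega), if_neg (by omega), if_neg (by omega), zero_add, h]
    congr 1
  · rw [if_neg (by omega), if_neg (by omega), rel_del, if_neg (by omega), if_neg (by omega)]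
    congr 1

private theorem rel_m4 (i k : ℕ) : delM (i + k + 2) ∘ₗ insM i = insM i ∘ₗ delM (i + k) := by
  refine rel_ext _ _ fun j => ?_
  rw [LinearMap.comp_apply, LinearMap.comp_apply, rel_ins, rel_del (i + k)]
  rcases lt_trichotomy j i with h | h | h
  · rw [if_pos h, rel_del, if_pos (by omega), if_pos (by omega), rel_ins, if_pos h]
  · rw [if_neg (by omega), if_pos h, map_add, rel_del, rel_del, if_pos (by omega),
      if_pos (by omega), if_pos (by omega), rel_ins, if_neg (by omega), if_pos h]
  · rw [if_neg (by omega), if_neg (by omega), rel_del]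
    by_cases h2 : j ≤ i + k
    · rw [if_pos (by omega), if_pos h2, rel_ins, if_neg (by omega), if_neg (by omega)]
    · by_cases h3 : j ≤ i + k + 2
      · rw [if_neg (by omega), if_pos (by omega), if_neg h2, if_pos h3, map_zero]
      · rw [if_neg (by omega), if_neg (by omega), if_neg h2, if_neg h3, rel_ins,
          if_neg (by omega), if_neg (by omega)]
        congr 1
        omega

private theorem rel_m5 (i k : ℕ) (hk : 0 < k) :
    delM i ∘ₗ insM (i + k + 2) = insM (i + k) ∘ₗ delM i := by
  refine rel_ext _ _ fun j => ?_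
  rw [LinearMap.comp_apply, LinearMap.comp_apply, rel_ins, rel_del i j]
  by_cases h0 : j ≤ i
  · rw [if_pos (by omega), if_pos h0, rel_del, if_pos h0, rel_ins, if_pos (by omega)]
  · rw [if_neg h0]
    by_cases h1 : j ≤ i + 2
    · rw [if_pos h1, if_pos (by omega), rel_del, if_neg h0, if_pos h1, map_zero]
    · rw [if_neg h1]
      rcases lt_trichotomy j (i + k + 2) with h | h | h
      · rw [if_pos h, rel_del, if_neg h0, if_neg h1, rel_ins, if_pos (by omega)]
      · rw [if_neg (by omega), if_pos h, map_add, rel_del, rel_del, if_neg (by omega),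
          if_neg (by omega), if_neg (by omega), if_neg (by omega), rel_ins, if_neg (by omega),
          if_pos (by omega)]
        congr 1
      · rw [if_neg (by omega), if_neg (by omega), rel_del, if_neg (by omega),
          if_neg (by omega), rel_ins, if_neg (by omega), if_neg (by omega)]
        congr 1
        omega

private theorem rel_m5' (i : ℕ) : delM i ∘ₗ insM (i + 2) =
    insM i ∘ₗ delM i + (-ph i).smulRight (dl (i + 2)) := by
  refine rel_ext _ _ fun j => ?_
  rw [LinearMap.add_apply, LinearMap.comp_apply, LinearMap.comp_apply,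
    LinearMap.smulRight_apply, LinearMap.neg_apply, rel_ins, rel_del i j, rel_ph]
  by_cases h0 : j < i
  · rw [if_pos (by omega), if_pos (by omega), rel_del, if_pos (by omega), rel_ins, if_pos h0,
      if_neg (by omega), if_neg (by omega)]
    simp
  by_cases h1 : j = i
  · rw [if_pos (by omega), if_pos (by omega), rel_del, if_pos (by omega), rel_ins, if_neg h0,
      if_pos h1, if_pos h1, if_neg (by omega), h1]
    simp
  by_cases h2 : j = i + 1
  · rw [if_pos (by omega), if_neg (by omega), if_pos (by omega), rel_del, if_neg (by omega),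
      if_pos (by omega), if_neg h1, if_neg (by omega), map_zero]
    simp
  by_cases h3 : j = i + 2
  · rw [if_neg (by omega), if_pos h3, if_neg (by omega), if_pos (by omega), map_add, rel_del,
      rel_del, if_neg (by omega), if_pos (by omega), if_neg (by omega), if_neg (by omega),
      if_neg h1, if_pos h3, map_zero]
    simp
  · rw [if_neg (by omega), if_neg h3, if_neg (by omega), if_neg (by omega), rel_del,
      if_neg (by omega), if_neg (by omega), rel_ins, if_neg (by omega), if_neg (by omega),
      if_neg h1, if_neg h3]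
    have e1 : j - 2 + 2 = j + 2 - 2 := by omega
    rw [e1]
    simp

private theorem rel_m6 (i : ℕ) : insM i ∘ₗ delM i = (LinearMap.id +
    (ph i).smulRight (dl (i + 2))) + (-gm (i + 1)).smulRight (dl (i + 1)) := by
  refine rel_ext _ _ fun j => ?_
  rw [LinearMap.add_apply, LinearMap.add_apply, LinearMap.comp_apply, LinearMap.id_apply,
    LinearMap.smulRight_apply, LinearMap.smulRight_apply, LinearMap.neg_apply, rel_del, rel_ph,
    rel_gm]
  by_cases h0 : j < i
  · rw [if_pos (by omega), rel_ins, if_pos h0, if_neg (by omega), if_neg (by omega),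
      if_neg (by omega)]
    simp
  by_cases h1 : j = i
  · rw [if_pos (by omega), rel_ins, if_neg h0, if_pos h1, if_pos h1, if_neg (by omega),
      if_neg (by omega), h1]
    simp
  by_cases h2 : j = i + 1
  · rw [if_neg (by omega), if_pos (by omega), if_neg h1, if_neg (by omega), if_pos h2, map_zero,
      h2]
    simp
  by_cases h3 : j = i + 2
  · rw [if_neg (by omega), if_pos (by omega), if_neg h1, if_pos h3, if_neg h2, map_zero, h3]
    simp
  · rw [if_neg (by omega), if_neg (by omega), rel_ins, if_neg (by omega), if_neg (by omega),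
      if_neg h1, if_neg h3, if_neg h2]
    have e1 : j - 2 + 2 = j := by omega
    rw [e1]
    simp

private theorem rel_cup (i : ℕ) (x : Fk) :
    cupU i x = Complex.I ^ i • (vc (dl (i + 1)) * mp (insM i) x) := rfl

private theorem rel_cap (i : ℕ) (x : Fk) :
    capU i x = Complex.I ^ (3 * i + 1) • mp (delM i) (ct (ph i) x) := rfl

private theorem rel_I4 (n : ℕ) : Complex.I ^ (4 * n) = 1 := by
  rw [pow_mul, Complex.I_pow_four, one_pow]

end

theorem thm_Rel : St_Rel := by
  refine ⟨?_, ?_, ?_, ?_, ?_, ?_⟩
  · intro i x
    rw [rel_cup, rel_cap, map_smul, ct_mul, ct_mp, rel_p1, ct_zero, map_zero, mul_zero, sub_zero,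
      rel_ph, if_neg (by omega), if_neg (by omega), sub_zero, zero_smul, smul_zero, map_zero,
      smul_zero]
  · intro i x
    rw [rel_cup, rel_cap, map_smul, ct_mul, ct_mp, rel_p2, ct_neg, map_neg, mul_neg,
      sub_neg_eq_add, rel_ph, if_pos rfl, if_neg (by omega), sub_zero, one_smul, map_smul,
      map_add, mp_mul, mp_vc, mp_mp, mp_mp, rel_del, if_pos le_rfl, smul_smul, ← pow_add]
    have e1 : 3 * (i + 1) + 1 + i = 4 * (i + 1) := by ring
    have e2 := mp_rank (delM (i + 1) ∘ₗ insM i) (dl (i + 1)) (gm (i + 1)) x
    rw [rel_m2, mp_id] at e2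
    rw [e1, rel_I4, one_smul, ← e2]
  · intro i x
    rw [rel_cup, rel_cap, map_smul, ct_mul, rel_ph, if_neg (by omega), if_pos (by omega),
      zero_sub, map_smul, map_sub, map_smul, mp_mul, mp_vc, rel_del, if_neg (by omega),
      if_pos (by omega), map_zero, zero_mul, sub_zero, mp_mp, rel_m3, mp_id, smul_smul,
      smul_smul, ← pow_add]
    have e1 : 3 * i + 1 + (i + 1) = 4 * i + 2 := by ring
    rw [e1, pow_add, rel_I4, Complex.I_sq]
    simp
  · intro i k x
    rw [rel_cup, rel_cup, rel_cap, rel_cap, map_smul, ct_mul, ct_mp, rel_p4, rel_ph,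
      if_neg (by omega), if_neg (by omega), sub_zero, zero_smul, zero_sub, map_smul, map_neg,
      mp_mul, mp_vc, mp_mp, rel_del, if_pos (by omega), rel_m4, ← mp_mp, map_smul, mul_smul_comm,
      smul_smul, smul_smul, ← neg_one_smul ℂ (vc (dl (i + 1)) * _), smul_smul]
    congr 1
    have e1 : 3 * (i + k + 2) + 1 = 3 * (i + k) + 1 + (4 + 2) := by ring
    rw [e1, pow_add, pow_add Complex.I 4 2, Complex.I_pow_four, Complex.I_sq]
    ring
  · intro i k x
    rw [rel_cup, rel_cup, rel_cap, rel_cap, map_smul, ct_mul, ct_mp, rel_p5, rel_ph,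
      if_neg (by omega), if_neg (by omega), sub_zero, zero_smul, zero_sub, map_smul, map_neg,
      mp_mul, mp_vc, mp_mp, rel_del, if_neg (by omega), if_neg (by omega), map_smul,
      mul_smul_comm, mp_mp]
    have e0 : mp (delM i ∘ₗ insM (i + k + 2)) (ct (ph i) x) =
        mp (insM (i + k) ∘ₗ delM i) (ct (ph i) x) := by
      rcases Nat.eq_zero_or_pos k with hk | hk
      · subst hk
        rw [add_zero, rel_m5', mp_rank, ct_neg, ct_ct, neg_zero, map_zero, mul_zero, add_zero]
      · rw [rel_m5 i k hk]
    have e2 : i + k + 2 + 1 - 2 = i + k + 1 := by omega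
    rw [e0, e2, smul_smul, smul_smul, ← neg_one_smul ℂ (vc (dl (i + k + 1)) * _), smul_smul]
    congr 1
    rw [pow_add Complex.I (i + k) 2, Complex.I_sq]
    ring
  · intro i x
    have e0 : EU i x = vc (dl (i + 1)) * ct (ph i) x := rfl
    rw [e0, rel_cup, rel_cap, map_smul, mul_smul_comm, smul_smul, mp_mp, rel_m6, mp_rank,
      mul_add, vc_sq', add_zero, mp_rank, ct_ct, map_zero, mul_zero, add_zero, mp_id, ← pow_add]
    congr 1
    have e1 : i + (3 * i + 1) = 4 * i + 1 := by ring
    rw [e1, pow_add, rel_I4, one_mul, pow_one]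

end Pool.TWI
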