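import Pool.Agent.TWI.Defs
import Pool.Agent.TWI.Ext
import Pool.Agent.ARB.TopSts2

/-!
# TWI, T-B (odd arcs): definitions and frozen statements

Every module `Pool/Agent/TWI/<X>.lean` imports this file and proves `theorem thm_<X> : St_<X>` (with
the hypotheses named in its offer), namespace `Pool.TWI`, own lemmas private or with names starting
with the name of the module. The docstrings contain the proofs. All rules for `ct` (contraction),
`iv` (grade involution), `rv` (reversion), `mp` (induced map), `vc` (vector), `ep` (scalar part) and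
`KK` (iterated contraction) are in `Ext.lean`.
-/

set_option autoImplicit false

namespace Pool.TWI

open Pool.Agent.ARB
open Pool.Agent.Helper2 (Slice bracket evalAt loopVal)

/-! ## The Fock space of the gaps -/

/-- potentials of the gaps -/
abbrev Gp : Type := ℕ →₀ ℂ

/-- the Fock space -/
abbrev Fk : Type := ExteriorAlgebra ℂ Gp

/-- the unit potential of gap `j` -/
noncomputable def dl (j : ℕ) : Gp := Finsupp.single j 1

/-- the potential of gap `j` -/
noncomputable def gm (j : ℕ) : Module.Dual ℂ Gp := Finsupp.lapply j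

/-- the difference of the gaps `i` and `i + 2` -/
noncomputable def ph (i : ℕ) : Module.Dual ℂ Gp := gm i - gm (i + 2)

/-- the linear map with the values `f j` on the unit potentials -/
noncomputable def lm (f : ℕ → Gp) : Gp →ₗ[ℂ] Gp := Finsupp.linearCombination ℂ f

/-- the effect of a cup at `i` on the potentials: gap `i + 1` is new, gap `i + 2` has the potential
of gap `i` -/
noncomputable def insM (i : ℕ) : Gp →ₗ[ℂ] Gp :=
  lm fun j => if j < i then dl j else if j = i then dl i + dl (i + 2) else dl (j + 2)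

/-- the effect of a cap at `i`: the gaps `i + 1` and `i + 2` disappear -/
noncomputable def delM (i : ℕ) : Gp →ₗ[ℂ] Gp :=
  lm fun j => if j ≤ i then dl j else if j ≤ i + 2 then 0 else dl (j - 2)

/-- the reflection `g ↦ 2 g_end - g` of the gaps strictly between `a` and `a + w` at the end gap
(`a` or `a + w`) of the same colour -/
noncomputable def Rm (a w : ℕ) : Gp →ₗ[ℂ] Gp :=
  lm fun j => if a < j ∧ j < a + w then -dl j else dl j +
    (if j = a then ∑ r ∈ (Finset.Ioo a (a + w)).filter (fun r => r % 2 = a % 2), (2 : ℂ) • dl r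
      else 0) +
    (if j = a + w then ∑ r ∈ (Finset.Ioo a (a + w)).filter (fun r => r % 2 ≠ a % 2),
      (2 : ℂ) • dl r else 0)

/-- the operator of a cup -/
noncomputable def cupU (i : ℕ) : Fk →ₗ[ℂ] Fk :=
  Complex.I ^ i • (LinearMap.mulLeft ℂ (vc (dl (i + 1))) ∘ₗ mp (insM i))

/-- the operator of a cap -/
noncomputable def capU (i : ℕ) : Fk →ₗ[ℂ] Fk :=
  Complex.I ^ (3 * i + 1) • (mp (delM i) ∘ₗ ct (ph i))

/-- the operator of a cap followed by a cup, divided by `i` -/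
noncomputable def EU (i : ℕ) : Fk →ₗ[ℂ] Fk :=
  LinearMap.mulLeft ℂ (vc (dl (i + 1))) ∘ₗ ct (ph i)

/-- the operator of a piece, `z ^ 2 = i` -/
noncomputable def opU (z : ℂˣ) (s : Piece) : Fk →ₗ[ℂ] Fk :=
  match s.k with
  | .U => cupU s.i
  | .N => capU s.i
  | .X true => (z : ℂ) • (LinearMap.id + EU s.i)
  | .X false => ((z⁻¹ : ℂˣ) : ℂ) • (LinearMap.id - EU s.i)

/-- the operator of a word -/
noncomputable def runU (z : ℂˣ) : Word → Fk →ₗ[ℂ] Fk
  | [] => LinearMap.id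
  | s :: w => runU z w ∘ₗ opU z s

/-- a directed version of a word; the directions have no influence on the bracket -/
def unW (w : Word) : List Slice := w.map fun s => match s.k with
  | .U => .cup s.i true
  | .N => .cap s.i
  | .X p => .cross s.i p

/-- [Rel] the relations of a model of the Temperley-Lieb relations with `δ = 0`. PROOF. `ct_mul`,
`mp_mul`, `mp_vc`, `ct_mp`, `mp_mp`, `mp_rank`. First for the maps: `ph i ∘ insM i = 0`,
`ph (i + 1) ∘ insM i = -gm (i + 1)`, `ph i ∘ insM (i + 1) = gm (i + 2)`... (check on `dl j`, e.g. with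
`Finsupp.lhom_ext'` or by the coordinates of `insM i g`: `g j` for `j ≤ i`, `0` for `j = i + 1`,
`g (j - 2)` for `i + 2 ≤ j`; of `delM i g`: `g j` for `j ≤ i`, `g (j + 2)` for `i < j`),
`delM (i + 1) ∘ insM i = 1 - gm (i + 1) ⊗ dl (i + 1)`, so by `mp_rank`
`mp (..) x + vc (dl (i + 1)) * mp (..) (ct (gm (i + 1)) x) = x`. Powers of `i`: `I ^ 4 = 1`.
All checked numerically. -/
def St_Rel : Prop :=
  (∀ (i : ℕ) (x : Fk), capU i (cupU i x) = 0) ∧
  (∀ (i : ℕ) (x : Fk), capU (i + 1) (cupU i x) = x) ∧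
  (∀ (i : ℕ) (x : Fk), capU i (cupU (i + 1) x) = x) ∧
  (∀ (i k : ℕ) (x : Fk), capU (i + k + 2) (cupU i x) = cupU i (capU (i + k) x)) ∧
  (∀ (i k : ℕ) (x : Fk), capU i (cupU (i + k + 2) x) = cupU (i + k) (capU i x)) ∧
  ∀ (i : ℕ) (x : Fk), cupU i (capU i x) = Complex.I • EU i x

/-- [Run] the operators compute the bracket at `z`. PROOF. `Helper2.Model` with
`Supp = fun _ _ => True`, `δ = 0`, `init = 1` (`St_Rel`). The word `pU 0 :: pU 1 :: D' ++ [pN 0]` has
the same bracket as `pU 0 :: D'` (in a model over `LP`, `thm_BrRun`, torsion free initial vector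
`St_Vert`: `cap 0` of the two strands on the right commutes with `D'`, then `rel2`), and
`cupU 0 1 = vc (dl 1)`. Expand in states; for a word `w` without crossings from `0` to `2`
`run_smul_build` gives `run w init = δ ^ e • cup 0 init` in every model, and
`e + 1 = curves (w ++ [cap 0])` by the two-colour model (see `BrRun_noCross`). -/
def St_Run : Prop := ∀ (z : ℂˣ), (z : ℂ) ^ 2 = Complex.I → ∀ D' : Word, Ok D' 2 0 →
  runU z (pU 1 :: D') (vc (dl 1)) = evalAt z (bracket (unW (pU 0 :: D'))) • vc (dl 1)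

/-! ## Black elements and the square map -/

/-- the projection on the even (black) gaps -/
noncomputable def piB : Gp →ₗ[ℂ] Gp := lm fun j => if j % 2 = 0 then dl j else 0

/-- the projection on the odd (white) gaps -/
noncomputable def piW : Gp →ₗ[ℂ] Gp := lm fun j => if j % 2 = 0 then 0 else dl j

/-- the intersection form of the gaps -/
noncomputable def JJ : Gp →ₗ[ℂ] Module.Dual ℂ Gp :=
  Finsupp.linearCombination ℂ fun j => (if j = 0 then 0 else gm (j - 1)) - gm (j + 1)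

/-- the top form of the white gaps, `n` even -/
noncomputable def Om (n : ℕ) : Fk := ((List.range (n / 2)).map fun r => vc (dl (2 * r + 1))).prod

/-- the square map -/
noncomputable def Th (n : ℕ) (b : Fk) : Fk := rv b * KK JJ b (Om n)

/-- black letters -/
noncomputable def xU (i : ℕ) (b : Fk) : Fk :=
  if i % 2 = 1 then vc (dl (i + 1)) * mp (insM i) b else mp (insM i) b
noncomputable def xN (i : ℕ) (b : Fk) : Fk :=
  if i % 2 = 1 then mp (delM i) b else mp (delM i) (ct (ph i) b)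
noncomputable def xE (i : ℕ) (b : Fk) : Fk :=
  if i % 2 = 1 then vc (dl (i + 1)) * b else ct (ph i) b
noncomputable def xR (a w : ℕ) (b : Fk) : Fk := mp (Rm a w) b

/-- integral elements -/
noncomputable def Iz : Subring Fk := Subring.closure (Set.range fun j => vc (dl j))

/-- `b` is black, integral and has the parity `τ` -/
structure Gd (τ : ℤ) (b : Fk) : Prop where
  tau : τ = 1 ∨ τ = -1
  par : iv b = (τ : ℂ) • b
  blk : mp piB b = b
  int : b ∈ Iz

/-- [Om] facts on the top form. PROOF. Write `Om n` as a product over the odd `j < n` (induction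
on `n / 2`, `Om (n + 2) = Om n * vc (dl (n + 1))`). (1) `i` odd: `insM i` doubles `dl i`; the factors
`dl i`, `dl (i + 2)` of `Om (n + 2)` give `± (.. (dl i + dl (i + 2)) ..)`. (2) `i` even: move the factor
`dl (i + 1)` to the front. (3) `vc_sq`. (4) `Rm a w` on white gaps is `dl j ↦ -dl j` inside and
`dl f ↦ dl f + 2 ∑ dl r` for the white end gap `f`: the additional terms vanish by (3). -/
def St_Om : Prop :=
  (∀ n i : ℕ, n % 2 = 0 → i % 2 = 1 → i < n → ∃ σ : ℤ, (σ = 1 ∨ σ = -1) ∧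
    ct (ph i) (Om (n + 2)) = (σ : ℂ) • mp (insM i) (Om n)) ∧
  (∀ n i : ℕ, n % 2 = 0 → i % 2 = 0 → i ≤ n → ∃ σ : ℤ, (σ = 1 ∨ σ = -1) ∧
    Om (n + 2) = (σ : ℂ) • (vc (dl (i + 1)) * mp (insM i) (Om n))) ∧
  (∀ n j : ℕ, j % 2 = 1 → j < n → vc (dl j) * Om n = 0) ∧
  (∀ n a w : ℕ, n % 2 = 0 → w % 2 = 1 → a + w ≤ n → ∃ σ : ℤ, (σ = 1 ∨ σ = -1) ∧
    mp (Rm a w) (Om n) = (σ : ℂ) • Om n) ∧
  ∀ n : ℕ, mp piW (Om n) = Om n

/-- [JR] the form is preserved by the reflection, `w` odd. PROOF. Check on `dl j`, `dl l`: the form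
is `JJ (dl j) (dl l) = [l + 1 = j] - [l = j + 1]`; the matrix of `Rm a w`: coordinates
`Rm a w g l = 2 g_end - g l` for `a < l < a + w` (`end = a` if `l - a` is even, `a + w` if it is odd),
`g l` otherwise. Or: `JJ x y = ∑ j, x j * (y (j - 1) - y (j + 1))`, both sides are bilinear.
`Rm a w ∘ Rm a w = 1`. -/
def St_JR : Prop := ∀ a w : ℕ, w % 2 = 1 → (∀ c x : Gp, JJ (Rm a w c) (Rm a w x) = JJ c x) ∧
  Rm a w ∘ₗ Rm a w = LinearMap.id ∧ piB ∘ₗ Rm a w = Rm a w ∘ₗ piB

/-- [TE] PROOF. `i` odd: `ct (ph i) (rv b * y) = iv (rv b) * ct (ph i) y` (`ct_prod`, `ct_rv`,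
`ct (ph i) b = 0` because `b` is black: `ct_mp`), `ct (ph i) (KK JJ b Om) = KK JJ (vc (dl (i+1)) * b) Om`
(`JJ (dl (i + 1)) = ph i`), `vc v * iv (rv b) = rv b * vc v = rv (vc v * b)` (`vc_mul'`). `i` even:
`y = KK JJ b Om` is white (`KK_mp`: `mp piW y = y`), so `ct (ph i) y = 0`, `ct (rv b) = iv (rv (ct b))`,
`vc v * iv (..) = rv (ct b) * vc v`, and `vc v * KK JJ b Om = KK JJ (-ct (ph i) b) Om`: this is `KK_mul`
for `iv b` with `vc v * Om = 0` (`St_Om`), `psi = -ph i`. -/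
def St_TE : Prop := ∀ (n i : ℕ) (b : Fk), n % 2 = 0 → i + 2 ≤ n → mp piB b = b →
  EU i (Th n b) = (if i % 2 = 1 then (1 : ℂ) else -1) • Th n (xE i b)

/-- [TU1] cups, `i` odd. PROOF. `mp (insM i)` is a ring homomorphism which commutes with `rv`, `iv`.
`KK JJ (vc v * mp ins b) Om' = ct (ph i) (KK JJ (mp ins b) Om') = KK JJ (mp ins (iv b)) (ct (ph i) Om')
= σ KK JJ (mp ins (iv b)) (mp ins Om) = σ mp ins (KK JJ (iv b) Om)` for black `b` (`KK_mp`, `KK_comp`:
`JJ (insM i c) ∘ insM i = JJ c` for black `c`; replace `b` by `mp piB b`), and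
`vc v * rv (mp ins b) = iv (..) * vc v`. With `iv b = τ • b` both signs cancel. -/
def St_TU1 : Prop := ∀ n i : ℕ, n % 2 = 0 → i % 2 = 1 → i ≤ n → ∃ σ : ℤ, (σ = 1 ∨ σ = -1) ∧
  ∀ (τ : ℤ) (b : Fk), (τ = 1 ∨ τ = -1) → iv b = (τ : ℂ) • b → mp piB b = b →
    vc (dl (i + 1)) * mp (insM i) (Th n b) = (σ : ℂ) • Th (n + 2) (xU i b)

/-- [TU0] cups, `i` even. PROOF. `KK JJ (mp ins b) (vc v * mp ins Om) = vc v * KK JJ (mp ins (iv b))
(mp ins Om) = vc v * mp ins (KK JJ (iv b) Om)` (`KK_mul`; `psi (insM i c) = JJ (insM i c) (dl (i+1)) =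
-ph i (insM i c) = 0`; `KK_mp`, `KK_comp`: `JJ (insM i c) ∘ insM i = JJ c` on white vectors for black
`c`). -/
def St_TU0 : Prop := ∀ n i : ℕ, n % 2 = 0 → i % 2 = 0 → i ≤ n → ∃ σ : ℤ, (σ = 1 ∨ σ = -1) ∧
  ∀ (τ : ℤ) (b : Fk), (τ = 1 ∨ τ = -1) → iv b = (τ : ℂ) • b → mp piB b = b →
    vc (dl (i + 1)) * mp (insM i) (Th n b) = (σ : ℂ) • Th (n + 2) (xU i b)

/-- [TN1] caps, `i` odd. PROOF. `ct (ph i) (rv b * KK JJ b Om) = iv (rv b) * KK JJ (iv b) (ct (ph i) Om)`
(`ct (ph i) b = 0`, `ct_KK`), `ct (ph i) Om_n = σ mp ins Om_(n-2)` (`St_Om`),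
`KK JJ c (mp ins y) = mp ins (KK JJ (mp del c) y)` for black `c` (`JJ c ∘ insM i = JJ (delM i c)` for
black `c`, `i` odd), `delM i ∘ insM i = 1`. -/
def St_TN1 : Prop := ∀ n i : ℕ, n % 2 = 0 → i % 2 = 1 → i + 2 ≤ n → ∃ σ : ℤ, (σ = 1 ∨ σ = -1) ∧
  ∀ (τ : ℤ) (b : Fk), (τ = 1 ∨ τ = -1) → iv b = (τ : ℂ) • b → mp piB b = b →
    mp (delM i) (ct (ph i) (Th n b)) = (σ : ℂ) • Th (n - 2) (xN i b)

/-- [TN0] caps, `i` even. PROOF. `y = KK JJ b Om` is white, so `ct (ph i) (rv b * y) =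
iv (rv (ct (ph i) b)) * y`; `Om_n = σ vc v * mp ins Om_(n-2)`, `v = dl (i + 1)`, `delM i v = 0`; by `KK_mul`
(`psi = -ph i` on all vectors) `mp del y = -σ mp del (KK JJ (iv (ct (ph i) b)) (mp ins Om))`; on white
vectors `JJ c ∘ insM i = JJ (delM i c) + ph i c • gm (i + 1)` for black `c`, so by `KK_rank`
(`ct (ph i) (ct (ph i) b) = 0`) this is `-σ mp del (mp ins (KK JJ (mp del (iv (ct (ph i) b))) Om))`, and
`delM i ∘ insM i = 1`. -/
def St_TN0 : Prop := ∀ n i : ℕ, n % 2 = 0 → i % 2 = 0 → i + 2 ≤ n → ∃ σ : ℤ, (σ = 1 ∨ σ = -1) ∧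
  ∀ (τ : ℤ) (b : Fk), (τ = 1 ∨ τ = -1) → iv b = (τ : ℂ) • b → mp piB b = b →
    mp (delM i) (ct (ph i) (Th n b)) = (σ : ℂ) • Th (n - 2) (xN i b)

/-- [TR] reflections. PROOF. `mp R (rv b * KK JJ b Om) = rv (mp R b) * mp R (KK JJ b Om)`, and
`KK JJ (mp R b) (mp R y) = mp R (KK JJ b y)` by `KK_mp`, `KK_comp` and `St_JR`, `mp R Om = σ Om`. -/
def St_TR : Prop := ∀ n a w : ℕ, n % 2 = 0 → w % 2 = 1 → a + w ≤ n → ∃ σ : ℤ, (σ = 1 ∨ σ = -1) ∧
  ∀ b : Fk, mp (Rm a w) (Th n b) = (σ : ℂ) • Th n (xR a w b)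

/-- [Ep] the scalar part of a square. PROOF. `ct (gm 1) (rv b * y) = iv (rv b) * ct (gm 1) y` (`b`
black), `ct (gm 1) (KK JJ b Om_2) = KK JJ (iv b) (ct (gm 1) (vc (dl 1))) = KK JJ (iv b) 1` and
`ep_KK_one`, `ep_iv`, `ep_rv`, `ep_mul`. -/
def St_Ep : Prop := ∀ b : Fk, mp piB b = b → ep (ct (gm 1) (Th 2 b)) = ep b ^ 2

/-! ## Full twists -/

/-- one crossing on the potentials -/
noncomputable def Mm (p : Bool) (i : ℕ) : Gp →ₗ[ℂ] Gp :=
  LinearMap.id + (if p then ph i else -ph i).smulRight (dl (i + 1))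

/-- [Mx] the product of the matrices of a full twist of an odd number of strands. PROOF. Coordinates
`h r = g (a + r)`. One sweep with `p = true`: `h r ↦ h 0 + h 1 - h (r + 1)` for `0 < r < w`. `s ≤ w` sweeps:
`h r ↦ (-1)^s * ext (r + s) + h 0 - (-1)^s * h s` (`0 < r < w`), `ext t = h t` for `t ≤ w`,
`ext (w + t) = h t - (-1)^t * (h 0 - h w)`. For `s = w` odd this is `2 h_end - h r`. `p = false`: conjugate by
`T g j = (-1)^j * g j` (`T` commutes with `Rm a w`). The composition is in the order of the word: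
`List.foldl (fun f i => Mm p i ∘ₗ f)`. -/
def St_Mx : Prop := ∀ (p : Bool) (a w : ℕ), w % 2 = 1 →
  ((List.replicate w ((List.range (w - 1)).map fun j => a + j)).flatten).foldl
    (fun (f : Gp →ₗ[ℂ] Gp) i => Mm p i ∘ₗ f) LinearMap.id = Rm a w

/-- [FTw] full twists of an odd number of strands. PROOF. `opU z (pX i p) x = z^(±1) • mp (Mm p i) x` by
`mp_rank`, so a word of crossings acts as a power of `z` times `mp` of the product of the matrices;
`St_Mx`, iterated `k.natAbs` times. -/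
def St_FTw : Prop := ∀ (z : ℂˣ), (z : ℂ) ^ 2 = Complex.I → ∀ (a w : ℕ) (k : ℤ), w % 2 = 1 →
  ∃ κ : ℂ, ‖κ‖ = 1 ∧ ∀ x : Fk, runU z (FT a w k) x = κ • (mp (Rm a w))^[k.natAbs] x

/-! ## Black letters preserve `Gd` and congruences -/

/-- [Gd] PROOF. `iv`: `mp_iv`, `iv_ct`, `iv_mul`. `mp piB`: `mp_mp` with `piB ∘ insM i = insM i ∘ piB` etc.
(`insM`, `delM`, `Rm`, `w` odd, preserve the colours; `ct_mp`: `ph i ∘ piB = ph i` for `i` even).
Integral: `Subring.closure_induction`; `mp f` maps generators to integral elements, `ct d` with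
`d (dl j)` an integer (use `ct_prod`, `iv` preserves `Iz`). `xU i (xN i b) = xE i b` for black `b`:
`insM i ∘ delM i` is `1 - gm (i+1) ⊗ dl (i+1)` on black vectors for odd `i`, and `1 + ph i ⊗ dl (i+2)` on
black vectors for even `i` (`mp_rank`, `ct_ct`). -/
def St_Gd : Prop :=
  (∀ (i : ℕ) (τ : ℤ) (b : Fk), Gd τ b →
    Gd (if i % 2 = 1 then -τ else τ) (xU i b) ∧ Gd (if i % 2 = 1 then τ else -τ) (xN i b) ∧
    Gd (-τ) (xE i b) ∧ xU i (xN i b) = xE i b) ∧
  (∀ (a w : ℕ) (τ : ℤ) (b : Fk), w % 2 = 1 → Gd τ b → Gd τ (xR a w b)) ∧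
  ∀ (i : ℕ) (c : Fk), c ∈ Iz → xU i c ∈ Iz ∧ xN i c ∈ Iz ∧ xE i c ∈ Iz

/-- [Cg] congruence modulo two. PROOF. `Subring.closure_induction`: `Rm a w (dl j) = dl j + 2 c_j` with
`c_j` an integral combination; products: `(x + 2 c) (y + 2 c')`. `ep` of a generator is zero, so `ep` of an
element of `Iz` is an integer. -/
def St_Cg : Prop := (∀ (a w : ℕ) (b : Fk), b ∈ Iz → ∃ c ∈ Iz, xR a w b = b + 2 * c) ∧
  ∀ b ∈ Iz, ∃ m : ℤ, ep b = (m : ℂ)

/-! ## Sums of squares -/

/-- the sum of the squares in a list of black elements with their parities; `e` is the type of the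
diagram -/
noncomputable def sm (e : Bool) (n : ℕ) (L : List (ℤ × Fk)) : Fk :=
  (L.map fun q => (if e then (q.1 : ℂ) else 1) • Th n q.2).sum

/-- the effect of a piece on the list -/
noncomputable def stp (s : Piece) (L : List (ℤ × Fk)) : List (ℤ × Fk) :=
  match s.k with
  | .U => L.map fun q => (if s.i % 2 = 1 then -q.1 else q.1, xU s.i q.2)
  | .N => L.map fun q => (if s.i % 2 = 1 then q.1 else -q.1, xN s.i q.2)
  | .X _ => L.flatMap fun q => [q, (-q.1, xE s.i q.2)]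

/-- all elements are good -/
def GdL (L : List (ℤ × Fk)) : Prop := ∀ q ∈ L, Gd q.1 q.2

/-- two lists are congruent modulo two -/
def CgL (L L' : List (ℤ × Fk)) : Prop :=
  List.Forall₂ (fun q q' => q.1 = q'.1 ∧ ∃ c ∈ Iz, q'.2 = q.2 + 2 * c) L L'

/-- [Stp] one piece. PROOF. `St_TE`, `St_TU1`, `St_TU0`, `St_TN1`, `St_TN0`; the phases `I ^ i` and `z^(±1)` have
absolute value one. Crossing with `p = e ↔ i % 2 = 0`: `e = false`: `i` odd, `p = true`, or `i` even,
`p = false`: `id ± EU` gives `Th b + Th (xE b)`; `e = true`: the other signs, `-τ`. -/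
def St_Stp : Prop := ∀ (z : ℂˣ), (z : ℂ) ^ 2 = Complex.I → ∀ (e : Bool) (n : ℕ) (s : Piece)
  (L : List (ℤ × Fk)), n % 2 = 0 → s.i + s.k.inn ≤ n → GdL L →
  (∀ p, s.k = .X p → (p = e ↔ s.i % 2 = 0)) → ∃ κ : ℂ, ‖κ‖ = 1 ∧
    opU z s (sm e n L) = κ • sm e (n - s.k.inn + s.k.out) (stp s L)

/-- [Sum] the whole diagram. PROOF. Induction on `Tw`: `St_Stp` for a piece, `St_FTw` and `St_TR` for a block
(`stp` of a block on `L'` is `(q.1, (xR a w)^[k.natAbs] q.2)`, it is congruent to `q`), `St_Gd`, `St_Cg`. -/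
def St_Sum : Prop := ∀ (z : ℂˣ), (z : ℂ) ^ 2 = Complex.I → ∀ (e : Bool) (n m : ℕ) (D K : Word),
  Tw n D K → Ok D n m → n % 2 = 0 → (∀ (p : Bool) (i : ℕ), pX i p ∈ D → (p = e ↔ i % 2 = 0)) →
  ∀ L L' : List (ℤ × Fk), GdL L → GdL L' → CgL L L' → ∃ (M' : List (ℤ × Fk)) (κ : ℂ), ‖κ‖ = 1 ∧
    GdL (D.foldl (fun l s => stp s l) L) ∧ GdL M' ∧ CgL (D.foldl (fun l s => stp s l) L) M' ∧
    runU z K (sm e n L') = κ • sm e m M'

/-- the words without crossings of all states of a word -/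
def smth : Word → List Word
  | [] => [[]]
  | s :: w => match s.k with
    | .X _ => (smth w).flatMap fun v => [v, pN s.i :: pU s.i :: v]
    | _ => (smth w).map fun v => s :: v

/-- [Sts] the elements of the list are the values of the states. PROOF. Induction on `D`,
`xU i (xN i b) = xE i b` (`St_Gd`); only the black elements matter. -/
def St_Sts : Prop := ∀ (D : Word) (n m : ℕ) (L : List (ℤ × Fk)), Ok D n m → GdL L →
  ∀ q ∈ D.foldl (fun l s => stp s l) L, ∃ v ∈ smth D, Ok v n m ∧ (∀ (i : ℕ) (p : Bool), pX i p ∉ v) ∧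
    ∃ q' ∈ L, v.foldl (fun l s => stp s l) [q'] = [q]

/-- [Odd] the result. PROOF. `D = pU 0 :: D'`, `K = pU 0 :: K'` (a block does not fit on `0` strands),
`Tw 2 D' K'`, and `Tw 4 D' K'` (two more strands on the right). `vc (dl 1) = Om 2 = Th 2 1 = sm e 2 [(1, 1)]`.
`St_Sum` for `pU 1 :: D'`, `pU 1 :: K'`, `n = m = 2`, `L = L' = [(1, 1)]`: with `St_Run` and `St_Ep` (apply
`ep ∘ ct (gm 1)`; `ep b ≠ 0` only if `τ = 1`) `|bracket K (z)| = ∑ ep b'^2`, `|bracket D (z)| = ∑ ep b^2`,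
`ep b'`, `ep b` integers of the same parity (`St_Cg`). For every element `b` of the list of `D` `St_Sts` and the
same theorem for the word without crossings give `ep b^2 = |bracket (state)| ∈ {0, 1}`. So
`∑ ep b^2 = #{b : ep b odd} ≤ ∑ ep b'^2`. -/
def St_Odd : Prop := ∀ (z : ℂˣ), (z : ℂ) ^ 2 = Complex.I → ∀ D K : Word, Alt D → D ≠ [] →
  Tw 0 D K → ‖evalAt z (bracket (unW D))‖ ≤ ‖evalAt z (bracket (unW K))‖

end Pool.TWI
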