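import Pool.Agent.TWI.StO
import Pool.Agent.TWI.DefsP

/-!
# TWI, T-B+ (odd arcs of both signs, even arcs of one sign): definitions and frozen statements
-/

set_option autoImplicit false

namespace Pool.TWI

open Pool.Agent.ARB
open Pool.Agent.Helper2 (Slice bracket evalAt loopVal)

/-- the vector of an arc of even width -/
noncomputable def vv (a w : ℕ) : Gp := ∑ r ∈ Finset.range (w / 2), dl (a + 1 + 2 * r)

/-- the functional of an arc of even width -/
noncomputable def ps (a w : ℕ) : Module.Dual ℂ Gp := gm a - gm (a + w)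

/-- the black letter of an arc of even width -/
noncomputable def xW (a w : ℕ) (b : Fk) : Fk := if a % 2 = 1 then vc (vv a w) * b else ct (ps a w) b

/-- [MxE] the product of the matrices of a full twist of an even number of strands. PROOF. The same
computation as `St_Mx`: after `s ≤ w` sweeps (`p = true`) `h r` has become
`(-1)^s * ext (r + s) + h 0 - (-1)^s * h s` (`0 < r < w`), for `s = w` even this is
`h r + (1 - (-1)^r) * (h 0 - h w)`. `p = false`: conjugate by `T g j = (-1)^j * g j`. -/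
def St_MxE : Prop := ∀ (p : Bool) (a w : ℕ), w % 2 = 0 →
  ((List.replicate w ((List.range (w - 1)).map fun j => a + j)).flatten).foldl
    (fun (f : Gp →ₗ[ℂ] Gp) i => Mm p i ∘ₗ f) LinearMap.id =
      LinearMap.id + ((if p then (2 : ℂ) else -2) • ps a w).smulRight (vv a w)

/-- [FTE] full twists of an even number of strands. PROOF. As `FTw.lean`; `mp_rank`;
`ps a w (vv a w) = 0`, so `ct (ps a w) (vc (vv a w) * y) = -vc (vv a w) * ct (ps a w) y` and the map
`E x = vc (vv a w) * ct (ps a w) x` has the square zero: `(1 + 2 E)^k = 1 + 2 k E`. -/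
def St_FTE : Prop := ∀ (z : ℂˣ), (z : ℂ) ^ 2 = Complex.I → ∀ (a w : ℕ) (k : ℤ), w % 2 = 0 →
  ∃ κ : ℂ, ‖κ‖ = 1 ∧ ∀ x : Fk, runU z (FT a w k) x =
    κ • (x + (2 * (k : ℂ)) • (vc (vv a w) * ct (ps a w) x))

/-- [TEW] PROOF. As `TE.lean` (which is the case `w = 2`): `a` odd: `JJ (vv a w) = ps a w`
(telescoping), `ps a w ∘ piB = 0`; `a` even: `JJ c (vv a w) = -ps a w c`, `vc (vv a w) * Om n = 0`,
`ps a w ∘ piW = 0`. -/
def St_TEW : Prop := ∀ (n a w : ℕ) (b : Fk), n % 2 = 0 → w % 2 = 0 → a + w ≤ n → mp piB b = b →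
  vc (vv a w) * ct (ps a w) (Th n b) = (if a % 2 = 1 then (1 : ℂ) else -1) • Th n (xW a w b)

/-- [GdW] PROOF. As `Gd.lean` for `xE`. -/
def St_GdW : Prop := ∀ (a w : ℕ) (τ : ℤ) (b : Fk), w % 2 = 0 → Gd τ b → Gd (-τ) (xW a w b)

/-- [FourP] the result: determinants can only grow, by an even number. -/
def St_FourP : Prop := ∀ (z : ℂˣ), (z : ℂ) ^ 2 = Complex.I → ∀ (e : Bool) (D K : Word), AltE e D →
  D ≠ [] → Twe e 0 D K → ∃ a j : ℕ, ‖evalAt z (bracket (unW D))‖ = a ∧
    ‖evalAt z (bracket (unW K))‖ = a + 2 * j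

end Pool.TWI
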